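import Pool.Agent.Helper76.TW.Goals
import Pool.Agent.Helper88.TU.Size

import Pool.Agent.Helper88.CG.KQ
import Pool.Agent.Helper88.CG.VP
import Pool.Agent.Helper59.RR.PW
import Pool.Agent.Helper28.RR.RA

/-! # The points of `P` with the property `AT` are killed by the weight (packet KQ2)

Adapted from `Pool/Agent/Helper59/RR/PW.lean`, `Pool/Agent/Helper88/RR/KI.lean` and
`Pool/Agent/Helper88/TU/KQ.lean`. -/

set_option autoImplicit false

open Finset Filter Topology

open scoped Classical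

namespace Pool.Agent.Helper88.TW

open Pool.Agent.Helper88.PP (pr Rg om Sf SS uu vv ee LA VV QQ NN XX cost nc dd)
open Pool.Agent.Helper88.RR (gg ab TB nz Db VM tail point om_nonneg gg_nonneg gg_succ LA_ne ee_le
  sum_wt StmtRA)
open Pool.Agent.Helper88.GM (NI XI)
open Pool.Agent.Helper88.CG (StmtVP mE qE small)
open Pool.Agent.Helper88.TU (Su size)
open Pool.Agent.Helper59.RR (LA_sub zero_notMem_SS sum_split prod_split)
open Pool.Agent.Helper76.TW

/-- the densities of the pairs -/
theorem gg2_succ (y z k : ℕ) (hk : 2 * k + 2 ≤ y) :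
    gg y z (2 * (k + 1)) ≤ om y z ^ 2 * gg y z (2 * k) := by
  have h1 := gg_succ y z (2 * k) (by omega)
  have h2 := gg_succ y z (2 * k + 1) (by omega)
  have h3 := om_nonneg y z
  calc gg y z (2 * (k + 1)) = gg y z (2 * k + 1 + 1) := by congr 1
    _ ≤ om y z * gg y z (2 * k + 1) := h2
    _ ≤ om y z * (om y z * gg y z (2 * k)) := mul_le_mul_of_nonneg_left h1 h3
    _ = _ := by ring

/-- separated points: `2 #P ≤ y` -/
theorem Sep_card {y : ℕ} {P : Finset ℕ} (h : Sep y P) : 2 * P.card ≤ y := by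
  have h1 : P ∪ P.image (fun i => i + 2) ⊆ Icc 1 y := by
    intro i hi
    rcases mem_union.1 hi with hi | hi
    · have := h.1 i hi
      exact mem_Icc.2 ⟨this.1, by omega⟩
    · obtain ⟨j, hj, rfl⟩ := mem_image.1 hi
      have := h.1 j hj
      exact mem_Icc.2 ⟨by omega, this.2⟩
  have h2 : Disjoint P (P.image (fun i => i + 2)) := by
    rw [Finset.disjoint_left]
    intro i hi hi2
    obtain ⟨j, hj, rfl⟩ := mem_image.1 hi2
    exact h.2 j hj _ hi rfl
  have h3 := card_le_card h1
  rw [card_union_of_disjoint h2, card_image_of_injective _ (fun a b hab => by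
    simpa using hab), Nat.card_Icc] at h3
  omega

/-- the tail of the cost -/
theorem tail2 (h3 : StmtRA) (m q M z y j : ℕ) (P : Finset ℕ) (hP : 2 * P.card ≤ y)
    (hV : VV z m (q * m) ≠ 0) (hj : 2 * (j * (q * m)) ≤ M)
    (hc : 4 * ((P.card : ℝ) * om y z ^ 2 * (1 / VV z m (q * m))) ≤ M) :
    2 ^ j * ∑ r ∈ (TB m q M z P).filter (fun r => M < cost z r + q * m), wb2 m q y z r ≤
      D2 m q M z y P := by
  have h4 := h3 P (LA z m (q * m)) (ee z) (fun s => ab m q z s ^ 2 * (Nat.totient s : ℝ))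
    (fun k => gg y z (2 * k)) (om y z ^ 2) M (q * m) j (fun h => (LA_ne h).1 rfl)
    (fun r hr => ee_le hr)
    (fun r => mul_nonneg (sq_nonneg _) (Nat.cast_nonneg _)) (sq_nonneg _)
    (fun k hk => gg_nonneg y z (2 * k) (by rw [Fintype.card_coe] at hk; omega))
    (fun k hk => gg2_succ y z k (by rw [Fintype.card_coe] at hk; omega)) hj
    (by rw [sum_wt m q z hV, Fintype.card_coe]; exact hc)
  rw [D2, TB, Finset.filter_filter]
  exact h4

theorem vR_one {M z y : ℕ} {p0 n : ℕ} (hM : 2 ≤ M) (hR2 : Rg y z (p0 + 2)) (hz : 2 ≤ z) (hp : p0.Prime)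
    (hn : z ^ M ≤ n) (hnp : n ≤ p0) {s : ℕ} (hs : s ∈ SS z (z ^ M)) :
    vR (R2 y z) s p0 = 1 := by
  unfold SS at hs
  rw [mem_filter, mem_Ico] at hs
  obtain ⟨⟨hs1, hs2⟩, _⟩ := hs
  have hzM : z < z ^ M := by
    calc z = z ^ 1 := (pow_one z).symm
      _ < z ^ M := Nat.pow_lt_pow_right (by omega) (by omega)
  have hlt : ∀ p : ℕ, p.Prime → p < z ^ M → ¬ p ∣ p0 := by
    intro p hpp hpl hd
    have := (Nat.prime_dvd_prime_iff_eq hpp hp).1 hd
    omega
  have hRg : Rg y z p0 := by
    intro p hpr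
    unfold pr at hpr
    rw [mem_filter, mem_Ioc] at hpr
    exact hlt p hpr.2 (lt_of_le_of_lt hpr.1.2 hzM)
  unfold vR
  rw [if_neg (by omega), if_pos ⟨hRg, hR2⟩]
  unfold uu
  apply Finset.prod_eq_one
  intro p hpm
  have hpp := Nat.prime_of_mem_primeFactors hpm
  have hpd := Nat.dvd_of_mem_primeFactors hpm
  have hps : p ≤ s := Nat.le_of_dvd (by omega) hpd
  rw [if_neg (hlt p hpp (by omega))]
  simp

theorem pw2 (m q M z y : ℕ) (P : Finset ℕ) (h : P) (n : ℕ) (hM : 2 ≤ M)
    (hz : 2 ≤ z) (hVV : VV z m (q * m) ≠ 0) (hm2 : q * m ≤ M) (hp : (n + (h : ℕ)).Prime)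
    (hR2 : Rg y z (n + (h : ℕ) + 2)) (hn : z ^ M ≤ n) :
    W2 m q M z y P n = G2 m q M z y P h n := by
  set A := LA z m (q * m) with hA
  have hAsub : A ⊆ SS z (z ^ M) := LA_sub hz hm2
  have h0A : 0 ∉ A := fun h => zero_notMem_SS (hAsub h)
  have hvv : ∀ s ∈ SS z (z ^ M), vR (R2 y z) s (n + (h : ℕ)) = 1 := fun s hs =>
    vR_one hM hR2 hz hp hn (by omega) hs
  set c : ℕ → ℕ := fun s => if s = 0 then 0 else ee z s with hc
  set f : P → ℕ → ℝ := fun i s => (if s = 0 then 1 else - ab m q z s) * vR (R2 y z) s (n + (i : ℕ))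
    with hf
  have hf0 : f h 0 = 1 := by simp [hf, vR]
  have hfA : ∀ s ∈ A, f h s = - ab m q z s := by
    intro s hs
    have hs0 : s ≠ 0 := fun h => h0A (h ▸ hs)
    simp only [hf, if_neg hs0, hvv s (hAsub hs), mul_one]
  have hcost : ∀ (r : P → ℕ) (s : ℕ), r h = 0 →
      cost z (Function.update r h s) = cost z r + c s := by
    intro r s hr
    have h1 : cost z (Function.update r h s) = c s + ∑ i ∈ univ.erase h, c (r i) := by
      unfold cost
      exact sum_split h (fun _ t => c t) r s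
    have h2 : cost z r = c (r h) + ∑ i ∈ univ.erase h, c (r i) := by
      unfold cost
      exact (Finset.add_sum_erase univ _ (mem_univ h)).symm
    rw [h1, h2, hr]
    simp only [hc, if_true]
    omega
  have hmemTT : ∀ r : P → ℕ, r ∈ TB m q M z P ↔ (∀ i, r i ∈ insert 0 A) ∧ cost z r ≤ M := by
    intro r
    unfold TB
    rw [mem_filter, Fintype.mem_piFinset]
  have hWW : W2 m q M z y P n = ∑ r ∈ TB m q M z P, ∏ i, f i (r i) := rfl
  -- the sum of the coefficients
  have hsumaa : ∑ s ∈ A, ab m q z s = 1 := by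
    unfold ab
    have : ∀ s ∈ A, 1 / (VV z m (q * m) * (Nat.totient s : ℝ) * ee z s) =
        (1 / VV z m (q * m)) * (1 / ((Nat.totient s : ℝ) * ee z s)) := by
      intro s _
      rw [mul_assoc, one_div_mul_one_div]
    rw [Finset.sum_congr rfl this, ← Finset.mul_sum]
    have h2 : ∑ s ∈ A, 1 / ((Nat.totient s : ℝ) * ee z s) = VV z m (q * m) := rfl
    rw [h2]
    field_simp
  have hstep : ∀ r' ∈ (TB m q M z P).filter (fun r => r h = 0),
      ∑ r ∈ (TB m q M z P).filter (fun r => Function.update r h 0 = r'), ∏ i, f i (r i) =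
        Db m q M z (cost z r') * ∏ i, f i (r' i) := by
    intro r' hr'
    rw [mem_filter, hmemTT] at hr'
    obtain ⟨⟨hr1, hr2⟩, hr3⟩ := hr'
    have e1 : ∑ r ∈ (TB m q M z P).filter (fun r => Function.update r h 0 = r'), ∏ i, f i (r i) =
        ∑ s ∈ (insert 0 A).filter (fun s => cost z r' + c s ≤ M),
          ∏ i, f i (Function.update r' h s i) := by
      refine Finset.sum_bij' (fun r _ => r h) (fun s _ => Function.update r' h s) ?_ ?_ ?_ ?_ ?_
      · intro r hr
        rw [mem_filter, hmemTT] at hr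
        obtain ⟨⟨ha, hb⟩, hd⟩ := hr
        rw [mem_filter]
        refine ⟨ha h, ?_⟩
        have : Function.update r' h (r h) = r := by
          rw [← hd]; simp
        rw [← hcost r' (r h) hr3, this]
        exact hb
      · intro s hs
        rw [mem_filter] at hs
        rw [mem_filter, hmemTT]
        refine ⟨⟨?_, ?_⟩, ?_⟩
        · intro i
          by_cases hi : i = h
          · subst hi; rw [Function.update_self]; exact hs.1
          · rw [Function.update_of_ne hi]; exact hr1 i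
        · rw [hcost r' s hr3]; exact hs.2
        · rw [Function.update_idem]
          conv_rhs => rw [← Function.update_eq_self h r', hr3]
      · intro r hr
        rw [mem_filter] at hr
        rw [← hr.2]; simp
      · intro s _
        simp
      · intro r hr
        rw [mem_filter] at hr
        have : Function.update r' h (r h) = r := by
          rw [← hr.2]; simp
        rw [this]
    have e2 : ∀ s, ∏ i, f i (Function.update r' h s i) =
        f h s * ∏ i ∈ univ.erase h, f i (r' i) := fun s => prod_split h f r' s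
    have e3 : ∏ i, f i (r' i) = ∏ i ∈ univ.erase h, f i (r' i) := by
      rw [← Finset.mul_prod_erase univ _ (mem_univ h), hr3, hf0, one_mul]
    rw [e1, Finset.sum_congr rfl (fun s _ => e2 s), ← Finset.sum_mul, e3]
    congr 1
    have e4 : (insert 0 A).filter (fun s => cost z r' + c s ≤ M) =
        insert 0 (A.filter (fun s => cost z r' + c s ≤ M)) := by
      rw [Finset.filter_insert, if_pos]
      simpa [hc] using hr2
    rw [e4, Finset.sum_insert (fun h => h0A (Finset.mem_filter.1 h).1), hf0]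
    have e5 : ∑ s ∈ A.filter (fun s => cost z r' + c s ≤ M), f h s =
        - ∑ s ∈ A.filter (fun s => cost z r' + ee z s ≤ M), ab m q z s := by
      rw [← Finset.sum_neg_distrib]
      apply Finset.sum_congr
      · apply Finset.filter_congr
        intro s hs
        have hs0 : s ≠ 0 := fun h => h0A (h ▸ hs)
        simp only [hc, if_neg hs0]
      · intro s hs
        exact hfA s (Finset.mem_filter.1 hs).1
    rw [e5]
    have e6 : Db m q M z (cost z r') =
        ∑ s ∈ A.filter (fun s => ¬ cost z r' + ee z s ≤ M), ab m q z s := by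
      unfold Db
      apply Finset.sum_congr _ (fun _ _ => rfl)
      apply Finset.filter_congr
      intro s _
      omega
    rw [e6]
    have e7 := Finset.sum_filter_add_sum_filter_not A
      (fun s => cost z r' + ee z s ≤ M) (fun s => ab m q z s)
    rw [hsumaa] at e7
    linarith
  have hmaps : ∀ r ∈ TB m q M z P, Function.update r h 0 ∈
      (TB m q M z P).filter (fun r => r h = 0) := by
    intro r hr
    rw [hmemTT] at hr
    rw [mem_filter, hmemTT]
    refine ⟨⟨?_, ?_⟩, ?_⟩
    · intro i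
      by_cases hi : i = h
      · subst hi; rw [Function.update_self]; exact mem_insert_self 0 A
      · rw [Function.update_of_ne hi]; exact hr.1 i
    · have h1 : cost z (Function.update (Function.update r h 0) h (r h)) =
          cost z (Function.update r h 0) + c (r h) := hcost _ _ (by simp)
      have h2 : Function.update (Function.update r h 0) h (r h) = r := by simp
      rw [h2] at h1
      have := hr.2
      omega
    · simp
  rw [hWW, ← Finset.sum_fiberwise_of_maps_to hmaps, Finset.sum_congr rfl hstep]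
  -- the right side
  have hV1 : VM M z ≠ 0 := by
    have h1 : (1 : ℕ) ∈ SS z (z ^ M) := by
      unfold SS
      rw [mem_filter, mem_Ico]
      refine ⟨⟨le_rfl, Nat.one_lt_pow (by omega) (by omega)⟩, squarefree_one, ?_⟩
      intro p hp hd
      exact absurd (Nat.dvd_one.1 hd) hp.one_lt.ne'
    have h2 : (1 : ℝ) / (Nat.totient 1 : ℝ) ≤ VM M z := by
      unfold VM
      exact Finset.single_le_sum (f := fun s : ℕ => 1 / (Nat.totient s : ℝ))
        (fun s _ => by positivity) h1
    simp at h2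
    linarith
  unfold G2
  apply Finset.sum_congr rfl
  intro r _
  have h3 : ∀ s ∈ SS z (z ^ M), Db m q M z (cost z r) * (1 / (VM M z * (Nat.totient s : ℝ))) *
      vR (R2 y z) s (n + (h : ℕ)) * ∏ i : P, ((if r i = 0 then 1 else - ab m q z (r i)) *
        vR (R2 y z) (r i) (n + (i : ℕ))) =
      (Db m q M z (cost z r) * ∏ i, f i (r i)) * ((1 / VM M z) * (1 / (Nat.totient s : ℝ))) := by
    intro s hs
    rw [hvv s hs, one_div_mul_one_div]
    simp only [hf]
    ring
  rw [Finset.sum_congr rfl h3, ← Finset.mul_sum, ← Finset.mul_sum]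
  have h4 : ∑ s ∈ SS z (z ^ M), 1 / (Nat.totient s : ℝ) = VM M z := rfl
  rw [h4, one_div_mul_cancel hV1, mul_one]

/-- the inequality at a single integer -/
theorem point2 (m q M z y n : ℕ) (P : Finset ℕ) (hM : 2 ≤ M)
    (hz : 2 ≤ z) (hV : VV z m (q * m) ≠ 0) (hqm : q * m ≤ M) (hzn : z ^ M ≤ n) :
    W2 m q M z y P n ^ 2 *
        ((P.filter (fun h => (n + h).Prime ∧ Rg y z (n + h + 2))).card : ℝ) ≤
      ∑ h : P, G2 m q M z y P h n ^ 2 := by
  have h7 : W2 m q M z y P n ^ 2 *
      ((P.filter (fun h => (n + h).Prime ∧ Rg y z (n + h + 2))).card : ℝ) =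
      ∑ h : P, if (n + (h : ℕ)).Prime ∧ Rg y z (n + h + 2) then W2 m q M z y P n ^ 2 else 0 := by
    rw [Finset.sum_coe_sort P (fun h => if (n + h).Prime ∧ Rg y z (n + h + 2) then
      W2 m q M z y P n ^ 2 else 0),
      ← Finset.sum_filter, Finset.sum_const, nsmul_eq_mul, mul_comm]
  rw [h7]
  refine Finset.sum_le_sum fun h _ => ?_
  split_ifs with hpr
  · rw [pw2 m q M z y P h n hM hz hV hqm hpr.1 hpr.2 hzn]
  · exact sq_nonneg _

theorem kq2_aux (h : StmtVP) (hS1 : StmtS2) (hGT : StmtGT2) : StmtKQ2 := by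
  obtain ⟨c1, hc1, EV, hVP⟩ := h
  obtain ⟨cG, hcG, EG, hGT⟩ := hGT
  obtain ⟨cS, hcS, ES, hS1⟩ := hS1
  obtain ⟨EZ, hZ⟩ := size
  set c : ℝ := min 1 (c1 / 100) with hc
  have hc0 : 0 < c := lt_min one_pos (by positivity)
  have hcl : c ≤ c1 / 100 := min_le_right _ _
  have hcone : c ≤ 1 := min_le_left _ _
  clear_value c
  refine ⟨c, hc0, fun η hη => ?_⟩
  obtain ⟨E2, hE2⟩ := small η cG hη hcG
  refine ⟨max (max (max ES EG) EZ) (max (max EV E2) 300), ?_⟩
  intro E z x y hE hSr Q b hb P hP hPo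
  have hEES : ES ≤ E := le_trans (le_trans (le_trans (le_max_left _ _) (le_max_left _ _))
    (le_max_left _ _)) hE
  have hEEG : EG ≤ E := le_trans (le_trans (le_trans (le_max_right _ _) (le_max_left _ _))
    (le_max_left _ _)) hE
  have hEEZ : EZ ≤ E := le_trans (le_trans (le_max_right _ _) (le_max_left _ _)) hE
  have hEEV : EV ≤ E := le_trans (le_trans (le_trans (le_max_left _ _) (le_max_left _ _))
    (le_max_right _ _)) hE
  have hEE2 : E2 ≤ E := le_trans (le_trans (le_trans (le_max_right _ _) (le_max_left _ _))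
    (le_max_right _ _)) hE
  have hE300 : 300 ≤ E := le_trans (le_trans (le_max_right _ _) (le_max_right _ _)) hE
  obtain ⟨s1, s2⟩ := hE2 E hEE2
  obtain ⟨v1, v2, v3, v4, v5, v6⟩ := hVP E hEEV
  obtain ⟨a1, a2, a3, a4, a5, a6, a7, a8, a9, a10, a11, a12, a13, a14⟩ := hZ E z x y hEEZ hSr
  set m := mE E with hm
  set q := qE E with hq
  have hq1 : 1 ≤ q := by rw [hq, qE]; exact Nat.one_le_two_pow
  have hqm : q * m ≤ E / 16 := by
    refine le_trans (Nat.mul_le_mul_right _ ?_) v2
    nlinarith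
  have hK : (E / 16 / m + 1) ^ 3 ≤ E := by
    refine le_trans ?_ v4
    have ha : ∀ a : ℕ, a + 1 ≤ 2 * (a + 2) := fun a => by omega
    calc (E / 16 / m + 1) ^ 3 ≤ (2 * (E / 16 / m + 2)) ^ 3 := Nat.pow_le_pow_left (ha _) 3
      _ ≤ (2 * (E / 16 / m + 2)) ^ 6 := Nat.pow_le_pow_right (Nat.succ_le_of_lt (by positivity)) (by norm_num)
  have hj : 2 * (q / 2 * (q * m)) ≤ E / 16 := by
    refine le_trans ?_ v2
    have h1 : 2 * (q / 2) ≤ q := Nat.mul_div_le q 2
    calc 2 * (q / 2 * (q * m)) = 2 * (q / 2) * (q * m) := by ring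
      _ ≤ q * (q * m) := Nat.mul_le_mul_right _ h1
      _ = q ^ 2 * m := by ring
  have hE0 : E ≠ 0 := by omega
  have hEr : (300 : ℝ) ≤ E := by exact_mod_cast hE300
  have hEpos : (0 : ℝ) < E := by linarith
  -- the size of `z`
  have hx1 : z ^ E ≤ x := hSr.2.1
  have hz2' : 2 ≤ z := by omega
  obtain ⟨hV1, hVlog⟩ := v6 z hz2'
  set V := VV z m (q * m) with hV
  have hV0 : V ≠ 0 := by linarith
  have hVpos : 0 < V := by linarith
  have hlogE0 : 0 ≤ Real.log E := Real.log_nonneg (by linarith)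
  -- the hypotheses on `P`
  have hom := om_nonneg y z
  have hPo2 : (P.card : ℝ) * om y z ^ 2 ≤ (E : ℝ) ^ 2 := by
    refine hPo.trans ?_
    have h1 : Real.log E ≤ E := Real.log_le_self hEpos.le
    calc c * (E * Real.log E) ≤ 1 * (E * E) := by
          apply mul_le_mul hcone _ (by positivity) (by norm_num)
          exact mul_le_mul_of_nonneg_left h1 hEpos.le
      _ = (E : ℝ) ^ 2 := by ring
  have hPy : 2 * P.card ≤ y := Sep_card hP
  have hMr : (E : ℝ) / 17 ≤ ((E / 16 : ℕ) : ℝ) := by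
    have : E ≤ 17 * (E / 16) := by clear hj hK v2 v4 v5; omega
    have h3 : (E : ℝ) ≤ 17 * ((E / 16 : ℕ) : ℝ) := by exact_mod_cast this
    linarith
  have hx0' : 0 < x := by omega
  obtain ⟨hD1, _⟩ := hS1 E z x y hEES hSr Q b hb m q v1 hqm hV1 hK P hP hPo2
  have hG := hGT E z x y hEEG hSr Q b hb m q v1 hqm hV1 hK P hP hPo2
  -- the tail
  have htail := tail2 Pool.Agent.Helper28.RR.ra m q (E / 16) z y (q / 2) P hPy hV0 hj (by
    refine le_trans ?_ hMr
    rw [← hV]
    have h1 : (P.card : ℝ) * om y z ^ 2 * (1 / V) ≤ c * (E * Real.log E) * (1 / V) :=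
      mul_le_mul_of_nonneg_right hPo (by positivity)
    have h2 : c * (E * Real.log E) * (1 / V) ≤ E / 100 := by
      rw [mul_one_div, div_le_iff₀ hVpos]
      have h3 : c * Real.log E ≤ V / 100 := by
        calc c * Real.log E ≤ c1 / 100 * Real.log E :=
              mul_le_mul_of_nonneg_right hcl hlogE0
          _ ≤ V / 100 := by linarith
      calc c * (E * Real.log E) = E * (c * Real.log E) := by ring
        _ ≤ E * (V / 100) := mul_le_mul_of_nonneg_left h3 hEpos.le
        _ = E / 100 * V := by ring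
    linarith)
  have hDt : Dt2 E z y P = D2 m q (E / 16) z y P := rfl
  rw [hDt]
  set D := D2 m q (E / 16) z y P with hD
  set Sig := ∑ r ∈ (TB m q (E / 16) z P).filter (fun r => E / 16 < cost z r + q * m),
    wb2 m q y z r with hSig
  have hXX : 0 < XQ x Q := by
    have hQ0 : (0 : ℝ) < Q := by exact_mod_cast (lt_of_le_of_lt (Nat.zero_le _) hb.1)
    unfold XQ XI
    have : (0 : ℝ) < ((32 * x - x : ℕ) : ℝ) := by exact_mod_cast (by omega : 0 < 32 * x - x)
    positivity
  have hD0 : 0 < D := by linarith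
  have hSigD : Sig ≤ 1 / 2 ^ (q / 2) * D := by
    rw [one_div, ← div_eq_inv_mul, le_div_iff₀ (by positivity), mul_comm]
    exact htail
  have hA : ∑ n ∈ NQ x Q b, Wt2 E z y P n ^ 2 *
        ((P.filter (fun h => (n + h).Prime ∧ Rg y z (n + h + 2))).card : ℝ) ≤
      ∑ n ∈ NQ x Q b, ∑ h : P, G2 m q (E / 16) z y P h n ^ 2 := by
    refine Finset.sum_le_sum fun n hn => ?_
    have hn1 : x < n := (Finset.mem_Ioc.mp (Finset.mem_filter.mp hn).1).1
    have hzn : z ^ (E / 16) ≤ n := by
      have h6 : z ^ (E / 16) * 32 ≤ x := by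
        refine le_trans ?_ hx1
        calc z ^ (E / 16) * 32 = z ^ (E / 16) * 2 ^ 5 := by norm_num
          _ ≤ z ^ (E / 16) * z ^ 5 := Nat.mul_le_mul_left _ (Nat.pow_le_pow_left hz2' 5)
          _ = z ^ (E / 16 + 5) := (pow_add _ _ _).symm
          _ ≤ z ^ E := Nat.pow_le_pow_right (by omega) (by omega)
      omega
    exact point2 m q (E / 16) z y n P v3 hz2' hV0 hqm hzn
  rw [Finset.sum_comm] at hA
  have hB := hA.trans (Finset.sum_le_sum fun h _ => hG h)
  rw [Finset.sum_const, nsmul_eq_mul, Finset.card_univ, Fintype.card_coe] at hB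
  refine hB.trans ?_
  have hSig0 : Sig + Real.exp (-(cG * E)) ≤
      1 / 2 ^ (q / 2) * D + Real.exp (-(cG * E)) * D := by
    have h1 : Real.exp (-(cG * E)) ≤ Real.exp (-(cG * E)) * D :=
      le_mul_of_one_le_right (Real.exp_pos _).le hD1
    linarith
  have hPom : 0 ≤ (P.card : ℝ) * om y z ^ 2 := mul_nonneg (Nat.cast_nonneg _) (sq_nonneg _)
  calc (P.card : ℝ) * (XQ x Q * om y z ^ 2 * (Sig + Real.exp (-(cG * E))))
      = XQ x Q * ((P.card : ℝ) * om y z ^ 2 * (Sig + Real.exp (-(cG * E)))) := by ring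
    _ ≤ XQ x Q * ((P.card : ℝ) * om y z ^ 2 *
          (1 / 2 ^ (q / 2) * D + Real.exp (-(cG * E)) * D)) := by gcongr
    _ ≤ XQ x Q * ((E : ℝ) ^ 2 *
          (1 / 2 ^ (q / 2) * D + Real.exp (-(cG * E)) * D)) := by
        have : 0 ≤ 1 / 2 ^ (q / 2) * D + Real.exp (-(cG * E)) * D := by positivity
        gcongr
    _ = XQ x Q * D * ((E : ℝ) ^ 2 * (1 / 2 ^ (q / 2)) +
          (E : ℝ) ^ 2 * Real.exp (-(cG * E))) := by ring
    _ ≤ XQ x Q * D * (η / 2 + η / 2) :=
        mul_le_mul_of_nonneg_left (add_le_add s1 s2) (by positivity)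
    _ = η * (XQ x Q * D) := by ring

/-- the values of the parameters -/
theorem kq2 (hS1 : StmtS2) (hGT : StmtGT2) : StmtKQ2 := kq2_aux Pool.Agent.Helper88.CG.vp hS1 hGT

end Pool.Agent.Helper88.TW
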