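import Pool.Agent.Helper88.TW.ERa
import Pool.Agent.Helper46.TU.ER
import Pool.Agent.Helper57.TU.BM
import Pool.Agent.Helper24.PP.MA

/-!
# The error term (packet ER2)

Adapted from `Pool/Agent/Helper46/TU/ER.lean`.
-/

set_option autoImplicit false

open Finset Filter Topology

open scoped Classical

namespace Pool.Agent.Helper88.TW

open Pool.Agent.Helper88.CG (tw pw th DS sg)
open Pool.Agent.Helper88.TU (AA Su size size_pow size_gg)
open Pool.Agent.Helper88.PP (pr Rg om Sf SS QQ XX)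
open Pool.Agent.Helper88.RR (nz gg)
open Pool.Agent.Helper88.GM (NI XI)
open Pool.Agent.Helper64.RR (mem_pr sum_pr_le)
open Pool.Agent.Helper74.PP (om_lower)
open Pool.Agent.Helper53.CG (mem_SS H_le hh hh_nonneg mem_DS S_le Cop
  noncop_le w_hh inv_D pw_bd NI_card)
open Pool.Agent.Helper46.TU (thrK fin_num S_le2)
open Pool.Agent.Helper76.TW

theorem icR_bd (R : ℕ → Prop) (d m : ℕ) : 0 ≤ icR R d m ∧ icR R d m ≤ 1 := by
  rw [icR]
  split_ifs <;> norm_num

theorem pj_bd (x w z j n : ℕ) (hx : 1 ≤ x) : 0 ≤ pj x w z j n ∧ pj x w z j n ≤ 1 := by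
  obtain ⟨h1, h2⟩ := pw_bd (32 * x) (n + j) (by omega)
  rw [pj]
  split_ifs
  · rw [mul_one]
    exact ⟨h1, h2⟩
  · rw [mul_zero]
    norm_num

theorem CJ_bd (x w y z j : ℕ) (hx : 1 ≤ x) (N : Finset ℕ) {P : Finset ℕ} (d : P → ℕ) :
    0 ≤ CJ x w y z j N d ∧ CJ x w y z j N d ≤ N.card := by
  have hp0 : ∀ n, 0 ≤ ∏ i : P, icR (R2 y z) (d i) (n + (i : ℕ)) := fun n =>
    Finset.prod_nonneg fun i _ => (icR_bd _ _ _).1
  have hp1 : ∀ n, ∏ i : P, icR (R2 y z) (d i) (n + (i : ℕ)) ≤ 1 := fun n =>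
    Finset.prod_le_one (fun i _ => (icR_bd _ _ _).1) fun i _ => (icR_bd _ _ _).2
  rw [CJ]
  constructor
  · exact Finset.sum_nonneg fun n _ => mul_nonneg (pj_bd _ _ _ _ _ hx).1 (hp0 n)
  · calc ∑ n ∈ N, pj x w z j n * ∏ i : P, icR (R2 y z) (d i) (n + (i : ℕ))
        ≤ ∑ n ∈ N, (1 : ℝ) := by
          refine Finset.sum_le_sum fun n _ => ?_
          calc pj x w z j n * ∏ i : P, icR (R2 y z) (d i) (n + (i : ℕ)) ≤ 1 * 1 :=
                mul_le_mul (pj_bd _ _ _ _ _ hx).2 (hp1 n) (hp0 n) (by norm_num)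
            _ = 1 := one_mul 1
      _ = N.card := by simp

theorem CJ_zero (x w y z j : ℕ) (hyz : y ≤ z) (N : Finset ℕ) {P : Finset ℕ} (hP : P ⊆ Icc 1 y)
    (d : P → ℕ) (hd : ∀ i, d i = 0 ∨ Sf z (d i)) (hc : ¬ Cop d) : CJ x w y z j N d = 0 := by
  rw [Cop] at hc
  push Not at hc
  obtain ⟨i, i', h1, h2, h3, h4⟩ := hc
  obtain ⟨p, hp, h5, h6⟩ := Nat.Prime.not_coprime_iff_dvd.1 h4
  have hzp := ((hd i).resolve_left h2).2 p hp h5
  rw [CJ]
  refine Finset.sum_eq_zero fun n _ => ?_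
  by_cases hn : d i ∣ n + (i : ℕ)
  · have hn' : ¬ d i' ∣ n + (i' : ℕ) := by
      intro h7
      have h8 : p ∣ n + (i : ℕ) := h5.trans hn
      have h9 : p ∣ n + (i' : ℕ) := h6.trans h7
      have hi1 := mem_Icc.1 (hP i.2)
      have hj1 := mem_Icc.1 (hP i'.2)
      have hne : (i : ℕ) ≠ i' := fun h => h1 (Subtype.ext h)
      rcases lt_or_gt_of_ne hne with h | h
      · have h10 : p ∣ (n + (i' : ℕ)) - (n + (i : ℕ)) := Nat.dvd_sub h9 h8
        have h11 := Nat.le_of_dvd (by omega) h10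
        omega
      · have h10 : p ∣ (n + (i : ℕ)) - (n + (i' : ℕ)) := Nat.dvd_sub h8 h9
        have h11 := Nat.le_of_dvd (by omega) h10
        omega
    have h12 : icR (R2 y z) (d i') (n + (i' : ℕ)) = 0 := by
      rw [icR, if_neg h3, if_neg (fun h => hn' h.1)]
    rw [Finset.prod_eq_zero (Finset.mem_univ i') h12, mul_zero]
  · have h12 : icR (R2 y z) (d i) (n + (i : ℕ)) = 0 := by
      rw [icR, if_neg h2, if_neg (fun h => hn h.1)]
    rw [Finset.prod_eq_zero (Finset.mem_univ i) h12, mul_zero]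

/-- the bound of `StmtRT` in our range -/
theorem rt_num (A n x z E : ℕ) (l L w : ℝ) (hL : Real.exp L = x) (hl : Real.exp l = z)
    (hE : 2000 ≤ E) (hl0 : 2000 ≤ l) (hEl : (E : ℝ) * l ≤ L) (hw : Real.exp w = L)
    (hn : (n : ℝ) * (1 + w) ≤ 1 / 100 * l) :
    Real.log ((32 * x : ℕ) : ℝ) ^ n * (1 / (z : ℝ) + (((32 * x : ℕ) : ℝ)) ^ (-(1 / 50) : ℝ)) ≤
      1 / √(z : ℝ) := by
  have hE' : (2000 : ℝ) ≤ E := by exact_mod_cast hE
  have h1 : 2000 * l ≤ (E : ℝ) * l := mul_le_mul_of_nonneg_right hE' (by linarith)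
  have hx0 : (0 : ℝ) < x := by rw [← hL]; exact Real.exp_pos _
  have hz0 : (0 : ℝ) < z := by rw [← hl]; exact Real.exp_pos _
  have h32 : Real.log ((32 * x : ℕ) : ℝ) = Real.log 32 + L := by
    push_cast
    rw [Real.log_mul (by norm_num) hx0.ne', ← hL, Real.log_exp]
  have h32' : Real.log 32 ≤ 4 := by
    rw [show (32 : ℝ) = 2 ^ 5 by norm_num, Real.log_pow]
    have := Real.log_two_lt_d9
    push_cast
    linarith
  have h320 : 0 ≤ Real.log 32 := Real.log_nonneg (by norm_num)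
  have h2 : Real.log ((32 * x : ℕ) : ℝ) ≤ Real.exp (1 + w) := by
    rw [h32, Real.exp_add, hw]
    have h3 : (2 : ℝ) ≤ Real.exp 1 := by
      have := Real.add_one_le_exp (1 : ℝ)
      linarith
    have h4 : 2 * L ≤ Real.exp 1 * L := mul_le_mul_of_nonneg_right h3 (by linarith)
    linarith
  have h3 : Real.log ((32 * x : ℕ) : ℝ) ^ n ≤ Real.exp (1 / 100 * l) := by
    calc Real.log ((32 * x : ℕ) : ℝ) ^ n ≤ Real.exp (1 + w) ^ n :=
          pow_le_pow_left₀ (by rw [h32]; linarith) h2 n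
      _ = Real.exp (n * (1 + w)) := (Real.exp_nat_mul _ _).symm
      _ ≤ _ := Real.exp_le_exp.2 hn
  have h4 : (((32 * x : ℕ) : ℝ)) ^ (-(1 / 50) : ℝ) ≤ Real.exp (-l) := by
    have h5 : (0 : ℝ) < ((32 * x : ℕ) : ℝ) := by push_cast; positivity
    rw [Real.rpow_def_of_pos h5, h32]
    apply Real.exp_le_exp.2
    linarith
  have h5 : 1 / (z : ℝ) = Real.exp (-l) := by rw [← hl, Real.exp_neg, one_div]
  have h6 : √(z : ℝ) = Real.exp (l / 2) := by
    rw [← hl, show l = l / 2 + l / 2 by ring, Real.exp_add, Real.sqrt_mul_self (Real.exp_pos _).le]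
    ring_nf
  have h7 : 1 / Real.exp (l / 2) = Real.exp (-(l / 2)) := by rw [Real.exp_neg, one_div]
  rw [h5, h6, h7]
  calc Real.log ((32 * x : ℕ) : ℝ) ^ n * (Real.exp (-l) + (((32 * x : ℕ) : ℝ)) ^ (-(1 / 50) : ℝ))
      ≤ Real.exp (1 / 100 * l) * (Real.exp (-l) + Real.exp (-l)) :=
        mul_le_mul h3 (by linarith) (by positivity) (Real.exp_pos _).le
    _ = 2 * (Real.exp (1 / 100 * l) * Real.exp (-l)) := by ring
    _ ≤ Real.exp 1 * (Real.exp (1 / 100 * l) * Real.exp (-l)) := by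
        have h3 : (2 : ℝ) ≤ Real.exp 1 := by
          have := Real.add_one_le_exp (1 : ℝ)
          linarith
        exact mul_le_mul_of_nonneg_right h3 (by positivity)
    _ = Real.exp (1 + (1 / 100 * l + -l)) := by rw [Real.exp_add, Real.exp_add]
    _ ≤ _ := Real.exp_le_exp.2 (by linarith)

theorem er : StmtEB2 → StmtRT → StmtER2 := by
  intro h1 h2 C hC
  obtain ⟨c1, hc1, E1, hEB⟩ := h1
  obtain ⟨AR, xR, hRT⟩ := h2
  obtain ⟨E3, hBM⟩ := Pool.Agent.Helper57.TU.bm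
  obtain ⟨c2, hc2, hom⟩ := om_lower
  obtain ⟨E4, hsz⟩ := size
  obtain ⟨cA, CA, hcA, hCA, hMA⟩ := Pool.Agent.Helper24.PP.ma
  have ha3 : (3 : ℝ) ≤ 3 * C ^ 2 := by nlinarith
  have ha1 : (1 : ℝ) ≤ 3 * C ^ 2 := by linarith
  have ha0 : (0 : ℝ) < 3 * C ^ 2 := by linarith
  have hla : 0 ≤ Real.log (3 * C ^ 2) := Real.log_nonneg ha1
  set M : ℝ := 2 + Real.log (3 * C ^ 2) + 3 * |Real.log c2| with hM
  have habs := abs_nonneg (Real.log c2)
  have hle_abs := le_abs_self (Real.log c2)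
  have hM0 : 0 ≤ M := by positivity
  obtain ⟨E5, hpow⟩ := size_pow (2 * (M + 5)) (1 / 100) (by norm_num)
  obtain ⟨E8, hpow2⟩ := size_pow (3 * (AR + 1)) (1 / 100) (by norm_num)
  obtain ⟨E6, hggs⟩ := size_gg (1 / 200) (by norm_num)
  have hB1 : 1 ≤ 3 * C ^ 2 * CA ^ 3 + 1 := by
    have : 0 ≤ 3 * C ^ 2 * CA ^ 3 := by positivity
    linarith
  obtain ⟨E7, hthrK⟩ := thrK c1 (3 * C ^ 2 * CA ^ 3 + 1) hc1 hB1
  set c0 : ℝ := min (c1 / 4) (1 / 100) with hc0def
  have hc0 : 0 < c0 := lt_min (by positivity) (by norm_num)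
  have hcc : c0 ≤ c1 / 4 := min_le_left _ _
  have hc5 : c0 ≤ 1 / 100 := min_le_right _ _
  refine ⟨c0, hc0, max (max (max E1 xR) (max E3 E4)) (max (max E5 E6) (max E7 (max E8 2000))),
    fun E z x y hE hSu Q b hIq K hK P hPo j hjP hSep => ?_⟩
  have hE1 : E1 ≤ E := by omega
  have hE2 : xR ≤ E := by omega
  have hE8 : E8 ≤ E := by omega
  have hE3 : E3 ≤ E := by omega
  have hE4 : E4 ≤ E := by omega
  have hE5 : E5 ≤ E := by omega
  have hE6 : E6 ≤ E := by omega
  have hE7 : E7 ≤ E := by omega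
  have h2000 : 2000 ≤ E := by omega
  obtain ⟨hl, hX, z3, z4, z5, z6, z7, z8, hyz, z10, hzx, z12, hw1, -⟩ := hsz E z x y hE4 hSu
  obtain ⟨hz1, hx1, hx2, hy1, hy2⟩ := id hSu
  have hp := hpow E z x y hE5 hSu
  have hp2 := hpow2 E z x y hE8 hSu
  obtain ⟨hoe1, hggk⟩ := hggs E z x y hE6 hSu
  obtain ⟨hb, hpQ', hQ20⟩ := id hIq
  have hP : P ⊆ Icc 1 y := by
    intro i hi
    have := hSep.1 i (mem_insert_of_mem hi)
    exact mem_Icc.2 ⟨this.1, by omega⟩
  have hE' : (2000 : ℝ) ≤ E := by exact_mod_cast h2000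
  set l := Real.log (z : ℝ) with hldef
  set L := Real.log (x : ℝ) with hLdef
  set w := Real.log L with hwdef
  set Dm := z ^ (2 * (E / 16)) with hDmdef
  set X := XQ x Q with hXdef
  set σ := ∑ p ∈ pr y z, 1 / (p : ℝ) with hσdef
  have hw0 : 0 ≤ w := by linarith
  have hQ0 : 0 < Q := by omega
  have hQ0' : (0 : ℝ) < Q := by exact_mod_cast hQ0
  have hz0 : (0 : ℝ) < z := lt_of_lt_of_le (Real.exp_pos _) hz1
  have hexpl : Real.exp l = z := Real.exp_log hz0
  have hx0' : 0 < x := by omega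
  have hxr0 : (0 : ℝ) < x := by exact_mod_cast hx0'
  have hexpL : Real.exp L = x := Real.exp_log hxr0
  have hzE : (E : ℝ) + 1 ≤ z := (Real.add_one_le_exp (E : ℝ)).trans hz1
  have hzE' : E + 1 ≤ z := by exact_mod_cast hzE
  have hEl : 2000 * l ≤ (E : ℝ) * l := mul_le_mul_of_nonneg_right hE' (by linarith)
  have hEE : (E : ℝ) * E ≤ E * l := mul_le_mul_of_nonneg_left hl (by linarith)
  have hEE2 : 2000 * (E : ℝ) ≤ E * E := mul_le_mul_of_nonneg_right hE' (by linarith)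
  have hL1 : 1 < L := by linarith
  have hwexp : Real.exp w = L := Real.exp_log (by linarith)
  have hx2' : 2 ≤ x := by omega
  have hy0 : 1 ≤ y := by omega
  have hyw : (y : ℝ) ≤ Real.exp (2 * w) := by
    refine hy2.trans (le_of_eq ?_)
    rw [show Real.exp (2 * w) = Real.exp w ^ 2 by rw [← Real.exp_nat_mul]; norm_num, hwexp]
  have hQle : (Q : ℝ) ≤ Real.exp (5 / 100 * L) := by
    rw [← Real.log_le_iff_le_exp hQ0']
    have h2 : Real.log ((Q : ℝ) ^ 20) ≤ L :=
      Real.log_le_log (by positivity) (by exact_mod_cast hQ20)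
    rw [Real.log_pow] at h2
    push_cast at h2
    linarith
  -- the sizes
  have hzpow : ∀ n : ℕ, ((z ^ n : ℕ) : ℝ) = Real.exp (n * l) := by
    intro n
    rw [Real.exp_nat_mul, hexpl]
    push_cast
    rfl
  have hDmle : (Dm : ℝ) ≤ Real.exp (1 / 8 * (E * l)) := by
    rw [hDmdef, hzpow]
    apply Real.exp_le_exp.2
    have h3 : ((2 * (E / 16) : ℕ) : ℝ) ≤ (E : ℝ) / 8 := by
      have h4 : 8 * (2 * (E / 16)) ≤ E := by omega
      have h5 : (8 : ℝ) * ((2 * (E / 16) : ℕ) : ℝ) ≤ E := by exact_mod_cast h4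
      linarith
    have := mul_le_mul_of_nonneg_right h3 (show 0 ≤ l by linarith)
    linarith
  have hzr : ((z ^ (E / 32) : ℕ) : ℝ) ≤ Real.exp (1 / 32 * (E * l)) := by
    rw [hzpow]
    apply Real.exp_le_exp.2
    have h3 : ((E / 32 : ℕ) : ℝ) ≤ (E : ℝ) / 32 := Nat.cast_div_le
    have := mul_le_mul_of_nonneg_right h3 (show 0 ≤ l by linarith)
    linarith
  have hDmx : Dm ≤ x := by
    have h3 : (Dm : ℝ) ≤ x := by
      rw [← hexpL]
      exact hDmle.trans (Real.exp_le_exp.2 (by linarith))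
    exact_mod_cast h3
  have hDm2 : 2 ≤ Dm := by
    rw [hDmdef]
    exact le_trans (by omega) (Nat.le_self_pow (by omega) z)
  -- the sum of the reciprocals of the primes
  have hsig : ∀ u v : ℕ, 2 ≤ v → v ≤ x → ∑ p ∈ pr u v, 1 / (p : ℝ) ≤ Real.log c2 + w := by
    intro u v hv hvx
    have h3 := (hom u v hv).1
    have hlv : 0 < Real.log v := Real.log_pos (by exact_mod_cast hv)
    have hlvL : Real.log v ≤ L := Real.log_le_log (by exact_mod_cast (by omega : 0 < v))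
      (by exact_mod_cast hvx)
    have h4 : Real.exp (-(Real.log c2 + w)) ≤ om u v := by
      rw [Real.exp_neg, Real.exp_add, Real.exp_log hc2, hwexp]
      refine le_trans ?_ h3
      rw [← one_div]
      apply one_div_le_one_div_of_le (by positivity)
      exact mul_le_mul_of_nonneg_left hlvL hc2.le
    have h5 := Real.exp_le_exp.1 (h4.trans (sum_pr_le u v))
    linarith
  have hσ : σ ≤ Real.log c2 + w := hsig y z (by omega) hzx
  have hσ0 : 0 ≤ σ := Finset.sum_nonneg fun p _ => by positivity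
  have hK0 : (0 : ℝ) ≤ K := Nat.cast_nonneg _
  have hK1 : (2 * K + 2) ^ 2 ≤ E := by
    rcases le_or_gt K 9 with h | h
    · have : (2 * K + 2) ^ 2 ≤ (2 * 9 + 2) ^ 2 := Nat.pow_le_pow_left (by omega) 2
      omega
    · calc (2 * K + 2) ^ 2 ≤ (3 * K) ^ 2 := Nat.pow_le_pow_left (by omega) 2
        _ = 9 * K ^ 2 := by ring
        _ ≤ K * K ^ 2 := Nat.mul_le_mul_right _ (by omega)
        _ = K ^ 3 := by ring
        _ ≤ E := hK
  have hKsq : (K : ℝ) ≤ √(E : ℝ) := by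
    apply Real.le_sqrt_of_sq_le
    have : K ^ 2 ≤ E := (Nat.pow_le_pow_left (by omega) 2).trans hK1
    exact_mod_cast this
  have hthr' : ∀ k : ℝ, 0 ≤ k → k ≤ K → 2 * ((k + 1) * (M + 5 * w)) ≤ 1 / 100 * l := by
    intro k hk0 hkK
    refine le_trans ?_ hp
    have e1 : M + 5 * w ≤ (M + 5) * (1 + w) := by
      have e2 := mul_nonneg hM0 hw0
      have e3 : (M + 5) * (1 + w) = M + 5 * w + M * w + 5 := by ring
      rw [e3]
      linarith
    calc 2 * ((k + 1) * (M + 5 * w)) ≤ 2 * ((1 + √(E : ℝ)) * ((M + 5) * (1 + w))) := by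
          apply mul_le_mul_of_nonneg_left _ (by norm_num)
          apply mul_le_mul (by linarith) e1 (by positivity) (by positivity)
      _ = _ := by ring
  have hthr : ∀ k : ℝ, 0 ≤ k → k ≤ K → (k + 1) * (M + 5 * w) ≤ 1 / 100 * l := by
    intro k hk0 hkK
    have e1 := hthr' k hk0 hkK
    have e2 : 0 ≤ (k + 1) * (M + 5 * w) := by positivity
    linarith
  have hthrK2 := hthr K hK0 le_rfl
  have hthr0 := hthr 0 le_rfl hK0
  have hKσ : ((2 * K + 1 : ℕ) : ℝ) * σ ≤ 1 / 100 * l := by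
    refine le_trans ?_ (hthr' K hK0 le_rfl)
    calc ((2 * K + 1 : ℕ) : ℝ) * σ ≤ ((2 * K + 1 : ℕ) : ℝ) * (Real.log c2 + w) :=
          mul_le_mul_of_nonneg_left hσ (Nat.cast_nonneg _)
      _ ≤ (2 * ((K : ℝ) + 1)) * (M + 5 * w) := by
          push_cast
          apply mul_le_mul (by linarith) (by rw [hM]; linarith) _ (by positivity)
          linarith
      _ = _ := by ring
  -- the sum over all labels
  have hcardP : Fintype.card P ≤ y := by
    rw [Fintype.card_coe]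
    exact (card_le_card hP).trans (by simp)
  set S := ∑ d ∈ (DS z Dm K : Finset (P → ℕ)), ∏ i, hh (3 * C ^ 2) (d i) with hSdef
  have hS0 : 0 ≤ S := Finset.sum_nonneg fun d _ => Finset.prod_nonneg fun i _ => hh_nonneg ha0.le _
  have hSle : S ≤ Real.exp (1 / 100 * l) := by
    set σ' := ∑ p ∈ pr z Dm, 1 / (p : ℝ) with hσ'
    have hσ'le : σ' ≤ Real.log c2 + w := hsig z Dm hDm2 hDmx
    have hσ'0 : 0 ≤ σ' := Finset.sum_nonneg fun p _ => by positivity
    have h3 : ∑ m ∈ SS z (Dm + 1), (3 * C ^ 2) * 3 ^ m.primeFactors.card / (m : ℝ) ≤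
        (3 * C ^ 2) * Real.exp (3 * σ') := by
      refine le_trans (le_of_eq ?_) (mul_le_mul_of_nonneg_left (H_le z Dm) ha0.le)
      rw [Finset.mul_sum]
      exact Finset.sum_congr rfl fun m _ => by ring
    have h4 : 1 ≤ (3 * C ^ 2) * Real.exp (3 * σ') := by
      have h5 : 1 ≤ Real.exp (3 * σ') := Real.one_le_exp (by positivity)
      calc (1 : ℝ) = 1 * 1 := (one_mul 1).symm
        _ ≤ _ := mul_le_mul ha1 h5 (by norm_num) ha0.le
    have h5 := S_le (ι := P) z Dm K y (3 * C ^ 2) ((3 * C ^ 2) * Real.exp (3 * σ')) ha0.le hcardP hy0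
      h4 h3
    refine h5.trans ?_
    have h6 : (y : ℝ) * ((3 * C ^ 2) * Real.exp (3 * σ')) ≤
        Real.exp (2 * w + (Real.log (3 * C ^ 2) + 3 * (Real.log c2 + w))) := by
      rw [Real.exp_add, Real.exp_add, Real.exp_log ha0]
      gcongr
    calc Real.exp 1 * ((y : ℝ) * ((3 * C ^ 2) * Real.exp (3 * σ'))) ^ K
        ≤ Real.exp 1 * (Real.exp (2 * w + (Real.log (3 * C ^ 2) + 3 * (Real.log c2 + w)))) ^ K := by
          gcongr
      _ = Real.exp (1 + K * (2 * w + (Real.log (3 * C ^ 2) + 3 * (Real.log c2 + w)))) := by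
          rw [Real.exp_add 1, Real.exp_nat_mul]
      _ ≤ Real.exp (1 / 100 * l) := by
          apply Real.exp_le_exp.2
          refine le_trans ?_ hthrK2
          have h7 : (K : ℝ) * (2 * w + (Real.log (3 * C ^ 2) + 3 * (Real.log c2 + w))) ≤
              K * (M + 5 * w) := by
            apply mul_le_mul_of_nonneg_left _ hK0
            rw [hM]
            linarith
          have h8 : 1 ≤ M + 5 * w := by
            rw [hM]
            linarith
          calc _ ≤ (M + 5 * w) + K * (M + 5 * w) := add_le_add h8 h7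
            _ = _ := by ring
  have hWle : ((Fintype.card P + 1 : ℕ) : ℝ) ^ K * (3 * C ^ 2) ^ K ≤ Real.exp (1 / 100 * l) := by
    have h3 : ((Fintype.card P + 1 : ℕ) : ℝ) * (3 * C ^ 2) ≤
        Real.exp (1 + 2 * w + Real.log (3 * C ^ 2)) := by
      rw [Real.exp_add, Real.exp_log ha0]
      apply mul_le_mul_of_nonneg_right _ ha0.le
      have h4 : ((Fintype.card P + 1 : ℕ) : ℝ) ≤ y + 1 := by
        exact_mod_cast Nat.succ_le_succ hcardP
      have h5 : (1 : ℝ) ≤ Real.exp (2 * w) := Real.one_le_exp (by positivity)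
      have h6 : (2 : ℝ) ≤ Real.exp 1 := by
        have := Real.add_one_le_exp (1 : ℝ)
        linarith
      calc ((Fintype.card P + 1 : ℕ) : ℝ) ≤ y + 1 := h4
        _ ≤ Real.exp (2 * w) + Real.exp (2 * w) := add_le_add hyw h5
        _ = 2 * Real.exp (2 * w) := by ring
        _ ≤ Real.exp 1 * Real.exp (2 * w) := mul_le_mul_of_nonneg_right h6 (Real.exp_pos _).le
        _ = _ := (Real.exp_add _ _).symm
    rw [← mul_pow]
    calc (((Fintype.card P + 1 : ℕ) : ℝ) * (3 * C ^ 2)) ^ K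
        ≤ (Real.exp (1 + 2 * w + Real.log (3 * C ^ 2))) ^ K :=
          pow_le_pow_left₀ (by positivity) h3 K
      _ = Real.exp (K * (1 + 2 * w + Real.log (3 * C ^ 2))) := (Real.exp_nat_mul _ _).symm
      _ ≤ Real.exp (1 / 100 * l) := by
          apply Real.exp_le_exp.2
          refine le_trans ?_ hthrK2
          apply mul_le_mul (by linarith) _ (by positivity) (by linarith)
          rw [hM]
          linarith
  -- the sum over the labels with the factor `om`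
  set o := om y z ^ 2 with hodef
  have hoe : Real.exp (-(1 / 100 * l)) ≤ o := by
    rw [hodef]
    calc Real.exp (-(1 / 100 * l)) = Real.exp (-(1 / 200 * l)) ^ 2 := by
          rw [← Real.exp_nat_mul]
          congr 1
          push_cast
          ring
      _ ≤ _ := pow_le_pow_left₀ (Real.exp_pos _).le hoe1 2
  have ho0 : 0 ≤ o := (Real.exp_pos _).le.trans hoe
  set S' := ∑ d ∈ (DS z Dm K : Finset (P → ℕ)), ∏ i, hh (3 * C ^ 2 * o) (d i) with hS'def
  have hS'0 : 0 ≤ S' := Finset.sum_nonneg fun d _ => Finset.prod_nonneg fun i _ =>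
    hh_nonneg (by positivity) _
  have hE0 : (0 : ℝ) < E := by linarith
  have hS'le : 4 * S' ≤ Real.exp (c1 / 2 * E) := by
    have g1 : SS z (Dm + 1) ⊆ SS z (z ^ (2 * (E / 16) + 1)) := by
      intro m hm
      obtain ⟨m1, m2, m3⟩ := mem_SS.1 hm
      refine mem_SS.2 ⟨m1, lt_of_lt_of_le m2 ?_, m3⟩
      rw [hDmdef, pow_succ]
      have : 1 ≤ z ^ (2 * (E / 16)) := Nat.one_le_pow _ _ (by omega)
      calc z ^ (2 * (E / 16)) + 1 ≤ z ^ (2 * (E / 16)) * 2 := by omega
        _ ≤ z ^ (2 * (E / 16)) * z := Nat.mul_le_mul_left _ (by omega)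
    have g2 := (hMA z (2 * (E / 16) + 1) (by omega) (by omega)).2.2
    have g3 : ((2 * (E / 16) + 1 : ℕ) : ℝ) ≤ E := by
      have : 2 * (E / 16) + 1 ≤ E := by omega
      exact_mod_cast this
    have g4 : ∑ m ∈ SS z (Dm + 1), (3 * C ^ 2 * o) * 3 ^ m.primeFactors.card / (m : ℝ) ≤
        (3 * C ^ 2 * o) * (CA * E) ^ 3 := by
      calc ∑ m ∈ SS z (Dm + 1), (3 * C ^ 2 * o) * 3 ^ m.primeFactors.card / (m : ℝ)
          = (3 * C ^ 2 * o) * ∑ m ∈ SS z (Dm + 1), (3 : ℝ) ^ m.primeFactors.card / (m : ℝ) := by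
            rw [Finset.mul_sum]
            exact Finset.sum_congr rfl fun m _ => by ring
        _ ≤ (3 * C ^ 2 * o) * ∑ m ∈ SS z (z ^ (2 * (E / 16) + 1)),
              (3 : ℝ) ^ m.primeFactors.card / (m : ℝ) := by
            apply mul_le_mul_of_nonneg_left _ (by positivity)
            exact Finset.sum_le_sum_of_subset_of_nonneg g1 fun m _ _ => by positivity
        _ ≤ (3 * C ^ 2 * o) * (CA * ((2 * (E / 16) + 1 : ℕ) : ℝ)) ^ 3 :=
            mul_le_mul_of_nonneg_left g2 (by positivity)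
        _ ≤ _ := by gcongr
    have g5 : (Fintype.card P : ℝ) * ((3 * C ^ 2 * o) * (CA * E) ^ 3) ≤
        (E : ℝ) ^ 2 * (3 * C ^ 2 * (CA * E) ^ 3) + 1 := by
      rw [Fintype.card_coe]
      have : (P.card : ℝ) * ((3 * C ^ 2 * o) * (CA * E) ^ 3) =
          (P.card * o) * (3 * C ^ 2 * (CA * E) ^ 3) := by ring
      rw [this]
      have h5 : (P.card * o) * (3 * C ^ 2 * (CA * E) ^ 3) ≤
          (E : ℝ) ^ 2 * (3 * C ^ 2 * (CA * E) ^ 3) :=
        mul_le_mul_of_nonneg_right hPo (by positivity)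
      linarith
    have g6 : 1 ≤ (E : ℝ) ^ 2 * (3 * C ^ 2 * (CA * E) ^ 3) + 1 := by
      have : 0 ≤ (E : ℝ) ^ 2 * (3 * C ^ 2 * (CA * E) ^ 3) := by positivity
      linarith
    have g7 := S_le2 (ι := P) z Dm K (3 * C ^ 2 * o) ((3 * C ^ 2 * o) * (CA * E) ^ 3)
      ((E : ℝ) ^ 2 * (3 * C ^ 2 * (CA * E) ^ 3) + 1) (by positivity) g6 g5 g4
    have g8 : (E : ℝ) ^ 2 * (3 * C ^ 2 * (CA * E) ^ 3) + 1 ≤
        (3 * C ^ 2 * CA ^ 3 + 1) * (E : ℝ) ^ 5 := by
      have g0 : (1 : ℝ) ≤ (E : ℝ) ^ 5 := one_le_pow₀ (by linarith)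
      calc (E : ℝ) ^ 2 * (3 * C ^ 2 * (CA * E) ^ 3) + 1
          ≤ (E : ℝ) ^ 2 * (3 * C ^ 2 * (CA * E) ^ 3) + (E : ℝ) ^ 5 := by linarith
        _ = _ := by ring
    have g9 := hthrK E hE7 _ g6 g8 K hK
    linarith
  -- the number of integers
  have hXeq : X = 31 * ((x : ℝ) / Q) := by
    rw [hXdef, XQ, XI, show 32 * x - x = 31 * x by omega]
    push_cast
    ring
  have hxQ : ((32 * x : ℕ) : ℝ) / Q ≤ 2 * X := by
    rw [hXeq]
    push_cast
    have : 0 ≤ (x : ℝ) / Q := by positivity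
    rw [mul_div_assoc]
    linarith
  have hEl0 : 0 ≤ (E : ℝ) * l := mul_nonneg hE0.le (by linarith)
  have hX1 : 1 ≤ X := by
    have h4 : (1 : ℝ) ≤ (x : ℝ) / Q := by
      rw [le_div_iff₀ hQ0']
      calc 1 * (Q : ℝ) ≤ Real.exp (5 / 100 * L) := by
            rw [one_mul]
            exact hQle
        _ ≤ Real.exp L := Real.exp_le_exp.2 (by linarith)
        _ = x := hexpL
    linarith
  have hX0 : 0 ≤ X := by linarith
  have hcard : ((NQ x Q b).card : ℝ) ≤ 2 * X := by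
    have := NI_card x (32 * x) Q b hb (by omega)
    rw [hXdef] at hX1 ⊢
    unfold XQ NQ at *
    linarith
  have hsg : ∀ d : P → ℕ, 0 ≤ CJ x y y z j (NQ x Q b) d ∧
      CJ x y y z j (NQ x Q b) d ≤ 2 * X := fun d => by
    obtain ⟨h3, h4⟩ := CJ_bd x y y z j hx0' (NQ x Q b) d
    exact ⟨h3, h4.trans hcard⟩
  have hpQ : ∀ p : ℕ, p.Prime → p ∣ Q → p ≤ z := fun p hp hpd =>
    (hpQ' p hp hpd).trans hyz
  obtain ⟨-, -, -, hAA, -⟩ := hBM E y z 0 hE3 hz1 z6 hyz (by omega)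
  -- split
  rw [← Finset.sum_filter_add_sum_filter_not (DS z Dm K : Finset (P → ℕ)) (fun d => Cop d)]
  have hcop := cop_sum (32 * x) y z K Dm E P (fun d => CJ x y y z j (NQ x Q b) d) (3 * C ^ 2) X
    (1 / √(z : ℝ)) ((32 * x : ℕ) : ℝ) (Real.exp (-(c1 * E))) o ha1 hX0 (by omega) (by omega) hDmdef
    hsg (Nat.cast_nonneg _) Q hQ0 (Real.exp_pos _).le ho0
    (fun k hk => by
      have h3 := (hggk (2 * k + 2)
        ((Nat.pow_le_pow_left (by omega : 2 * k + 2 ≤ 2 * K + 2) 2).trans hK1)).2.1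
      refine h3.trans (le_of_eq ?_)
      rw [hodef, ← pow_mul]
      congr 1)
    (by
      intro d hd hcd
      obtain ⟨hm1, hm2, hm3⟩ := mem_DS.1 hd
      exact hEB E z x y hE1 hSu Q b hIq P j hjP hSep d
        (fun i => (hm1 i).imp_right fun h => h.2.2) (fun i i' h1 h2 h3 => hcd i i' h1 h2 h3) hm2
        ((Nat.pow_le_pow_left (by omega : 2 * nz d + 2 ≤ 2 * K + 2) 2).trans hK1))
    (by
      intro A hA f hf
      have hAs : A ⊆ pr y z := mem_powerset.1 (mem_filter.1 hA).1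
      have hprodA : ∏ p ∈ A, p ≤ z ^ (E / 32) := hAA A hA
      have hA0 : 0 < ∏ p ∈ A, p := Finset.prod_pos fun p hp => (mem_pr.1 (hAs hp)).2.2.pos
      have key := hRT (32 * x) (Q * ∏ p ∈ A, p) z Dm (3 * K + 1) (by
          have : E ≤ z := by omega
          omega) (Nat.mul_pos hQ0 hA0) (by omega) ?_ (by omega) ?_ f hf
      · have hk0 : (0 : ℝ) ≤ ((32 * x : ℕ) : ℝ) / ((Q * ∏ p ∈ A, p : ℕ) : ℝ) := by positivity
        have hnum := rt_num AR (AR * (3 * K + 1 + 1)) x z E l L w hexpL hexpl h2000 (by linarith) hX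
          hwexp (by
            refine le_trans ?_ hp2
            have e1 : ((AR * (3 * K + 1 + 1) : ℕ) : ℝ) ≤ 3 * (AR + 1) * (1 + √(E : ℝ)) := by
              push_cast
              have e2 : (AR : ℝ) * (3 * K + 1 + 1) ≤ AR * (3 * (1 + √(E : ℝ))) :=
                mul_le_mul_of_nonneg_left (by linarith) (Nat.cast_nonneg _)
              have e3 : 0 ≤ 1 + √(E : ℝ) := by positivity
              calc (AR : ℝ) * (3 * K + 1 + 1) ≤ AR * (3 * (1 + √(E : ℝ))) := e2
                _ ≤ (AR + 1) * (3 * (1 + √(E : ℝ))) :=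
                    mul_le_mul_of_nonneg_right (by linarith) (by positivity)
                _ = _ := by ring
            exact mul_le_mul_of_nonneg_right e1 (by linarith))
        calc ∑ D ∈ SS z (Dm + 1), ((3 * K : ℕ) : ℝ) ^ D.primeFactors.card *
              |th (32 * x) (Q * (∏ p ∈ A, p) * D) (f D) -
                th (32 * x) (Q * ∏ p ∈ A, p) (f D) / (Nat.totient D : ℝ)|
            ≤ ∑ D ∈ SS z (Dm + 1), ((3 * K + 1 : ℕ) : ℝ) ^ D.primeFactors.card *
              |th (32 * x) (Q * (∏ p ∈ A, p) * D) (f D) -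
                th (32 * x) (Q * ∏ p ∈ A, p) (f D) / (Nat.totient D : ℝ)| := by
              refine Finset.sum_le_sum fun D _ => mul_le_mul_of_nonneg_right ?_ (abs_nonneg _)
              refine pow_le_pow_left₀ (Nat.cast_nonneg _) ?_ _
              exact_mod_cast Nat.le_succ _
          _ ≤ _ := key
          _ = (Real.log ((32 * x : ℕ) : ℝ) ^ (AR * (3 * K + 1 + 1)) *
                (1 / (z : ℝ) + (((32 * x : ℕ) : ℝ)) ^ (-(1 / 50) : ℝ))) *
                (((32 * x : ℕ) : ℝ) / ((Q * ∏ p ∈ A, p : ℕ) : ℝ)) := by ring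
          _ ≤ _ := mul_le_mul_of_nonneg_right hnum hk0
      · intro p hp hpd
        rcases (Nat.Prime.dvd_mul hp).1 hpd with h | h
        · exact hpQ p hp h
        · obtain ⟨q, hq, h3⟩ := (Nat.Prime.prime hp).exists_mem_finset_dvd h
          have h4 := mem_pr.1 (hAs hq)
          have h5 := Nat.le_of_dvd h4.2.2.pos h3
          omega
      · have h3 : ((Q : ℝ) * ((z ^ (E / 32) : ℕ) : ℝ) * ((Dm : ℕ) : ℝ)) ^ 4 ≤ x := by
          calc ((Q : ℝ) * ((z ^ (E / 32) : ℕ) : ℝ) * ((Dm : ℕ) : ℝ)) ^ 4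
              ≤ (Real.exp (5 / 100 * L) * Real.exp (1 / 32 * (E * l)) *
                Real.exp (1 / 8 * (E * l))) ^ 4 := by gcongr
            _ = Real.exp (((4 : ℕ) : ℝ) * (5 / 100 * L + 1 / 32 * (E * l) + 1 / 8 * (E * l))) := by
                rw [Real.exp_nat_mul, Real.exp_add, Real.exp_add]
            _ ≤ Real.exp L := Real.exp_le_exp.2 (by push_cast; linarith)
            _ = x := hexpL
        have h5 : (Q * z ^ (E / 32) * Dm) ^ 4 ≤ x := by exact_mod_cast h3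
        refine le_trans (Nat.pow_le_pow_left ?_ 4) (h5.trans (by omega))
        exact Nat.mul_le_mul_right _ (Nat.mul_le_mul_left _ hprodA)) (by positivity)
  have hnon : ∑ d ∈ (DS z Dm K : Finset (P → ℕ)).filter (fun d => ¬ Cop d),
      (∏ i, (if d i = 0 then 1 else 3 * C ^ 2 * 3 ^ (d i).primeFactors.card)) *
      |CJ x y y z j (NQ x Q b) d - CJ x y y z j (NQ x Q b) (fun i => sg (d i)) *
          ∏ i, (if d i = 0 then 1 else 1 / (d i : ℝ))| ≤
      2 * X * ((y : ℝ) ^ 2 * (9 / z) * S) := by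
    calc _ ≤ ∑ d ∈ (DS z Dm K : Finset (P → ℕ)).filter (fun d => ¬ Cop d),
          2 * X * ∏ i, hh (3 * C ^ 2) (d i) := by
          refine Finset.sum_le_sum fun d hd => ?_
          obtain ⟨hd1, hd2⟩ := mem_filter.1 hd
          obtain ⟨hm1, _, _⟩ := mem_DS.1 hd1
          rw [CJ_zero x y y z j hyz _ hP d (fun i => (hm1 i).imp_right fun h => h.2.2) hd2,
            inv_D, w_hh, zero_sub, abs_neg]
          have h3 : (0 : ℝ) ≤ 1 / ((∏ i, max 1 (d i) : ℕ) : ℝ) := by positivity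
          rw [abs_of_nonneg (mul_nonneg (hsg _).1 h3)]
          have h4 : 0 ≤ ∏ i, (if d i = 0 then (1 : ℝ) else
              3 * C ^ 2 * 3 ^ (d i).primeFactors.card) := Finset.prod_nonneg fun i _ => by
            split_ifs
            · norm_num
            · positivity
          have h5 := mul_le_mul_of_nonneg_right (hsg (fun i => sg (d i))).2 h3
          have h6 := mul_le_mul_of_nonneg_left h5 h4
          refine h6.trans (le_of_eq ?_)
          ring
      _ = 2 * X * ∑ d ∈ (DS z Dm K : Finset (P → ℕ)).filter (fun d => ¬ Cop d),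
          ∏ i, hh (3 * C ^ 2) (d i) := by rw [← Finset.mul_sum]
      _ ≤ _ := by
          apply mul_le_mul_of_nonneg_left _ (by positivity)
          exact noncop_le z Dm K y (3 * C ^ 2) ha0.le (by omega) hcardP
  have hyy : (y : ℝ) ^ 2 ≤ Real.exp (1 / 100 * l) := by
    calc (y : ℝ) ^ 2 ≤ (Real.exp (2 * w)) ^ 2 := pow_le_pow_left₀ (Nat.cast_nonneg _) hyw 2
      _ = Real.exp (((2 : ℕ) : ℝ) * (2 * w)) := (Real.exp_nat_mul _ _).symm
      _ ≤ Real.exp (1 / 100 * l) := by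
          apply Real.exp_le_exp.2
          refine le_trans ?_ hthr0
          push_cast
          linarith
  have hEy : (E : ℝ) ≤ (y : ℝ) ^ 2 := by
    have h3 : E ≤ y ^ 2 := (Nat.le_self_pow two_ne_zero E).trans
      (z6.trans (Nat.le_self_pow two_ne_zero y))
    exact_mod_cast h3
  have hfin := fin_num E z c0 c1 l X (((32 * x : ℕ) : ℝ) / Q) S S'
    (((Fintype.card P + 1 : ℕ) : ℝ) ^ K * (3 * C ^ 2) ^ K)
    (Real.exp (((2 * K + 1 : ℕ) : ℝ) * σ)) ((y : ℝ) ^ 2) o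
    h2000 hcc hc5 hc0 hl hexpl hX0 (by positivity) hxQ hS0 hSle hS'le hWle
    (Real.exp_le_exp.2 hKσ) (Real.exp_pos _).le hyy hEy hoe
  exact le_trans (add_le_add hcop hnon) hfin

end Pool.Agent.Helper88.TW
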