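import Pool.Agent.Helper76.TW.Goals
import Pool.Agent.Helper51.TU.TL
import Pool.Agent.Helper10.TU.BH
import Pool.Agent.Helper57.TU.BM

/-! # Counting with the Brun-Hooley sieve (packet TLQ)

Adapted from `Pool/Agent/Helper51/TU/TL.lean`. -/

set_option autoImplicit false

open Finset Filter Topology

open scoped Classical

namespace Pool.Agent.Helper88.TW

open Pool.Agent.Helper88.TU (Su AA EF hit AX Ut size size_gg StmtBH StmtBM)
open Pool.Agent.Helper88.PP (pr Rg om Sf SS uu vv ee LA VV QQ XX cost)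
open Pool.Agent.Helper88.RR (gg)
open Pool.Agent.Helper88.GM (NI XI)
open Pool.Agent.Helper51.TU (hit_sub hit_empty FF count_hit sum_hit sum_pow_le final)
open Pool.Agent.Helper76.TW

/-- the number of the points is large -/
theorem XQ_lower (E z x Q : ℕ) (hz : 1 ≤ Real.log z) (hx : z ^ E ≤ x) (hQ0 : 0 < Q)
    (hQ : Q ^ 20 ≤ x) : Real.exp (95 / 100 * (E * Real.log z)) ≤ XQ x Q := by
  have hz0 : (0 : ℝ) < z := by
    by_contra hcon
    have h1 : (z : ℝ) = 0 := le_antisymm (not_lt.1 hcon) (Nat.cast_nonneg _)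
    rw [h1, Real.log_zero] at hz
    linarith
  have hxz : (z : ℝ) ^ E ≤ x := by exact_mod_cast hx
  have hx0 : (0 : ℝ) < x := lt_of_lt_of_le (by positivity) hxz
  have hX : (E : ℝ) * Real.log z ≤ Real.log x := by
    rw [← Real.log_pow]
    exact Real.log_le_log (by positivity) hxz
  have hQ' : (0 : ℝ) < Q := by exact_mod_cast hQ0
  have h1 : 20 * Real.log Q ≤ Real.log x := by
    have h2 : Real.log ((Q : ℝ) ^ 20) ≤ Real.log x :=
      Real.log_le_log (by positivity) (by exact_mod_cast hQ)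
    rw [Real.log_pow] at h2
    exact_mod_cast h2
  have h2 : XQ x Q = 31 * (x / Q) := by
    unfold XQ XI
    rw [show 32 * x - x = 31 * x by omega]
    push_cast
    ring
  have h3 : Real.exp (Real.log x - Real.log Q) = x / Q := by
    rw [Real.exp_sub, Real.exp_log hx0, Real.exp_log hQ']
  have h4 : Real.exp (95 / 100 * (E * Real.log z)) ≤ x / Q := by
    rw [← h3]
    apply Real.exp_le_exp.2
    linarith
  rw [h2]
  have h5 : 0 < (x : ℝ) / Q := by positivity
  linarith

theorem tl_aux (hBH : StmtBH) (hBM : StmtBM) : StmtTLQ := by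
  obtain ⟨E1, h1⟩ := hBM
  obtain ⟨E2, h2⟩ := size
  obtain ⟨E3, h3⟩ := size_gg (1 / 10) (by norm_num)
  refine ⟨1 / 2, by norm_num, max (max E1 E2) (max E3 2000), fun E z x y hE hSu Q b hIq B hBy
    hBk d hd hdD => ?_⟩
  have hE1 : E1 ≤ E := (le_max_left _ _).trans ((le_max_left _ _).trans hE)
  have hE2 : E2 ≤ E := (le_max_right _ _).trans ((le_max_left _ _).trans hE)
  have hE3 : E3 ≤ E := (le_max_left _ _).trans ((le_max_right _ _).trans hE)
  have hE4 : 2000 ≤ E := (le_max_right _ _).trans ((le_max_right _ _).trans hE)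
  obtain ⟨a1, a2, a3, a4, a5, a6, a7, a8, a9, a10, a11, a12, a13, a14⟩ := h2 E z x y hE2 hSu
  obtain ⟨-, h3'⟩ := h3 E z x y hE3 hSu
  obtain ⟨hg1, -, -⟩ := h3' B.card hBk
  obtain ⟨b1, b2, b3, b4, b5⟩ := hSu
  obtain ⟨hb, hpQ, hQx⟩ := hIq
  have hQ0 : 0 < Q := by omega
  have hE' : (2000 : ℝ) ≤ E := by exact_mod_cast hE4
  have hlogx : 0 ≤ Real.log x := by linarith [sq_nonneg (E : ℝ)]
  unfold NQ XQ
  constructor
  · intro hcc
    have hd0 : ∀ i ∈ B, 0 < d i := fun i hi => Nat.pos_of_ne_zero (hd i hi).1.ne_zero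
    have hc : ∀ i ∈ B, Nat.Coprime Q (d i) := by
      intro i hi
      by_contra hcon
      obtain ⟨p, hp, h1, h2⟩ := Nat.Prime.not_coprime_iff_dvd.1 hcon
      have h3 := hpQ p hp h1
      have h4 := (hd i hi).2 p hp h2
      omega
    have hq : ∀ p : ℕ, p.Prime → y < p → p ≤ z → ¬ p ∣ Q * ∏ i ∈ B, d i := by
      intro p hp hyp hpz hdv
      rcases (Nat.Prime.dvd_mul hp).1 hdv with h | h
      · have := hpQ p hp h
        omega
      · obtain ⟨i, hi, h2⟩ := (Nat.Prime.prime hp).exists_mem_finset_dvd h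
        have h4 := (hd i hi).2 p hp h2
        omega
    have huv : x ≤ 32 * x := by omega
    set k := B.card with hk
    have hky : k ≤ y := by
      have : k ≤ (Icc 1 y).card := card_le_card hBy
      simpa using this
    obtain ⟨c1, c2, c3, c4, c5⟩ := h1 E y z k hE1 b1 a6 a9 hBk
    set M := XI x (32 * x) Q / (∏ i ∈ B, (d i : ℝ)) with hMdef
    have hDpos : 0 < ∏ i ∈ B, (d i : ℝ) := Finset.prod_pos fun i hi => by exact_mod_cast hd0 i hi
    have hD : ∏ i ∈ B, (d i : ℝ) ≤ (z : ℝ) ^ (E / 4) := by exact_mod_cast hdD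
    have hz0 : (0 : ℝ) < z := by
      have : 64 ≤ z := a10
      have : (64 : ℝ) ≤ z := by exact_mod_cast this
      linarith
    have hM : 1 / 2 * Real.exp (65 / 100 * (E * Real.log z)) ≤ M := by
      have f1 := XQ_lower E z x Q (by linarith) b2 hQ0 hQx
      have f2 : (z : ℝ) ^ (E / 4) ≤ Real.exp (E * Real.log z / 4) := by
        have f3 : (z : ℝ) ^ (E / 4) = Real.exp (((E / 4 : ℕ) : ℝ) * Real.log z) := by
          rw [mul_comm, Real.exp_mul, Real.exp_log hz0, Real.rpow_natCast]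
        rw [f3]
        apply Real.exp_le_exp.2
        have f4 : ((E / 4 : ℕ) : ℝ) ≤ (E : ℝ) / 4 := Nat.cast_div_le
        have f5 := mul_le_mul_of_nonneg_right f4 (by linarith : 0 ≤ Real.log z)
        linarith
      rw [hMdef, le_div_iff₀ hDpos]
      have f3 : 0 ≤ (E : ℝ) * Real.log z := mul_nonneg (by linarith) (by linarith)
      calc 1 / 2 * Real.exp (65 / 100 * (E * Real.log z)) * ∏ i ∈ B, (d i : ℝ)
          ≤ 1 * Real.exp (65 / 100 * (E * Real.log z)) * Real.exp (E * Real.log z / 4) :=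
            mul_le_mul (mul_le_mul_of_nonneg_right (by norm_num) (Real.exp_pos _).le)
              (hD.trans f2) hDpos.le (by positivity)
        _ = Real.exp (65 / 100 * (E * Real.log z) + E * Real.log z / 4) := by
            rw [one_mul, Real.exp_add]
        _ ≤ Real.exp (95 / 100 * (E * Real.log z)) := Real.exp_le_exp.2 (by linarith)
        _ ≤ _ := f1
    have hM0 : 0 < M := lt_of_lt_of_le (by positivity) hM
    have hgoal : XI x (32 * x) Q * (gg y z k * ∏ i ∈ B, (1 / (d i : ℝ))) = M * gg y z k := by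
      rw [Finset.prod_div_distrib, Finset.prod_const_one, hMdef]
      ring
    rw [hgoal]
    set F := FF x (32 * x) Q b B d with hF
    have hcount : ∀ A : Finset ℕ, A ⊆ pr y z →
        |((F.filter (fun n => A ⊆ hit y z B n)).card : ℝ)
          - M * ∏ p ∈ A, ((k : ℝ) / p)| ≤ 2 * (k : ℝ) ^ A.card :=
      fun A hA => count_hit x (32 * x) Q y z b B d huv hb hd0 hc hcc hBy hq A hA
    have hAA : ∀ A ∈ AA E y z, A ⊆ pr y z := fun A hA => mem_powerset.1 (mem_filter.1 hA).1
    have hAX : ∀ t, ∀ A ∈ AX E y z t, A ⊆ pr y z :=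
      fun t A hA => mem_powerset.1 (mem_filter.1 hA).1
    have hBHn := fun n => hBH E y z (hit y z B n) (by omega) (hit_sub y z B n)
    set SU := ∑ n ∈ F, ∏ t ∈ range z, Ut E y z t (hit y z B n) with hSU
    set SE := ∑ n ∈ F, EF E y z (hit y z B n) with hSE
    have hcnt : (((NI x (32 * x) Q b).filter (fun n => ∀ i ∈ B, d i ∣ n + i ∧ Rg y z (n + i))).card : ℝ) =
        ∑ n ∈ F, (if hit y z B n = ∅ then (1 : ℝ) else 0) := by
      rw [← Finset.sum_filter, Finset.sum_const, nsmul_eq_mul, mul_one, hF, FF,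
        Finset.filter_filter]
      congr 2
      refine Finset.filter_congr fun n _ => ?_
      rw [hit_empty]
      exact ⟨fun h => ⟨fun i hi => (h i hi).1, fun i hi => (h i hi).2⟩,
        fun h i hi => ⟨h.1 i hi, h.2 i hi⟩⟩
    rw [hcnt]
    refine final E z M (gg y z k) _ SU SE hE4 a1 hM hg1 ?_ ?_ ?_ ?_
    · exact Finset.sum_le_sum fun n _ => (hBHn n).2.1
    · rw [hSU, hSE, ← Finset.sum_add_distrib]
      exact Finset.sum_le_sum fun n _ => (hBHn n).2.2.1
    · have e1 : SU = ∑ n ∈ F, ∑ A ∈ (AA E y z).filter (fun A => A ⊆ hit y z B n),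
          (-1 : ℝ) ^ A.card := Finset.sum_congr rfl fun n _ => (hBHn n).2.2.2.1
      have e2 := sum_hit F y z B M (AA E y z) (fun A hA => hcount A (hAA A hA))
      have e3 := sum_pow_le y z k (z ^ (E / 32)) hky (AA E y z) hAA c4
      rw [← e1, ← hk] at e2
      have e4 : |M * ∑ A ∈ AA E y z, (-1 : ℝ) ^ A.card * ∏ p ∈ A, ((k : ℝ) / p)
          - M * gg y z k| ≤ Real.exp (-(E : ℝ)) * (M * gg y z k) := by
        rw [← mul_sub, abs_mul, abs_of_pos hM0]
        have := mul_le_mul_of_nonneg_left c2 hM0.le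
        linarith
      have e5 := abs_sub_le SU
        (M * ∑ A ∈ AA E y z, (-1 : ℝ) ^ A.card * ∏ p ∈ A, ((k : ℝ) / p)) (M * gg y z k)
      linarith
    · have e1 : SE = -∑ t ∈ range z, ∑ n ∈ F,
          ∑ A ∈ (AX E y z t).filter (fun A => A ⊆ hit y z B n), (-1 : ℝ) ^ A.card := by
        rw [Finset.sum_comm, ← Finset.sum_neg_distrib]
        exact Finset.sum_congr rfl fun n _ => (hBHn n).2.2.2.2
      have e2 : ∀ t ∈ range z, -(2 * ((z ^ (E / 32) : ℕ) : ℝ) ^ 2) ≤
          ∑ n ∈ F, ∑ A ∈ (AX E y z t).filter (fun A => A ⊆ hit y z B n), (-1 : ℝ) ^ A.card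
          - M * ∑ A ∈ AX E y z t, (-1 : ℝ) ^ A.card * ∏ p ∈ A, ((k : ℝ) / p) := by
        intro t ht
        have f1 := sum_hit F y z B M (AX E y z t) (fun A hA => hcount A (hAX t A hA))
        have f2 := sum_pow_le y z k (z ^ (E / 32)) hky (AX E y z t) (hAX t)
          (c5 t (mem_range.1 ht))
        have f3 := (abs_le.1 f1).1
        rw [← hk] at f3
        linarith
      have e3 := Finset.sum_le_sum e2
      rw [Finset.sum_sub_distrib, Finset.sum_const, card_range, nsmul_eq_mul, ← Finset.mul_sum]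
        at e3
      have e4 := mul_le_mul_of_nonneg_left c3 hM0.le
      linarith
  · intro hcc
    push Not at hcc
    obtain ⟨i, hi, j, hj, hij, hcop⟩ := hcc
    obtain ⟨p, hp, h1, h2⟩ := Nat.Prime.not_coprime_iff_dvd.1 hcop
    have hzp := (hd i hi).2 p hp h1
    rw [Finset.card_eq_zero, Finset.filter_eq_empty_iff]
    intro n _ hn
    have h3 : p ∣ n + i := h1.trans (hn i hi).1
    have h4 : p ∣ n + j := h2.trans (hn j hj).1
    have hi1 := mem_Icc.1 (hBy hi)
    have hj1 := mem_Icc.1 (hBy hj)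
    rcases lt_or_gt_of_ne hij with h | h
    · have h5 : p ∣ (n + j) - (n + i) := Nat.dvd_sub h4 h3
      have h6 := Nat.le_of_dvd (by omega) h5
      omega
    · have h5 : p ∣ (n + i) - (n + j) := Nat.dvd_sub h3 h4
      have h6 := Nat.le_of_dvd (by omega) h5
      omega

theorem tlq : StmtTLQ := tl_aux Pool.Agent.Helper10.TU.bh Pool.Agent.Helper57.TU.bm

end Pool.Agent.Helper88.TW
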