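import Pool.Agent.Helper88.TW.LB
import Pool.Agent.Helper88.TW.TL

/-!
# Prime factors of `n + j + 2` in `(z, 4 z]` (packet EX2)
-/

set_option autoImplicit false

open Finset Filter Topology

open scoped Classical

namespace Pool.Agent.Helper88.TW

open Pool.Agent.Helper88.PP (pr Rg om Sf SS uu vv ee LA VV QQ cost)
open Pool.Agent.Helper88.RR (gg ab TB nz VM gg_nonneg)
open Pool.Agent.Helper88.GM (NI XI)
open Pool.Agent.Helper88.CG (tw pw th DS sg qE mE)
open Pool.Agent.Helper88.TU (Su size size_gg)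
open Pool.Agent.Helper76.TW

/-- Chebyshev -/
theorem recip_z4 (z : ℕ) (hz : 2 ≤ z) : ∑ p ∈ pr z (4 * z), 1 / (p : ℝ) ≤ 6 / Real.log z := by
  have hz2 : (2 : ℝ) ≤ z := by exact_mod_cast hz
  have hz0 : (0 : ℝ) < z := by linarith
  have hlz : 0 < Real.log z := Real.log_pos (by linarith)
  have h1 : (∑ p ∈ pr z (4 * z), 1 / (p : ℝ)) * (z * Real.log z) ≤
      ∑ p ∈ pr z (4 * z), Real.log p := by
    rw [Finset.sum_mul]
    refine Finset.sum_le_sum fun p hp => ?_
    unfold pr at hp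
    obtain ⟨hp1, hp2⟩ := Finset.mem_filter.1 hp
    have hzp : (z : ℝ) < p := by exact_mod_cast (Finset.mem_Ioc.1 hp1).1
    have hp0 : (0 : ℝ) < p := by linarith
    have h2 : Real.log z ≤ Real.log p := Real.log_le_log hz0 hzp.le
    have h3 : (z : ℝ) / p ≤ 1 := (div_le_one hp0).2 hzp.le
    calc 1 / (p : ℝ) * (z * Real.log z) = z / p * Real.log z := by ring
      _ ≤ 1 * Real.log p := mul_le_mul h3 h2 hlz.le (by norm_num)
      _ = _ := one_mul _
  have h2 : ∑ p ∈ pr z (4 * z), Real.log p ≤ Chebyshev.theta ((4 * z : ℕ) : ℝ) := by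
    unfold Chebyshev.theta
    rw [Nat.floor_natCast]
    unfold pr
    refine Finset.sum_le_sum_of_subset_of_nonneg ?_ fun p _ _ => Real.log_natCast_nonneg _
    refine Finset.filter_subset_filter _ fun p hp => ?_
    rw [Finset.mem_Ioc] at hp ⊢
    exact ⟨by omega, hp.2⟩
  have h3 : Chebyshev.theta ((4 * z : ℕ) : ℝ) ≤ Real.log 4 * ((4 * z : ℕ) : ℝ) :=
    Chebyshev.theta_le_log4_mul_x (Nat.cast_nonneg _)
  have h4 : Real.log 4 ≤ 3 / 2 := by
    rw [show (4 : ℝ) = 2 ^ 2 by norm_num, Real.log_pow]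
    have := Real.log_two_lt_d9
    push_cast
    linarith
  push_cast at h3
  rw [le_div_iff₀ hlz]
  have h5 : (∑ p ∈ pr z (4 * z), 1 / (p : ℝ)) * Real.log z * z ≤ 6 * z := by
    have h6 : Real.log 4 * (4 * (z : ℝ)) ≤ 3 / 2 * (4 * z) :=
      mul_le_mul_of_nonneg_right h4 (by positivity)
    push_cast at h1 h2
    linarith
  exact le_of_mul_le_mul_right h5 hz0

/-- the integers with a given prime factor of `n + j + 2` -/
theorem count_p (h : StmtTLQ) : ∃ E0 : ℕ, ∀ E z x y : ℕ, E0 ≤ E → Su E z x y →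
    ∀ Q b : ℕ, Iq x y Q b → ∀ j : ℕ, 1 ≤ j → j + 2 ≤ y → ∀ p : ℕ, p.Prime → z < p → p ≤ 4 * z →
    (((NQ x Q b).filter (fun n => R2 y z (n + j) ∧ p ∣ n + j + 2)).card : ℝ) ≤
      2 * (XQ x Q * om y z ^ 2 * (1 / (p : ℝ))) := by
  obtain ⟨c, hc, E1, h1⟩ := h
  obtain ⟨E2, h2⟩ := size
  obtain ⟨E3, h3⟩ := size_gg 1 one_pos
  refine ⟨max (max E1 E2) (max E3 8), fun E z x y hE hS Q b hI j hj1 hj2 p hp hzp hpz => ?_⟩
  have hE1 : E1 ≤ E := by omega
  have hE2 : E2 ≤ E := by omega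
  have hE3 : E3 ≤ E := by omega
  have hE8 : 8 ≤ E := by omega
  obtain ⟨a1, a2, a3, a4, a5, a6, a7, a8, a9, a10, a11, a12, a13, a14⟩ := h2 E z x y hE2 hS
  obtain ⟨-, h3'⟩ := h3 E z x y hE3 hS
  obtain ⟨-, hg, -⟩ := h3' 2 (by omega)
  set B : Finset ℕ := {j, j + 2} with hB
  set d : ℕ → ℕ := fun i => if i = j then 1 else p with hd
  have hjj : j ≠ j + 2 := by omega
  have hdj : d j = 1 := by simp [hd]
  have hdj2 : d (j + 2) = p := by simp [hd]
  have hBc : B.card = 2 := by rw [hB, Finset.card_pair hjj]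
  have hBy : B ⊆ Icc 1 y := by
    intro i hi
    rw [hB, Finset.mem_insert, Finset.mem_singleton] at hi
    rw [Finset.mem_Icc]
    omega
  have hSf : ∀ i ∈ B, Sf z (d i) := by
    intro i hi
    rw [hB, Finset.mem_insert, Finset.mem_singleton] at hi
    rcases hi with hi | hi
    · rw [hi, hdj]
      refine ⟨squarefree_one, fun q hq hq1 => ?_⟩
      exact absurd (Nat.dvd_one.1 hq1) hq.one_lt.ne'
    · rw [hi, hdj2]
      refine ⟨hp.prime.squarefree, fun q hq hqp => ?_⟩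
      rw [(Nat.prime_dvd_prime_iff_eq hq hp).1 hqp]
      exact hzp
  have hprod : ∏ i ∈ B, d i ≤ z ^ (E / 4) := by
    rw [hB, Finset.prod_pair hjj, hdj, hdj2, one_mul]
    have h4 : z ^ 2 ≤ z ^ (E / 4) := Nat.pow_le_pow_right (by omega) (by omega)
    have h5 : 4 * z ≤ z ^ 2 := by
      rw [pow_two]
      exact Nat.mul_le_mul_right _ (by omega)
    omega
  have hcop : ∀ i ∈ B, ∀ i' ∈ B, i ≠ i' → Nat.Coprime (d i) (d i') := by
    intro i hi i' hi' hne
    rw [hB, Finset.mem_insert, Finset.mem_singleton] at hi hi'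
    rcases hi with hi | hi <;> rcases hi' with hi' | hi'
    · exact absurd (hi.trans hi'.symm) hne
    · rw [hi, hdj]; exact Nat.coprime_one_left _
    · rw [hi', hdj]; exact Nat.coprime_one_right _
    · exact absurd (hi.trans hi'.symm) hne
  obtain ⟨k1, -⟩ := (h1 E z x y hE1 hS Q b hI B hBy (by rw [hBc]; omega) d hSf hprod).1 hcop
  have hset : (NQ x Q b).filter (fun n => ∀ i ∈ B, d i ∣ n + i ∧ Rg y z (n + i)) =
      (NQ x Q b).filter (fun n => R2 y z (n + j) ∧ p ∣ n + j + 2) := by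
    refine Finset.filter_congr fun n _ => ?_
    constructor
    · intro hn
      obtain ⟨-, n2⟩ := hn j (by rw [hB]; simp)
      obtain ⟨n3, n4⟩ := hn (j + 2) (by rw [hB]; simp)
      rw [hdj2] at n3
      exact ⟨⟨n2, by rw [add_assoc]; exact n4⟩, by rw [add_assoc]; exact n3⟩
    · rintro ⟨⟨n2, n4⟩, n3⟩ i hi
      rw [hB, Finset.mem_insert, Finset.mem_singleton] at hi
      rcases hi with hi | hi
      · rw [hi, hdj]; exact ⟨one_dvd _, n2⟩
      · rw [hi, hdj2, ← add_assoc]; exact ⟨n3, n4⟩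
  rw [hset, hBc, hB, Finset.prod_pair hjj, hdj, hdj2, Nat.cast_one, div_one, one_mul] at k1
  have hX0 : 0 ≤ XQ x Q := by
    unfold XQ XI
    positivity
  have hp0 : (0 : ℝ) ≤ 1 / (p : ℝ) := by positivity
  have hgn : 0 ≤ gg y z 2 := gg_nonneg _ _ _ a7
  have hM0 : 0 ≤ XQ x Q * (gg y z 2 * (1 / (p : ℝ))) := by positivity
  have he1 : Real.exp (-(c * E)) ≤ 1 := by
    rw [Real.exp_le_one_iff]
    have : 0 ≤ c * (E : ℝ) := by positivity
    linarith
  have h4 := mul_le_mul_of_nonneg_right he1 hM0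
  have h5 := (abs_le.1 k1).2
  have h6 : XQ x Q * (gg y z 2 * (1 / (p : ℝ))) ≤ XQ x Q * om y z ^ 2 * (1 / (p : ℝ)) := by
    rw [← mul_assoc]
    exact mul_le_mul_of_nonneg_right (mul_le_mul_of_nonneg_left hg hX0) hp0
  linarith

/-- growth -/
theorem log_E (C η : ℝ) (hC : 0 < C) (hη : 0 < η) : ∃ E0 : ℕ, ∀ E : ℕ, E0 ≤ E →
    C * (E * Real.log E + E) ≤ η / 2 * (E : ℝ) ^ 2 ∧ (E : ℝ) * Real.log E ≤ (E : ℝ) ^ 2 / 2 := by
  have e1 : ∀ᶠ u : ℝ in atTop, ‖Real.log u‖ ≤ (min (η / (4 * C)) (1 / 2)) * ‖id u‖ :=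
    (Asymptotics.isLittleO_iff.1 Real.isLittleO_log_id_atTop) (by positivity)
  obtain ⟨E0, hE0⟩ := eventually_atTop.1 ((tendsto_natCast_atTop_atTop (R := ℝ)).eventually
    (e1.and (eventually_ge_atTop (max 1 (4 * C / η)))))
  refine ⟨E0, fun E hE => ?_⟩
  obtain ⟨h1, h2⟩ := hE0 E hE
  have h3 : (1 : ℝ) ≤ E := (le_max_left _ _).trans h2
  have h4 : 4 * C / η ≤ E := (le_max_right _ _).trans h2
  rw [id, Real.norm_of_nonneg (Real.log_nonneg h3), Real.norm_of_nonneg (by linarith)] at h1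
  have h5 : Real.log E ≤ η / (4 * C) * E :=
    h1.trans (mul_le_mul_of_nonneg_right (min_le_left _ _) (by linarith))
  have h6 : Real.log E ≤ 1 / 2 * E :=
    h1.trans (mul_le_mul_of_nonneg_right (min_le_right _ _) (by linarith))
  have h7 : C * Real.log E ≤ η / 4 * E := by
    calc C * Real.log E ≤ C * (η / (4 * C) * E) := mul_le_mul_of_nonneg_left h5 hC.le
      _ = η / 4 * E := by field_simp
  have h8 : C ≤ η / 4 * E := by
    rw [div_le_iff₀ hη] at h4
    linarith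
  constructor
  · calc C * (E * Real.log E + E) = E * (C * Real.log E + C) := by ring
      _ ≤ E * (η / 4 * E + η / 4 * E) := mul_le_mul_of_nonneg_left (by linarith) (by linarith)
      _ = η / 2 * (E : ℝ) ^ 2 := by ring
  · calc (E : ℝ) * Real.log E ≤ E * (1 / 2 * E) := mul_le_mul_of_nonneg_left h6 (by linarith)
      _ = (E : ℝ) ^ 2 / 2 := by ring

theorem ex (hTL : StmtTLQ) (hRC : StmtRC2) (hSU : StmtSU2) : StmtEX2 := by
  intro η hη
  obtain ⟨E1, h1⟩ := count_p hTL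
  obtain ⟨C, hC, E2, h2⟩ := hRC
  obtain ⟨E3, h3⟩ := hSU
  obtain ⟨c5, hc5, E4, hVP⟩ := Pool.Agent.Helper88.CG.vp
  obtain ⟨E5, hsize⟩ := size
  obtain ⟨E6, hlog⟩ := log_E C η hC hη
  refine ⟨max (max (max E1 E2) (max E3 E4)) (max (max E5 E6) 64), fun E hE => ?_⟩
  have hE1 : E1 ≤ E := by omega
  have hE2 : E2 ≤ E := by omega
  have hE3 : E3 ≤ E := by omega
  have hE4 : E4 ≤ E := by omega
  have hE5 : E5 ≤ E := by omega
  have hE6 : E6 ≤ E := by omega
  have hE64 : 64 ≤ E := by omega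
  have hEr : (64 : ℝ) ≤ E := by exact_mod_cast hE64
  have hE0 : (0 : ℝ) < E := by linarith
  set W0 : ℝ := Real.exp ((E : ℝ) ^ 2 / 2) with hW0
  have hW0p : 0 < W0 := Real.exp_pos _
  obtain ⟨x0, hx0⟩ := exists_nat_ge (Real.exp (2 * E * (24 * E * W0 / η)))
  refine ⟨x0, fun z x y hxx hS Q b hI P hP j hjP hSep => ?_⟩
  obtain ⟨a1, a2, a3, a4, a5, a6, a7, a8, a9, a10, a11, a12, a13, a14⟩ := hsize E z x y hE5 hS
  obtain ⟨hm1, hqm, hM2, hK6, _, hVV⟩ := hVP E hE4
  have hz2 : 2 ≤ z := by omega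
  have hV1 := (hVV z hz2).1
  set m := mE E with hm
  set q := qE E with hq
  have hq1 : 1 ≤ q := by
    rw [hq]
    unfold qE
    exact Nat.one_le_two_pow
  have hqm' : q * m ≤ E / 16 := by
    refine le_trans ?_ hqm
    rw [pow_two, mul_assoc]
    calc q * m = 1 * (q * m) := (one_mul _).symm
      _ ≤ q * (q * m) := Nat.mul_le_mul_right _ hq1
  have hK : (E / 16 / m + 1) ^ 3 ≤ E := by
    refine le_trans ?_ hK6
    have ha : ∀ a : ℕ, a + 1 ≤ 2 * (a + 2) := fun a => by omega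
    calc (E / 16 / m + 1) ^ 3 ≤ (2 * (E / 16 / m + 2)) ^ 3 := Nat.pow_le_pow_left (ha _) 3
      _ ≤ (2 * (E / 16 / m + 2)) ^ 6 :=
        Nat.pow_le_pow_right (Nat.succ_le_of_lt (by positivity)) (by norm_num)
  -- the size of `log z`
  have hlz0 : 0 < Real.log z := by linarith
  have hx00 : (x0 : ℝ) ≤ x := by exact_mod_cast hxx
  have hlogx : 2 * E * (24 * E * W0 / η) ≤ Real.log x := by
    rw [← Real.log_exp (2 * E * (24 * E * W0 / η))]
    exact Real.log_le_log (Real.exp_pos _) (hx0.trans hx00)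
  have hlz : 24 * E * W0 / η ≤ Real.log z := by
    have h4 : 2 * E * (24 * E * W0 / η) ≤ 2 * E * Real.log z := by linarith
    exact le_of_mul_le_mul_left h4 (by positivity)
  -- the points
  have hjm := hSep.1 j (mem_insert_self _ _)
  have hSP : Sep y P := ⟨fun i hi => hSep.1 i (mem_insert_of_mem hi), fun i hi j' hj' =>
    hSep.2 i (mem_insert_of_mem hi) j' (mem_insert_of_mem hj')⟩
  have hPs : P ⊆ Icc 1 y := fun i hi => by
    have := hSP.1 i hi
    exact mem_Icc.2 ⟨this.1, by omega⟩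
  have hD1 : 1 ≤ Dt2 E z y P := one_le_D2 m q (E / 16) z y (Sep_card hSP)
  set D := Dt2 E z y P with hD
  set o := om y z with ho
  have ho0 : 0 ≤ o := Pool.Agent.Helper88.RR.om_nonneg _ _
  set X := XQ x Q with hX
  have hX0 : 0 ≤ X := by
    rw [hX]
    unfold XQ XI
    positivity
  obtain ⟨hlg1, hlg2⟩ := hlog E hE6
  have hP2 : (P.card : ℝ) * o ^ 2 ≤ (E : ℝ) ^ 2 / 2 := hP.trans hlg2
  set N := (NQ x Q b).filter (fun n => R2 y z (n + j) ∧ ∃ p ∈ pr z (4 * z), p ∣ n + j + 2)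
    with hN
  -- many rough points
  have hrc := (h2 E z x y hE2 hS Q b hI P hP2).2 j hjP hSep
  have hA : ∑ n ∈ N.filter (fun n => ¬ (P.filter (fun h => R2 y z (n + h))).card ≤ E ^ 3),
      Wt2 E z y P n ^ 2 ≤ η / 2 * (X * D * (o ^ 2 / E)) := by
    have g1 : (E : ℝ) ^ 3 * ∑ n ∈ N.filter
        (fun n => ¬ (P.filter (fun h => R2 y z (n + h))).card ≤ E ^ 3), Wt2 E z y P n ^ 2 ≤
        ∑ n ∈ (NQ x Q b).filter (fun n => R2 y z (n + j)),
          Wt2 E z y P n ^ 2 * ((P.filter (fun h => R2 y z (n + h))).card : ℝ) := by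
      rw [Finset.mul_sum]
      refine le_trans (Finset.sum_le_sum (g := fun n => Wt2 E z y P n ^ 2 *
        ((P.filter (fun h => R2 y z (n + h))).card : ℝ)) fun n hn => ?_)
        (Finset.sum_le_sum_of_subset_of_nonneg ?_ fun n _ _ => by positivity)
      · have g2 := (Finset.mem_filter.1 hn).2
        have g3 : (E : ℝ) ^ 3 ≤ ((P.filter (fun h => R2 y z (n + h))).card : ℝ) := by
          exact_mod_cast (not_le.1 g2).le
        rw [mul_comm]
        exact mul_le_mul_of_nonneg_left g3 (sq_nonneg _)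
      · intro n hn
        have g2 := (Finset.mem_filter.1 hn).1
        rw [hN, Finset.mem_filter] at g2
        exact Finset.mem_filter.2 ⟨g2.1, g2.2.1⟩
    have g2 : C * (X * D) * o ^ 2 * (P.card * o ^ 2 + E) ≤
        (E : ℝ) ^ 3 * (η / 2 * (X * D * (o ^ 2 / E))) := by
      have g3 : C * (P.card * o ^ 2 + E) ≤ η / 2 * (E : ℝ) ^ 2 :=
        (mul_le_mul_of_nonneg_left (by linarith) hC.le).trans hlg1
      calc C * (X * D) * o ^ 2 * (P.card * o ^ 2 + E) =
            (X * D * o ^ 2) * (C * (P.card * o ^ 2 + E)) := by ring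
        _ ≤ (X * D * o ^ 2) * (η / 2 * (E : ℝ) ^ 2) :=
            mul_le_mul_of_nonneg_left g3 (by positivity)
        _ = _ := by field_simp
    have g3 := (g1.trans hrc).trans g2
    exact le_of_mul_le_mul_left g3 (by positivity)
  -- few rough points
  have hB : ∑ n ∈ N.filter (fun n => (P.filter (fun h => R2 y z (n + h))).card ≤ E ^ 3),
      Wt2 E z y P n ^ 2 ≤ η / 2 * (X * D * (o ^ 2 / E)) := by
    have g1 : ∀ n ∈ N.filter (fun n => (P.filter (fun h => R2 y z (n + h))).card ≤ E ^ 3),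
        Wt2 E z y P n ^ 2 ≤ W0 := by
      intro n hn
      obtain ⟨g2, g3⟩ := Finset.mem_filter.1 hn
      have g4 : n ≤ 32 * x := by
        have g5 := (Finset.mem_filter.1 g2).1
        have g6 := (Finset.mem_filter.1 g5).1
        exact (Finset.mem_Ioc.1 g6).2
      exact h3 E z x y hE3 hS m q hm1 hqm' hV1 hK P hPs n g4 g3
    have g2 : (N.card : ℝ) ≤ 12 * (X * o ^ 2) / Real.log z := by
      have g3 : N ⊆ (pr z (4 * z)).biUnion (fun p => (NQ x Q b).filter
          (fun n => R2 y z (n + j) ∧ p ∣ n + j + 2)) := by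
        intro n hn
        rw [hN, Finset.mem_filter] at hn
        obtain ⟨g4, g5, p, hp, g6⟩ := hn
        exact Finset.mem_biUnion.2 ⟨p, hp, Finset.mem_filter.2 ⟨g4, g5, g6⟩⟩
      have g4 : (N.card : ℝ) ≤ ∑ p ∈ pr z (4 * z), (((NQ x Q b).filter
          (fun n => R2 y z (n + j) ∧ p ∣ n + j + 2)).card : ℝ) := by
        exact_mod_cast (Finset.card_le_card g3).trans Finset.card_biUnion_le
      refine g4.trans ?_
      have g5 : ∀ p ∈ pr z (4 * z), (((NQ x Q b).filter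
          (fun n => R2 y z (n + j) ∧ p ∣ n + j + 2)).card : ℝ) ≤
          2 * (X * o ^ 2 * (1 / (p : ℝ))) := by
        intro p hp
        unfold pr at hp
        rw [Finset.mem_filter, Finset.mem_Ioc] at hp
        exact h1 E z x y hE1 hS Q b hI j hjm.1 hjm.2 p hp.2 hp.1.1 hp.1.2
      refine (Finset.sum_le_sum g5).trans ?_
      rw [← Finset.mul_sum, ← Finset.mul_sum]
      have g6 := recip_z4 z hz2
      calc 2 * (X * o ^ 2 * ∑ p ∈ pr z (4 * z), 1 / (p : ℝ))
          ≤ 2 * (X * o ^ 2 * (6 / Real.log z)) := by gcongr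
        _ = _ := by ring
    have g3 : ((N.filter (fun n => (P.filter (fun h => R2 y z (n + h))).card ≤ E ^ 3)).card : ℝ)
        ≤ N.card := by exact_mod_cast Finset.card_filter_le _ _
    calc ∑ n ∈ N.filter (fun n => (P.filter (fun h => R2 y z (n + h))).card ≤ E ^ 3),
          Wt2 E z y P n ^ 2
        ≤ ∑ n ∈ N.filter (fun n => (P.filter (fun h => R2 y z (n + h))).card ≤ E ^ 3), W0 :=
          Finset.sum_le_sum g1
      _ = ((N.filter (fun n => (P.filter (fun h => R2 y z (n + h))).card ≤ E ^ 3)).card : ℝ) *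
            W0 := by rw [Finset.sum_const, nsmul_eq_mul]
      _ ≤ 12 * (X * o ^ 2) / Real.log z * W0 :=
          mul_le_mul_of_nonneg_right (g3.trans g2) hW0p.le
      _ ≤ η / 2 * (X * (o ^ 2 / E)) := by
          rw [div_mul_eq_mul_div, div_le_iff₀ hlz0]
          have g4 : 24 * E * W0 ≤ Real.log z * η := by
            rwa [div_le_iff₀ hη] at hlz
          have g5 : 0 ≤ X * (o ^ 2 / E) := by positivity
          have g6 := mul_le_mul_of_nonneg_left g4 g5
          calc 12 * (X * o ^ 2) * W0 = 1 / 2 * (X * (o ^ 2 / E) * (24 * E * W0)) := by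
                field_simp
                ring
            _ ≤ 1 / 2 * (X * (o ^ 2 / E) * (Real.log z * η)) := by linarith
            _ = _ := by ring
      _ ≤ η / 2 * (X * D * (o ^ 2 / E)) := by
          have g5 : 0 ≤ X * (o ^ 2 / E) := by positivity
          have g6 : X * (o ^ 2 / E) ≤ X * D * (o ^ 2 / E) := by
            calc X * (o ^ 2 / E) = X * (o ^ 2 / E) * 1 := (mul_one _).symm
              _ ≤ X * (o ^ 2 / E) * D := mul_le_mul_of_nonneg_left hD1 g5
              _ = _ := by ring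
          exact mul_le_mul_of_nonneg_left g6 (by positivity)
  have hsum := Finset.sum_filter_add_sum_filter_not N
    (fun n => (P.filter (fun h => R2 y z (n + h))).card ≤ E ^ 3) (fun n => Wt2 E z y P n ^ 2)
  calc ∑ n ∈ N, Wt2 E z y P n ^ 2
      ≤ η / 2 * (X * D * (o ^ 2 / E)) + η / 2 * (X * D * (o ^ 2 / E)) := by
        rw [← hsum]
        exact add_le_add hB hA
    _ = η * (X * D * (o ^ 2 / E)) := by ring

end Pool.Agent.Helper88.TW
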