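import Pool.Agent.Helper88.TW.WT
import Pool.Agent.Helper88.TW.KQ
import Pool.Agent.Helper32.TU.LB

/-!
# Lower bound under the weight (packet LB2)

Adapted from `Pool/Agent/Helper32/TU/LB.lean` and `Pool/Agent/Helper42/CG/LB.lean`.
-/

set_option autoImplicit false

open Finset Filter Topology

open scoped Classical

namespace Pool.Agent.Helper88.TW

open Pool.Agent.Helper88.PP (pr Rg om Sf SS uu vv ee LA VV QQ cost)
open Pool.Agent.Helper88.RR (gg ab TB nz VM gg_nonneg)
open Pool.Agent.Helper88.GM (NI XI)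
open Pool.Agent.Helper88.CG (tw pw th DS sg qE mE)
open Pool.Agent.Helper85.RR (ab_nonneg mem_TB card_TB prod_TB)
open Pool.Agent.Helper42.CG (pw_nonneg pw_le_one XI_nonneg DS' DS'_nonneg bad_small)
open Pool.Agent.Helper3.PP (mem_SS mem_LA LA_sub)
open Pool.Agent.Helper32.TU (exp_E)
open Pool.Agent.Helper88.TU (Su size)
open Pool.Agent.Helper76.TW

theorem W2_eq (m q M z y : ℕ) (P : Finset ℕ) (n : ℕ) : W2 m q M z y P n =
    ∑ r ∈ TB m q M z P, (∏ i : P, (if r i = 0 then 1 else - ab m q z (r i))) *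
      ∏ i : P, vR (R2 y z) (r i) (n + (i : ℕ)) := by
  unfold W2
  refine Finset.sum_congr rfl fun r _ => ?_
  rw [Finset.prod_mul_distrib]

theorem wb2_nonneg {m q y z : ℕ} {P : Finset ℕ} (hP : 2 * P.card ≤ y) (r : P → ℕ) :
    0 ≤ wb2 m q y z r := by
  unfold wb2
  refine mul_nonneg (gg_nonneg _ _ _ ?_) (Finset.prod_nonneg fun i _ => ?_)
  · have : nz r ≤ P.card := by
      unfold nz
      refine (Finset.card_le_univ _).trans ?_
      rw [Fintype.card_coe]
    omega
  · split_ifs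
    · exact zero_le_one
    · positivity

theorem one_le_D2 (m q M z y : ℕ) {P : Finset ℕ} (hP : 2 * P.card ≤ y) :
    1 ≤ D2 m q M z y P := by
  unfold D2
  have h0 : (fun _ : P => 0) ∈ TB m q M z P := by
    unfold TB
    rw [Finset.mem_filter, Fintype.mem_piFinset]
    exact ⟨fun i => Finset.mem_insert_self _ _, by simp [cost]⟩
  have h1 : nz (fun _ : P => 0) = 0 := by
    unfold nz
    simp
  have h2 : wb2 m q y z (fun _ : P => 0) = 1 := by
    unfold wb2
    rw [h1, mul_zero]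
    unfold gg
    simp
  have h3 := Finset.single_le_sum (f := fun r : P → ℕ => wb2 m q y z r) (s := TB m q M z P)
    (fun r _ => wb2_nonneg hP r) h0
  exact h2.ge.trans h3

theorem pj_nonneg (x w z j n : ℕ) : 0 ≤ pj x w z j n := by
  unfold pj
  refine mul_nonneg (pw_nonneg _ _) ?_
  split_ifs
  · exact zero_le_one
  · exact le_rfl

theorem pj_le_one (x w z j n : ℕ) (hx : 1 ≤ x) : pj x w z j n ≤ 1 := by
  unfold pj
  have h1 := pw_le_one (32 * x) (n + j) (by omega)
  have h2 := pw_nonneg (32 * x) (n + j)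
  split_ifs
  · linarith
  · linarith

theorem pj_ne (x w y z j n : ℕ) (hwy : w ≤ y) (h : ¬ ((n + j).Prime ∧ Rg y z (n + j + 2))) :
    pj x w z j n = 0 := by
  unfold pj
  by_cases h1 : (n + j).Prime
  · have h2 : ¬ Rg w z (n + j + 2) := by
      intro h3
      refine h ⟨h1, fun p hp => h3 p ?_⟩
      unfold pr at hp ⊢
      rw [Finset.mem_filter, Finset.mem_Ioc] at hp ⊢
      exact ⟨⟨by omega, hp.1.2⟩, hp.2⟩
    rw [if_neg h2, mul_zero]
  · unfold pw
    rw [if_neg h1, zero_mul]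

/-- the points `h` with `R2` -/
noncomputable def Sn2 (y z : ℕ) (P : Finset ℕ) (n : ℕ) : Finset ℕ :=
  P.filter (fun h => R2 y z (n + h))

theorem prod_icR (y z n : ℕ) (P : Finset ℕ) (r : P → ℕ) :
    ∏ i : P, icR (R2 y z) (sg (r i)) (n + (i : ℕ)) =
      if ∀ i, r i ≠ 0 → (i : ℕ) ∈ Sn2 y z P n then 1 else 0 := by
  have h0 : ∀ i : P, icR (R2 y z) (sg (r i)) (n + (i : ℕ)) =
      if r i ≠ 0 → (i : ℕ) ∈ Sn2 y z P n then 1 else 0 := by
    intro i
    unfold icR sg Sn2
    by_cases hi : r i = 0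
    · simp [hi]
    · simp [hi]
  by_cases h : ∀ i, r i ≠ 0 → (i : ℕ) ∈ Sn2 y z P n
  · rw [if_pos h]
    refine Finset.prod_eq_one fun i _ => ?_
    rw [h0 i, if_pos (h i)]
  · rw [if_neg h]
    push Not at h
    obtain ⟨i, hi, hi'⟩ := h
    refine Finset.prod_eq_zero (Finset.mem_univ i) ?_
    rw [h0 i, if_neg]
    intro h1
    exact hi' (h1 hi)

/-- the main term -/
theorem main_term2 (m q M z x w y j : ℕ) (P N : Finset ℕ) :
    ∑ r ∈ TB m q M z P, (∏ i : P, (if r i = 0 then 1 else - ab m q z (r i))) ^ 2 *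
      (CJ x w y z j N (fun i => sg (r i)) *
        ∏ i : P, (if r i = 0 then 1 else (Nat.totient (r i) : ℝ))) =
    ∑ n ∈ N, pj x w z j n * DS' m q M z P (Sn2 y z P n) := by
  unfold DS' CJ
  simp only [Finset.mul_sum, Finset.sum_mul]
  rw [Finset.sum_comm]
  refine Finset.sum_congr rfl fun n _ => Finset.sum_congr rfl fun r _ => ?_
  rw [prod_icR]
  have h1 : (∏ i : P, (if r i = 0 then (1 : ℝ) else - ab m q z (r i))) ^ 2 *
      ∏ i : P, (if r i = 0 then 1 else (Nat.totient (r i) : ℝ)) =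
      ∏ i : P, (if r i = 0 then 1 else ab m q z (r i) ^ 2 * (Nat.totient (r i) : ℝ)) := by
    rw [← Finset.prod_pow, ← Finset.prod_mul_distrib]
    refine Finset.prod_congr rfl fun i _ => ?_
    split_ifs <;> ring
  split_ifs with h
  · rw [← h1]; ring
  · ring

/-- the second moment for our parameters -/
theorem moment2 {C : ℝ} (hC : 1 ≤ C) (E z x w y Q b j m q K : ℕ) (P : Finset ℕ)
    (hz : 2 ≤ z) (hm : 1 ≤ m) (hqm : q * m ≤ E / 16) (hK : 2 * (E / 16 / m) ≤ K)
    (hCB : ∀ d ∈ SS z (z ^ (E / 16)),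
      (d : ℝ) * ∑ r ∈ (LA z m (q * m)).filter (fun r => d ∣ r), ab m q z r ≤ C) :
    |∑ n ∈ NQ x Q b, pj x w z j n * W2 m q (E / 16) z y P n ^ 2 -
      ∑ n ∈ NQ x Q b, pj x w z j n * DS' m q (E / 16) z P (Sn2 y z P n)| ≤
    ∑ d ∈ (DS z (z ^ (2 * (E / 16))) K : Finset (P → ℕ)),
      (∏ i, (if d i = 0 then 1 else 3 * C ^ 2 * 3 ^ (d i).primeFactors.card)) *
      |CJ x w y z j (NQ x Q b) d
        - CJ x w y z j (NQ x Q b) (fun i => sg (d i)) *
          ∏ i, (if d i = 0 then 1 else 1 / (d i : ℝ))| := by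
  have hz0 : 1 ≤ z := by omega
  have hSS0 : ∀ r, r ∈ SS z (z ^ (E / 16)) → r ≠ 0 := by
    intro r hr
    have := (mem_SS.mp hr).1.1
    omega
  have hLA0 : ∀ r, r ∈ LA z m (q * m) → r ≠ 0 := fun r hr =>
    hSS0 r (LA_sub hz0 hqm hr)
  have hLA1 : ∀ r, r ∈ LA z m (q * m) → r ≠ 1 := by
    intro r hr h
    have h6 := (mem_LA.mp hr).2
    have h7 : z ^ 1 ≤ z ^ m := Nat.pow_le_pow_right hz0 hm
    rw [pow_one] at h7
    omega
  have key := wt P (fun i => (i : ℕ)) (R2 y z) z (z ^ (E / 16)) (z ^ (2 * (E / 16))) K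
    (NQ x Q b) (fun n => pj x w z j n) C
    (fun d => CJ x w y z j (NQ x Q b) d) (TB m q (E / 16) z P)
    (fun r => ∏ i : P, (if r i = 0 then 1 else - ab m q z (r i)))
    (fun _ r => if r = 0 then 1 else if r ∈ LA z m (q * m) then ab m q z r else 0)
    hC ?_ ?_ ?_ ?_ ?_ ?_ ?_ ?_
  · simp only [← W2_eq] at key
    rw [main_term2] at key
    exact key
  · intro r hr i
    rcases (mem_TB hr).1 i with h | h
    · exact Or.inl h
    · exact Or.inr (LA_sub hz0 hqm h)
  · intro r hr s _ i hi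
    rcases (mem_TB hr).1 i with h | h
    · omega
    · exact absurd hi (hLA1 _ h)
  · intro r hr
    calc (∏ i, max 1 (r i)) ^ 2 ≤ (z ^ (E / 16)) ^ 2 := Nat.pow_le_pow_left (prod_TB hz hr) 2
      _ = z ^ (2 * (E / 16)) := by rw [← pow_mul, mul_comm]
  · intro r hr s hs
    rw [Finset.filter_or]
    refine (Finset.card_union_le _ _).trans ?_
    have h5 := card_TB hm hz hr
    have h6 := card_TB hm hz hs
    unfold nz at h5 h6
    omega
  · intro i r
    have h5 := ab_nonneg m q z r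
    split_ifs <;> positivity
  · intro i
    simp
  · intro r hr
    rw [Finset.abs_prod]
    refine Finset.prod_le_prod (fun i _ => abs_nonneg _) fun i _ => ?_
    rcases (mem_TB hr).1 i with h | h
    · simp [h]
    · rw [if_neg (hLA0 _ h), if_neg (hLA0 _ h), if_pos h, abs_neg,
        abs_of_nonneg (ab_nonneg _ _ _ _)]
  · intro i d hd
    refine le_of_eq_of_le ?_ (hCB d hd)
    congr 1
    have h5 : ∀ r ∈ (SS z (z ^ (E / 16))).filter (fun r => d ∣ r),
        (if r = 0 then (1 : ℝ) else if r ∈ LA z m (q * m) then ab m q z r else 0) =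
        if r ∈ LA z m (q * m) then ab m q z r else 0 := by
      intro r hr
      rw [if_neg (hSS0 r (Finset.mem_filter.mp hr).1)]
    rw [Finset.sum_congr rfl h5, ← Finset.sum_filter]
    refine Finset.sum_congr ?_ fun _ _ => rfl
    ext r
    simp only [Finset.mem_filter]
    constructor
    · rintro ⟨⟨_, h7⟩, h8⟩
      exact ⟨h8, h7⟩
    · rintro ⟨h7, h8⟩
      exact ⟨⟨LA_sub hz0 hqm h7, h8⟩, h7⟩

/-- Packet `LB`. -/
theorem lb : StmtER3 → StmtCO2 → StmtCM2 → StmtLB2 := by
  intro h2 h3 h4 η hη D0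
  have h5 := Pool.Agent.Helper88.CG.vp
  obtain ⟨C, hC, hCB⟩ := Pool.Agent.Helper31.RR.cb
  obtain ⟨c2, hc2, E2, hER⟩ := h2 C hC D0
  obtain ⟨C3, hC3, E3, hCO⟩ := h3
  set η' : ℝ := min η 1 / 2 with hη'
  have hη'0 : 0 < η' := by rw [hη']; have := lt_min hη one_pos; linarith
  have hη'1 : η' ≤ 1 / 2 := by rw [hη']; have := min_le_right η 1; linarith
  have hη'2 : η' ≤ η := by rw [hη']; have := min_le_left η 1; linarith
  obtain ⟨E4, hCM⟩ := h4 η' hη'0
  obtain ⟨c5, hc5, E5, hVP⟩ := h5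
  obtain ⟨c6, hc6, hom⟩ := Pool.Agent.Helper74.PP.om_lower
  obtain ⟨E6, hex⟩ := exp_E c2 (η' / 2) hc2 (by positivity)
  obtain ⟨E9, hsize⟩ := size
  obtain ⟨E7, hbad⟩ := bad_small (64 * C3 / η' ^ 3) (by positivity)
  refine ⟨max (max (max E2 E3) (max E4 E5)) (max (max E6 E7) (max E9 64)),
    fun E hE => ?_⟩
  have hE2 : E2 ≤ E := by
    exact ((le_max_left _ _).trans (le_max_left _ _)).trans ((le_max_left _ _).trans hE)
  have hE3 : E3 ≤ E := by
    exact ((le_max_right _ _).trans (le_max_left _ _)).trans ((le_max_left _ _).trans hE)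
  have hE4 : E4 ≤ E := by
    exact ((le_max_left _ _).trans (le_max_right _ _)).trans ((le_max_left _ _).trans hE)
  have hE5 : E5 ≤ E := by
    exact ((le_max_right _ _).trans (le_max_right _ _)).trans ((le_max_left _ _).trans hE)
  have hE6 : E6 ≤ E := by
    exact ((le_max_left _ _).trans (le_max_left _ _)).trans ((le_max_right _ _).trans hE)
  have hE7 : E7 ≤ E := by
    exact ((le_max_right _ _).trans (le_max_left _ _)).trans ((le_max_right _ _).trans hE)
  have hE9 : E9 ≤ E := by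
    exact ((le_max_left _ _).trans (le_max_right _ _)).trans ((le_max_right _ _).trans hE)
  have hE8 : 64 ≤ E := by
    exact ((le_max_right _ _).trans (le_max_right _ _)).trans ((le_max_right _ _).trans hE)
  obtain ⟨x0, hER⟩ := hER E hE2
  refine ⟨x0, fun z x y w hx0 hS hwy hyw Q b hIq hQ40 P hPA j hjP hSep => ?_⟩
  have hIy : Iq x y Q b := ⟨hIq.1, fun p hp hpd => (hIq.2.1 p hp hpd).trans hwy, hIq.2.2⟩
  have hSP : Sep y P := ⟨fun i hi => hSep.1 i (mem_insert_of_mem hi), fun i hi j' hj' =>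
    hSep.2 i (mem_insert_of_mem hi) j' (mem_insert_of_mem hj')⟩
  have hP2 : 2 * P.card ≤ y := Sep_card hSP
  obtain ⟨a1, a2, a3, a4, a5, a6, a7, a8, a9, a10, a11, a12, a13, a14⟩ := hsize E z x y hE9 hS
  have hEr : (64 : ℝ) ≤ E := by exact_mod_cast hE8
  obtain ⟨hm1, hqm, hM2, hK6, _, hVV⟩ := hVP E hE5
  -- `z`
  have hzE : Real.exp E ≤ z := hS.1
  have hzE' : (E : ℝ) + 1 ≤ z := (Real.add_one_le_exp _).trans hzE
  have hzE2 : E + 1 ≤ z := by exact_mod_cast hzE'
  have hz2 : 2 ≤ z := by omega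
  have hV1 := (hVV z hz2).1
  -- `y`
  have hyE : E ≤ y := by
    have : E ≤ E ^ 2 := Nat.le_self_pow (by norm_num) E
    omega
  set m := mE E with hm
  set q := qE E with hq
  have hq1 : 1 ≤ q := by
    rw [hq]
    unfold qE
    exact Nat.one_le_two_pow
  have hqm' : q * m ≤ E / 16 := by
    refine le_trans ?_ hqm
    rw [pow_two, mul_assoc]
    calc q * m = 1 * (q * m) := (one_mul _).symm
      _ ≤ q * (q * m) := Nat.mul_le_mul_right _ hq1
  -- parameters of the error term
  set K : ℕ := 2 * (E / 16 / m + 2) with hK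
  have hK3 : K ^ 3 ≤ E := by
    have h7 : 1 ≤ K := by
      rw [hK]
      exact Nat.succ_le_of_lt (by positivity)
    exact (Nat.pow_le_pow_right h7 (by norm_num)).trans hK6
  have hKm : 2 * (E / 16 / m) ≤ K := by
    rw [hK]
    exact Nat.mul_le_mul_left 2 (Nat.le_add_right _ _)
  have hmom := moment2 hC E z x w y Q b j m q K P hz2 hm1 hqm' hKm
    (fun d hd => (hCB m q (E / 16) z hm1 hz2 (by omega) hV1 d hd).1)
  have hPA' : (P.card : ℝ) * om y z ^ 2 ≤ (E : ℝ) ^ 2 := by linarith [sq_nonneg (E : ℝ)]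
  have her := hER z x y w hx0 hS hwy hyw Q b hIq hQ40 K hK3 P hPA' j hjP hSep
  have hmain := hmom.trans her
  -- `x`
  have hx2 : 2 ≤ x := by
    have h7 := hS.2.1
    have h8 : z ^ 1 ≤ z ^ E := Nat.pow_le_pow_right (by omega) (by omega)
    rw [pow_one] at h8
    omega
  have hlogz : 0 < Real.log z := Real.log_pos (by exact_mod_cast hz2)
  -- the size of `om`
  set o : ℝ := om y z ^ 2 with ho
  have homl : 1 / (c6 * Real.log z) ≤ om y z := (hom y z hz2).1
  have ho1 : 0 < om y z := lt_of_lt_of_le (by positivity) homl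
  have ho0 : 0 < o := by positivity
  set X : ℝ := XQ x Q with hX
  have hX0 : 0 ≤ X := XI_nonneg _ _ _
  set A : ℝ := X * (o / E) with hA
  have hA0 : 0 ≤ A := by rw [hA]; positivity
  have hexp : Real.exp (-(c2 * E)) * (o * X) ≤ η' / 2 * A := by
    have h8 := hex E hE6
    have hE0 : (0 : ℝ) < E := by linarith
    have h9 : Real.exp (-(c2 * E)) ≤ η' / 2 / E := by
      rw [le_div_iff₀ hE0]; linarith
    calc Real.exp (-(c2 * E)) * (o * X) ≤ η' / 2 / E * (o * X) :=
          mul_le_mul_of_nonneg_right h9 (by positivity)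
      _ = η' / 2 * A := by rw [hA]; ring
  -- the mean square
  have hDt : Dt2 E z y P = D2 m q (E / 16) z y P := rfl
  have hD1 : 1 ≤ Dt2 E z y P := one_le_D2 m q (E / 16) z y hP2
  set D := Dt2 E z y P with hD
  set N := NQ x Q b with hN
  set μ : ℝ := (P.card : ℝ) * o with hμ
  have hμ0 : 0 ≤ μ := by positivity
  set k0 : ℝ := 4 * ((E / 16 / m : ℕ) + 1) with hk0
  have hk0p : 0 < k0 := by positivity
  -- the good integers
  set good : ℕ → Prop := fun n => μ ≤ √E ∨ μ * (1 - η' / k0) ≤ (Sn2 y z P n).card with hgood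
  have hgoodD : ∀ n, good n → (1 - η') * D ≤ DS' m q (E / 16) z P (Sn2 y z P n) := by
    intro n hn
    exact hCM E z y hE4 hz2 hyE P (Sn2 y z P n) (Finset.filter_subset _ _) hn
  -- the bad integers
  have hbadsum : ∑ n ∈ N.filter (fun n => ¬ good n), pj x w z j n ≤ η' / 2 * A := by
    rcases le_or_gt μ (√E) with hsm | hlg
    · have h7 : N.filter (fun n => ¬ good n) = ∅ := by
        refine Finset.filter_eq_empty_iff.2 fun n _ h => h (Or.inl hsm)
      rw [h7, Finset.sum_empty]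
      positivity
    · have hsq1 : 1 ≤ √(E : ℝ) := by
        rw [Real.one_le_sqrt]
        linarith
      have hμ1 : 1 ≤ μ := by linarith
      have hco := hCO E z x y hE3 hS Q b hIy P hPA j hjP hSep
      have h8 : ∑ n ∈ N.filter (fun n => ¬ good n), pj x w z j n * (μ * (η' / k0)) ^ 2 ≤
          ∑ n ∈ N.filter (fun n => (n + j).Prime ∧ Rg y z (n + j + 2)),
            (((P.filter (fun h => R2 y z (n + h))).card : ℝ) - P.card * o) ^ 2 := by
        have h9 : ∀ n ∈ N.filter (fun n => ¬ good n), ¬ (n ∈ N.filter (fun n => (n + j).Prime ∧ Rg y z (n + j + 2))) →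
            pj x w z j n * (μ * (η' / k0)) ^ 2 = 0 := by
          intro n hn hn'
          have h10 : ¬ ((n + j).Prime ∧ Rg y z (n + j + 2)) := fun h => hn' (Finset.mem_filter.2
            ⟨(Finset.mem_filter.1 hn).1, h⟩)
          rw [pj_ne x w y z j n hwy h10, zero_mul]
        rw [← Finset.sum_filter_add_sum_filter_not (N.filter (fun n => ¬ good n))
          (fun n => n ∈ N.filter (fun n => (n + j).Prime ∧ Rg y z (n + j + 2)))]
        rw [Finset.sum_eq_zero (s := (N.filter (fun n => ¬ good n)).filter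
          (fun n => ¬ (n ∈ N.filter (fun n => (n + j).Prime ∧ Rg y z (n + j + 2)))))
          (fun n hn => h9 n (Finset.mem_filter.1 hn).1 (Finset.mem_filter.1 hn).2), add_zero]
        refine le_trans (Finset.sum_le_sum (g := fun n =>
          (((P.filter (fun h => R2 y z (n + h))).card : ℝ) - P.card * o) ^ 2) fun n hn => ?_)
          (Finset.sum_le_sum_of_subset_of_nonneg ?_ fun n _ _ => sq_nonneg _)
        · have hn1 := (Finset.mem_filter.1 (Finset.mem_filter.1 hn).1).2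
          have hng : ¬ (μ ≤ √E ∨ μ * (1 - η' / k0) ≤ (Sn2 y z P n).card) := hn1
          push Not at hng
          have h11 : ((Sn2 y z P n).card : ℝ) < μ * (1 - η' / k0) := hng.2
          have h12 : μ * (η' / k0) ≤ μ - ((Sn2 y z P n).card : ℝ) := by
            have : μ * (1 - η' / k0) = μ - μ * (η' / k0) := by ring
            linarith
          have h13 : 0 ≤ μ * (η' / k0) := by positivity
          have h14 : (μ * (η' / k0)) ^ 2 ≤ (μ - ((Sn2 y z P n).card : ℝ)) ^ 2 :=
            pow_le_pow_left₀ h13 h12 2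
          have h15 := pj_le_one x w z j n (by omega)
          have h16 := pj_nonneg x w z j n
          calc pj x w z j n * (μ * (η' / k0)) ^ 2 ≤ 1 * (μ * (η' / k0)) ^ 2 :=
                mul_le_mul_of_nonneg_right h15 (sq_nonneg _)
            _ ≤ (μ - ((Sn2 y z P n).card : ℝ)) ^ 2 := by rw [one_mul]; exact h14
            _ = (((P.filter (fun h => R2 y z (n + h))).card : ℝ) - P.card * o) ^ 2 := by
                rw [hμ]
                unfold Sn2
                ring
        · intro n hn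
          exact (Finset.mem_filter.1 hn).2
      rw [← Finset.sum_mul] at h8
      have h17 : (∑ n ∈ N.filter (fun n => ¬ good n), pj x w z j n) * (μ * (η' / k0)) ^ 2 ≤
          C3 * A * (μ + 1) := h8.trans hco
      -- arithmetic
      have hbd := hbad E hE7 (E / 16 / m) hK6
      have h18 : 64 * C3 * (((E / 16 / m : ℕ) : ℝ) + 1) ^ 2 ≤ η' ^ 3 * μ := by
        have h19 : 64 * C3 / η' ^ 3 * (((E / 16 / m : ℕ) : ℝ) + 1) ^ 2 ≤ μ := hbd.trans hlg.le
        have h20 : 64 * C3 * (((E / 16 / m : ℕ) : ℝ) + 1) ^ 2 =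
            η' ^ 3 * (64 * C3 / η' ^ 3 * (((E / 16 / m : ℕ) : ℝ) + 1) ^ 2) := by
          field_simp
        rw [h20]
        exact mul_le_mul_of_nonneg_left h19 (by positivity)
      have hk2 : k0 ^ 2 = 16 * (((E / 16 / m : ℕ) : ℝ) + 1) ^ 2 := by rw [hk0]; ring
      have h21 : 4 * C3 * k0 ^ 2 ≤ η' ^ 3 * μ := by rw [hk2]; linarith
      have h22 : C3 * A * (μ + 1) ≤ η' / 2 * A * (μ * (η' / k0)) ^ 2 := by
        have h23 : C3 * (μ + 1) ≤ η' / 2 * (μ * (η' / k0)) ^ 2 := by
          have h24 : η' / 2 * (μ * (η' / k0)) ^ 2 = η' ^ 3 * μ * μ / (2 * k0 ^ 2) := by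
            field_simp
          rw [h24, le_div_iff₀ (by positivity)]
          have h25 : 4 * C3 * k0 ^ 2 * μ ≤ η' ^ 3 * μ * μ := mul_le_mul_of_nonneg_right h21 hμ0
          have h26 : C3 * (μ + 1) * (2 * k0 ^ 2) ≤ 4 * C3 * k0 ^ 2 * μ := by
            have h27 : 0 ≤ C3 * k0 ^ 2 := by positivity
            nlinarith
          linarith
        calc C3 * A * (μ + 1) = A * (C3 * (μ + 1)) := by ring
          _ ≤ A * (η' / 2 * (μ * (η' / k0)) ^ 2) := mul_le_mul_of_nonneg_left h23 hA0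
          _ = η' / 2 * A * (μ * (η' / k0)) ^ 2 := by ring
      have h28 : 0 < (μ * (η' / k0)) ^ 2 := by positivity
      exact le_of_mul_le_mul_right (h17.trans h22) h28
  -- assembly
  have hlow : (1 - η') * D * (∑ n ∈ N, pj x w z j n - η' / 2 * A) ≤
      ∑ n ∈ N, pj x w z j n * DS' m q (E / 16) z P (Sn2 y z P n) := by
    have h7 : ∑ n ∈ N.filter good, pj x w z j n * ((1 - η') * D) ≤
        ∑ n ∈ N, pj x w z j n * DS' m q (E / 16) z P (Sn2 y z P n) := by
      refine le_trans (Finset.sum_le_sum (g := fun n =>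
        pj x w z j n * DS' m q (E / 16) z P (Sn2 y z P n)) fun n hn => ?_)
        (Finset.sum_le_sum_of_subset_of_nonneg (Finset.filter_subset _ _) fun n _ _ =>
          mul_nonneg (pj_nonneg _ _ _ _ _) (DS'_nonneg _ _ _ _ _ _))
      exact mul_le_mul_of_nonneg_left (hgoodD n (Finset.mem_filter.1 hn).2) (pj_nonneg _ _ _ _ _)
    rw [← Finset.sum_mul] at h7
    have h8 := Finset.sum_filter_add_sum_filter_not N good (fun n => pj x w z j n)
    have h9 : ∑ n ∈ N, pj x w z j n - η' / 2 * A ≤ ∑ n ∈ N.filter good, pj x w z j n := by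
      linarith
    have h10 : 0 ≤ (1 - η') * D := mul_nonneg (by linarith) (by linarith)
    calc (1 - η') * D * (∑ n ∈ N, pj x w z j n - η' / 2 * A) ≤
          (1 - η') * D * ∑ n ∈ N.filter good, pj x w z j n := mul_le_mul_of_nonneg_left h9 h10
      _ = (∑ n ∈ N.filter good, pj x w z j n) * ((1 - η') * D) := by ring
      _ ≤ _ := h7
  have hW : ∑ n ∈ N, pj x w z j n * Wt2 E z y P n ^ 2 =
      ∑ n ∈ N, pj x w z j n * W2 m q (E / 16) z y P n ^ 2 := rfl
  rw [hW]
  have h7 := (abs_le.1 hmain).1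
  have hS0 : 0 ≤ ∑ n ∈ N, pj x w z j n := Finset.sum_nonneg fun n _ => pj_nonneg _ _ _ _ _
  set s0 := ∑ n ∈ N, pj x w z j n with hs0
  set W := ∑ n ∈ N, pj x w z j n * W2 m q (E / 16) z y P n ^ 2 with hWd
  set V := ∑ n ∈ N, pj x w z j n * DS' m q (E / 16) z P (Sn2 y z P n) with hVd
  have h8 : (1 - η') * D * (s0 - η' / 2 * A) - η' / 2 * A ≤ W := by linarith
  refine le_trans ?_ h8
  have h9 : η' / 2 * A ≤ D * (η' / 2 * A) := le_mul_of_one_le_left (by positivity) hD1
  have h10 : D * ((1 - η) * s0 - η * A) ≤ D * ((1 - η') * (s0 - η' / 2 * A) - η' / 2 * A) := by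
    refine mul_le_mul_of_nonneg_left ?_ (by linarith)
    have e1 : (1 - η) * s0 ≤ (1 - η') * s0 := mul_le_mul_of_nonneg_right (by linarith) hS0
    have e2 : η' * A ≤ η * A := mul_le_mul_of_nonneg_right hη'2 hA0
    have e3 : 0 ≤ η' * (η' / 2 * A) := by positivity
    nlinarith
  calc D * ((1 - η) * s0 - η * A) ≤ D * ((1 - η') * (s0 - η' / 2 * A) - η' / 2 * A) := h10
    _ = (1 - η') * D * (s0 - η' / 2 * A) - D * (η' / 2 * A) := by ring
    _ ≤ (1 - η') * D * (s0 - η' / 2 * A) - η' / 2 * A := by linarith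

end Pool.Agent.Helper88.TW
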