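import Pool.Agent.Helper88.TW.TR
import Pool.Agent.Helper67.CG.WT

/-! # The weighted second moment with an arbitrary main term and a general condition (packet WT2)

Adapted from `Pool/Agent/Helper67/CG/WT.lean`. -/

set_option autoImplicit false

open Finset Filter Topology

open scoped Classical ArithmeticFunction.Moebius

namespace Pool.Agent.Helper88.TW

open Pool.Agent.Helper88.PP (pr Rg om Sf SS uu vv dd DL kap LL ww)
open Pool.Agent.Helper88.RR (nz)
open Pool.Agent.Helper88.CG (sg DS)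
open Pool.Agent.Helper76.TW
open Pool.Agent.Helper93.PP (LL_eq_zero J_eq DL_spec LL_Sf LL_le sum_pi_pi)
open Pool.Agent.Helper42.PP (mem_SS DL_mem LL_mem Qn fiber_card kap_le)
open Pool.Agent.Helper67.CG (cC cC_nonneg multi_le fiber_multi swap)

theorem wt : StmtWT2 := by
  intro ι _ _ pt R z X D K N w C G T c al hC hT h1 hD hK hal hal0 hc hsum
  set W : (ι → ℕ) → ℝ := fun L => ∑ n ∈ N, w n * ∏ i, icR R (L i) (n + pt i) with hW
  set M : (ι → ℕ) → ℝ := fun L => G (fun i => sg (L i)) * ∏ i, dd 1 (L i) with hM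
  set PL : (ι → ℕ) → Finset (ι → ℕ) := fun r => Fintype.piFinset (fun i => DL (r i)) with hPL
  have hsqf : ∀ r ∈ T, ∀ i, r i = 0 ∨ Squarefree (r i) := by
    intro r hr i
    rcases hT r hr i with h' | h'
    · exact Or.inl h'
    · exact Or.inr (Finset.mem_filter.1 h').2.1
  have hexp : ∀ r ∈ T, ∀ n, ∏ i, vR R (r i) (n + pt i) =
      ∑ d ∈ PL r, ∏ i, (kap (d i) * icR R (d i) (n + pt i)) := by
    intro r hr n
    rw [hPL]
    simp only
    rw [← Finset.prod_univ_sum (fun i => DL (r i)) (fun i a => kap a * icR R a (n + pt i))]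
    exact Finset.prod_congr rfl fun i _ => vR_eq (hsqf r hr i)
  have hsq : ∑ n ∈ N, w n * (∑ r ∈ T, c r * ∏ i, vR R (r i) (n + pt i)) ^ 2 =
      ∑ r ∈ T, ∑ s ∈ T, c r * c s * ∑ d ∈ PL r, ∑ e ∈ PL s,
        (∏ i, (kap (d i) * kap (e i))) * W (fun i => LL (d i) (e i)) := by
    have e1 : ∀ n ∈ N, w n * (∑ r ∈ T, c r * ∏ i, vR R (r i) (n + pt i)) ^ 2 =
        ∑ r ∈ T, ∑ s ∈ T, c r * c s * ∑ d ∈ PL r, ∑ e ∈ PL s,
          (∏ i, (kap (d i) * kap (e i))) *
            (w n * ∏ i, icR R (LL (d i) (e i)) (n + pt i)) := by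
      intro n _
      rw [sq, Finset.sum_mul_sum, Finset.mul_sum]
      refine Finset.sum_congr rfl fun r hr => ?_
      rw [Finset.mul_sum]
      refine Finset.sum_congr rfl fun s hs => ?_
      rw [hexp r hr n, hexp s hs n]
      rw [show ∀ a b u v : ℝ, w n * (a * u * (b * v)) = a * b * (w n * (u * v)) from
        fun a b u v => by ring, Finset.sum_mul_sum, Finset.mul_sum]
      congr 1
      refine Finset.sum_congr rfl fun d _ => ?_
      rw [Finset.mul_sum]
      refine Finset.sum_congr rfl fun e _ => ?_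
      have e2 : (∏ i, kap (d i) * icR R (d i) (n + pt i)) *
          (∏ i, kap (e i) * icR R (e i) (n + pt i)) =
          (∏ i, (kap (d i) * kap (e i))) * ∏ i, icR R (LL (d i) (e i)) (n + pt i) := by
        rw [← Finset.prod_mul_distrib, ← Finset.prod_mul_distrib]
        refine Finset.prod_congr rfl fun i _ => ?_
        rw [← icR_mul]
        ring
      rw [e2]
      ring
    rw [Finset.sum_congr rfl e1, Finset.sum_comm]
    refine Finset.sum_congr rfl fun r _ => ?_
    rw [Finset.sum_comm]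
    refine Finset.sum_congr rfl fun s _ => ?_
    rw [← Finset.mul_sum, Finset.sum_comm]
    congr 1
    refine Finset.sum_congr rfl fun d _ => ?_
    rw [Finset.sum_comm]
    refine Finset.sum_congr rfl fun e _ => ?_
    rw [← Finset.mul_sum]
  have hsg : ∀ r ∈ T, ∀ s ∈ T, ∀ d ∈ PL r, ∀ e ∈ PL s,
      (fun i => sg (LL (d i) (e i))) = (fun i => sg (r i + s i)) := by
    intro r hr s hs d hd e he
    funext i
    have b1 := (DL_spec (hT r hr i) ((Fintype.mem_piFinset.1 hd) i)).1
    have b2 := (DL_spec (hT s hs i) ((Fintype.mem_piFinset.1 he) i)).1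
    have b3 : LL (d i) (e i) = 0 ↔ r i + s i = 0 := by
      rw [LL_eq_zero, b1, b2, Nat.add_eq_zero_iff]
    unfold sg
    by_cases h2 : r i + s i = 0
    · rw [if_pos h2, if_pos (b3.2 h2)]
    · rw [if_neg h2, if_neg (fun h => h2 (b3.1 h))]
  have hmain : ∑ r ∈ T, c r ^ 2 * (G (fun i => sg (r i)) * ∏ i, ww 1 (r i)) =
      ∑ r ∈ T, ∑ s ∈ T, c r * c s * ∑ d ∈ PL r, ∑ e ∈ PL s,
        (∏ i, (kap (d i) * kap (e i))) * M (fun i => LL (d i) (e i)) := by
    have e1 : ∀ r ∈ T, ∀ s ∈ T, ∑ d ∈ PL r, ∑ e ∈ PL s,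
        (∏ i, (kap (d i) * kap (e i))) * M (fun i => LL (d i) (e i)) =
        G (fun i => sg (r i + s i)) * if r = s then ∏ i, ww 1 (r i) else 0 := by
      intro r hr s hs
      have e2 : ∑ d ∈ PL r, ∑ e ∈ PL s,
          (∏ i, (kap (d i) * kap (e i))) * M (fun i => LL (d i) (e i)) =
          G (fun i => sg (r i + s i)) *
            ∑ d ∈ PL r, ∑ e ∈ PL s, ∏ i, (kap (d i) * kap (e i) * dd 1 (LL (d i) (e i))) := by
        rw [Finset.mul_sum]
        refine Finset.sum_congr rfl fun d hd => ?_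
        rw [Finset.mul_sum]
        refine Finset.sum_congr rfl fun e he => ?_
        rw [hM]
        simp only
        rw [hsg r hr s hs d hd e he, Finset.prod_mul_distrib (f := fun i => kap (d i) * kap (e i))]
        ring
      rw [e2, hPL]
      simp only
      rw [sum_pi_pi (fun i => DL (r i)) (fun i => DL (s i))
        (fun _ a b => kap a * kap b * dd 1 (LL a b))]
      congr 1
      have e3 : ∀ i, ∑ a ∈ DL (r i), ∑ b ∈ DL (s i), kap a * kap b * dd 1 (LL a b) =
          if r i = s i then ww 1 (r i) else 0 := by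
        intro i
        refine J_eq 1 (hsqf r hr i) (hsqf s hs i) ?_ ?_
        · rintro ⟨h2, h3⟩
          exact h1 r hr s hs i h2 h3
        · rintro ⟨h2, h3⟩
          exact h1 s hs r hr i h3 h2
      rw [Finset.prod_congr rfl fun i _ => e3 i]
      by_cases hrs : r = s
      · subst hrs
        simp
      · rw [if_neg hrs]
        obtain ⟨i, hi⟩ := Function.ne_iff.1 hrs
        exact Finset.prod_eq_zero (Finset.mem_univ i) (if_neg hi)
    refine Finset.sum_congr rfl fun r hr => ?_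
    rw [Finset.sum_eq_single r]
    · rw [e1 r hr r hr, if_pos rfl]
      have e4 : (fun i => sg (r i + r i)) = (fun i => sg (r i)) := by
        funext i
        unfold sg
        by_cases h2 : r i = 0
        · rw [if_pos h2, if_pos (by omega)]
        · rw [if_neg h2, if_neg (by omega)]
      rw [e4]
      ring
    · intro s hs hsr
      rw [e1 r hr s hs, if_neg hsr.symm, mul_zero, mul_zero]
    · intro hr'
      exact absurd hr hr'
  -- the labels of the products
  have hDS : ∀ r ∈ T, ∀ s ∈ T, ∀ d ∈ PL r, ∀ e ∈ PL s,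
      (fun i => LL (d i) (e i)) ∈ (DS z D K : Finset (ι → ℕ)) := by
    intro r hr s hs d hd e he
    have hd' : ∀ i, d i ∈ DL (r i) := fun i => (Fintype.mem_piFinset.1 hd) i
    have he' : ∀ i, e i ∈ DL (s i) := fun i => (Fintype.mem_piFinset.1 he) i
    have k1 : ∀ i, LL (d i) (e i) = 0 ∨ Sf z (LL (d i) (e i)) := fun i =>
      LL_Sf (DL_spec (hT r hr i) (hd' i)).2.1 (DL_spec (hT s hs i) (he' i)).2.1
    have k2 : ∏ i, max 1 (LL (d i) (e i)) ≤ D := by
      have a1 : ∏ i, max 1 (LL (d i) (e i)) ≤ (∏ i, max 1 (r i)) * ∏ i, max 1 (s i) := by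
        rw [← Finset.prod_mul_distrib]
        refine Finset.prod_le_prod' fun i _ => ?_
        refine (LL_le _ _).trans (Nat.mul_le_mul ?_ ?_)
        · exact max_le_max le_rfl (DL_spec (hT r hr i) (hd' i)).2.2
        · exact max_le_max le_rfl (DL_spec (hT s hs i) (he' i)).2.2
      have a2 := hD r hr
      have a3 := hD s hs
      rcases le_total (∏ i, max 1 (r i)) (∏ i, max 1 (s i)) with h4 | h4
      · refine a1.trans ((Nat.mul_le_mul h4 le_rfl).trans ?_)
        rw [← sq]; exact a3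
      · refine a1.trans ((Nat.mul_le_mul le_rfl h4).trans ?_)
        rw [← sq]; exact a2
    have k3 : nz (fun i => LL (d i) (e i)) ≤ K := by
      have a1 : (univ.filter (fun i => LL (d i) (e i) ≠ 0)) =
          (univ.filter (fun i => r i ≠ 0 ∨ s i ≠ 0)) := by
        refine Finset.filter_congr fun i _ => ?_
        have b1 := (DL_spec (hT r hr i) (hd' i)).1
        have b2 := (DL_spec (hT s hs i) (he' i)).1
        rw [Ne, LL_eq_zero, b1, b2, not_and_or]
      unfold nz
      rw [a1]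
      exact hK r hr s hs
    unfold DS
    rw [mem_filter, Fintype.mem_piFinset]
    refine ⟨fun i => ?_, k2, k3⟩
    rw [mem_insert]
    rcases k1 i with h2 | h2
    · exact Or.inl h2
    · right
      rw [mem_SS]
      have h3 : max 1 (LL (d i) (e i)) ≤ ∏ j, max 1 (LL (d j) (e j)) :=
        Finset.single_le_prod' (f := fun j => max 1 (LL (d j) (e j)))
          (fun j _ => le_max_left _ _) (Finset.mem_univ i)
      have h4 := h3.trans k2
      have h5 : LL (d i) (e i) ≠ 0 := h2.1.ne_zero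
      have h6 := le_max_right 1 (LL (d i) (e i))
      exact ⟨Nat.one_le_iff_ne_zero.2 h5, by omega, h2⟩
  set E : (ι → ℕ) → ℝ := fun L => |W L - M L| with hE
  set E' : (ι → ℕ) → ℝ := fun L => if L ∈ (DS z D K : Finset (ι → ℕ)) then E L else 0 with hE'
  have hE'n : ∀ L, 0 ≤ E' L := by
    intro L
    rw [hE']
    simp only
    split_ifs
    · exact abs_nonneg _
    · exact le_rfl
  have hgoal : ∑ r ∈ T, c r ^ 2 * (G (fun i => sg (r i)) *
        ∏ i, (if r i = 0 then 1 else (Nat.totient (r i) : ℝ))) =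
      ∑ r ∈ T, c r ^ 2 * (G (fun i => sg (r i)) * ∏ i, ww 1 (r i)) := by
    refine Finset.sum_congr rfl fun r _ => ?_
    congr 2
    refine Finset.prod_congr rfl fun i _ => ?_
    unfold ww
    rw [one_mul]
  rw [hgoal, hsq, hmain, ← Finset.sum_sub_distrib]
  have hfin : ∀ r ∈ T, ∀ s ∈ T,
      |c r * c s * ∑ d ∈ PL r, ∑ e ∈ PL s,
        (∏ i, (kap (d i) * kap (e i))) * W (fun i => LL (d i) (e i)) -
       c r * c s * ∑ d ∈ PL r, ∑ e ∈ PL s,
        (∏ i, (kap (d i) * kap (e i))) * M (fun i => LL (d i) (e i))| ≤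
      (∏ i, al i (r i)) * (∏ i, al i (s i)) * ∑ d ∈ PL r, ∑ e ∈ PL s,
        (∏ i, |kap (d i)|) * (∏ i, |kap (e i)|) * E' (fun i => LL (d i) (e i)) := by
    intro r hr s hs
    rw [← mul_sub, ← Finset.sum_sub_distrib, abs_mul]
    have a1 : |c r * c s| ≤ (∏ i, al i (r i)) * (∏ i, al i (s i)) := by
      rw [abs_mul]
      exact mul_le_mul (hc r hr) (hc s hs) (abs_nonneg _)
        (Finset.prod_nonneg fun i _ => hal i _)
    have a2 : |∑ d ∈ PL r, (∑ e ∈ PL s,
        (∏ i, (kap (d i) * kap (e i))) * W (fun i => LL (d i) (e i)) -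
          ∑ e ∈ PL s, (∏ i, (kap (d i) * kap (e i))) * M (fun i => LL (d i) (e i)))| ≤
        ∑ d ∈ PL r, ∑ e ∈ PL s,
        (∏ i, |kap (d i)|) * (∏ i, |kap (e i)|) * E' (fun i => LL (d i) (e i)) := by
      refine (Finset.abs_sum_le_sum_abs _ _).trans ?_
      refine Finset.sum_le_sum fun d hd => ?_
      rw [← Finset.sum_sub_distrib]
      refine (Finset.abs_sum_le_sum_abs _ _).trans ?_
      refine Finset.sum_le_sum fun e he => ?_
      rw [← mul_sub, abs_mul, Finset.abs_prod]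
      have b0 : E' (fun i => LL (d i) (e i)) =
          |W (fun i => LL (d i) (e i)) - M (fun i => LL (d i) (e i))| := by
        rw [hE']
        simp only
        rw [if_pos (hDS r hr s hs d hd e he)]
      have b1 : ∏ i, |kap (d i) * kap (e i)| = (∏ i, |kap (d i)|) * ∏ i, |kap (e i)| := by
        rw [← Finset.prod_mul_distrib]
        exact Finset.prod_congr rfl fun i _ => abs_mul _ _
      rw [b0, b1]
    exact mul_le_mul a1 a2 (abs_nonneg _)
      (mul_nonneg (Finset.prod_nonneg fun i _ => hal i _) (Finset.prod_nonneg fun i _ => hal i _))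
  have hstep1 : |∑ r ∈ T, (∑ s ∈ T, c r * c s * ∑ d ∈ PL r, ∑ e ∈ PL s,
        (∏ i, (kap (d i) * kap (e i))) * W (fun i => LL (d i) (e i)) -
        ∑ s ∈ T, c r * c s * ∑ d ∈ PL r, ∑ e ∈ PL s,
        (∏ i, (kap (d i) * kap (e i))) * M (fun i => LL (d i) (e i)))| ≤
      ∑ r ∈ T, ∑ s ∈ T, (∏ i, al i (r i)) * (∏ i, al i (s i)) * ∑ d ∈ PL r, ∑ e ∈ PL s,
        (∏ i, |kap (d i)|) * (∏ i, |kap (e i)|) * E' (fun i => LL (d i) (e i)) := by
    refine (Finset.abs_sum_le_sum_abs _ _).trans (Finset.sum_le_sum fun r hr => ?_)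
    rw [← Finset.sum_sub_distrib]
    exact (Finset.abs_sum_le_sum_abs _ _).trans
      (Finset.sum_le_sum fun s hs => hfin r hr s hs)
  refine hstep1.trans ?_
  set U : Finset (ι → ℕ) := Fintype.piFinset (fun _ : ι => insert 0 (SS z X)) with hU
  have hPU : ∀ r ∈ T, PL r ⊆ U := by
    intro r hr d hd
    rw [hU, Fintype.mem_piFinset]
    intro i
    exact (DL_mem (mem_insert.2 (hT r hr i)) ((Fintype.mem_piFinset.1 hd) i)).1
  rw [swap T U PL hPU (fun r => ∏ i, al i (r i)) (fun d => ∏ i, |kap (d i)|)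
    (fun d e => E' (fun i => LL (d i) (e i)))]
  have hml : ∀ d ∈ U, (∏ i, |kap (d i)|) * ∑ r ∈ T.filter (fun r => d ∈ PL r),
      ∏ i, al i (r i) ≤ ∏ i, cC C (d i) := fun d hd =>
    multi_le T al hal hal0 hT hsum d (fun i => (Fintype.mem_piFinset.1 hd) i)
  have hnn : ∀ d : ι → ℕ, 0 ≤ (∏ i, |kap (d i)|) * ∑ r ∈ T.filter (fun r => d ∈ PL r),
      ∏ i, al i (r i) := fun d =>
    mul_nonneg (Finset.prod_nonneg fun i _ => abs_nonneg _)
      (Finset.sum_nonneg fun r _ => Finset.prod_nonneg fun i _ => hal i _)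
  have hcn : ∀ d : ι → ℕ, 0 ≤ ∏ i, cC C (d i) := fun d =>
    Finset.prod_nonneg fun i _ => cC_nonneg hC _
  have hstep2 : ∑ d ∈ U, ∑ e ∈ U, ((∏ i, |kap (d i)|) * ∑ r ∈ T.filter (fun r => d ∈ PL r),
        ∏ i, al i (r i)) * ((∏ i, |kap (e i)|) * ∑ s ∈ T.filter (fun s => e ∈ PL s),
        ∏ i, al i (s i)) * E' (fun i => LL (d i) (e i)) ≤
      ∑ d ∈ U, ∑ e ∈ U, (∏ i, cC C (d i)) * (∏ i, cC C (e i)) *
        E' (fun i => LL (d i) (e i)) := by
    refine Finset.sum_le_sum fun d hd => Finset.sum_le_sum fun e he => ?_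
    refine mul_le_mul_of_nonneg_right ?_ (hE'n _)
    exact mul_le_mul (hml d hd) (hml e he) (hnn e) (hcn d)
  refine hstep2.trans ?_
  rw [← Finset.sum_product' U U (fun (d e : ι → ℕ) => (∏ i, cC C (d i)) * (∏ i, cC C (e i)) *
        E' (fun i => LL (d i) (e i)))]
  have hstep3 : ∑ q ∈ U ×ˢ U, (∏ i, cC C (q.1 i)) * (∏ i, cC C (q.2 i)) *
        E' (fun i => LL (q.1 i) (q.2 i)) =
      ∑ L ∈ (DS z D K : Finset (ι → ℕ)), ∑ q ∈ (U ×ˢ U).filter
        (fun q => (fun i => LL (q.1 i) (q.2 i)) = L),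
        (∏ i, cC C (q.1 i)) * (∏ i, cC C (q.2 i)) * E L := by
    have g1 : ∑ q ∈ U ×ˢ U, (∏ i, cC C (q.1 i)) * (∏ i, cC C (q.2 i)) *
        E' (fun i => LL (q.1 i) (q.2 i)) =
      ∑ q ∈ (U ×ˢ U).filter (fun q => (fun i => LL (q.1 i) (q.2 i)) ∈
        (DS z D K : Finset (ι → ℕ))), (∏ i, cC C (q.1 i)) * (∏ i, cC C (q.2 i)) *
        E (fun i => LL (q.1 i) (q.2 i)) := by
      rw [Finset.sum_filter]
      refine Finset.sum_congr rfl fun q _ => ?_
      rw [hE']
      simp only
      split_ifs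
      · rfl
      · rw [mul_zero]
    rw [g1, ← Finset.sum_fiberwise_of_maps_to (g := fun q : (ι → ℕ) × (ι → ℕ) =>
      (fun i => LL (q.1 i) (q.2 i))) (t := (DS z D K : Finset (ι → ℕ)))
      (fun q hq => (Finset.mem_filter.1 hq).2)]
    refine Finset.sum_congr rfl fun L hL => ?_
    rw [Finset.filter_filter]
    refine Finset.sum_congr ?_ fun q hq => ?_
    · refine Finset.filter_congr fun q _ => ?_
      constructor
      · rintro ⟨_, h3⟩
        exact h3
      · intro h3
        exact ⟨h3 ▸ hL, h3⟩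
    · rw [(Finset.mem_filter.1 hq).2]
  rw [hstep3]
  refine Finset.sum_le_sum fun L _ => ?_
  rw [← Finset.sum_mul]
  exact mul_le_mul_of_nonneg_right (fiber_multi hC L) (abs_nonneg _)

end Pool.Agent.Helper88.TW
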