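import Pool.Agent.Helper76.TW.Goals
import Pool.Agent.Helper46.TU.ERa

/-!
# The error term (packet ER2), part A: the sum over the labels

Adapted from `Pool/Agent/Helper46/TU/ERa.lean`.
-/

set_option autoImplicit false

open Finset Filter Topology

open scoped Classical

namespace Pool.Agent.Helper88.TW

open Pool.Agent.Helper88.CG (tw pw th DS sg)
open Pool.Agent.Helper88.TU (AA Su)
open Pool.Agent.Helper88.PP (pr Rg om Sf SS QQ XX)
open Pool.Agent.Helper88.RR (nz gg)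
open Pool.Agent.Helper88.GM (NI XI)
open Pool.Agent.Helper64.RR (mem_pr sum_pr_le fact_est)
open Pool.Agent.Helper53.CG (mem_SS sum_pow_le_exp H_le hh hh_nonneg mem_DS prod_ite_nz S_le Cop
  fiber_le noncop_le worst card_small cop_prod w_split w_hh inv_D group_le tot_rough)
open Pool.Agent.Helper46.TU (hh_om TT)

/-- the sum over the coprime labels -/
theorem cop_sum (x y z K Dm E : ℕ) (P : Finset ℕ) (F : (P → ℕ) → ℝ) (a X c xx e0 o : ℝ)
    (ha : 1 ≤ a) (hX0 : 0 ≤ X) (hz : 2 * (2 * (E / 16)) ≤ z) (hz2 : 2 ≤ z) (hDm : Dm = z ^ (2 * (E / 16)))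
    (hsg : ∀ d : P → ℕ, 0 ≤ F d ∧ F d ≤ 2 * X)
    (hxx : 0 ≤ xx) (Q : ℕ) (hQ : 0 < Q) (he0 : 0 ≤ e0) (ho : 0 ≤ o)
    (hgg : ∀ k ≤ K, gg y z (2 * k + 2) ≤ o ^ (k + 1))
    (hEB : ∀ d ∈ (DS z Dm K : Finset (P → ℕ)), Cop d → ∃ f : Finset ℕ → ℕ,
      (∀ A ∈ AA E y z, Nat.Coprime (f A) (Q * (∏ p ∈ A, p) * ∏ i, max 1 (d i))) ∧
      |F d - F (fun i => sg (d i)) /
          (Nat.totient (∏ i, max 1 (d i)) : ℝ)|
      ≤ ∑ A ∈ AA E y z, ((2 * nz d + 1 : ℕ) : ℝ) ^ A.card *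
          |th x (Q * (∏ p ∈ A, p) * ∏ i, max 1 (d i)) (f A)
            - th x (Q * ∏ p ∈ A, p) (f A) / (Nat.totient (∏ i, max 1 (d i)) : ℝ)|
        + e0 * (X * gg y z (2 * nz d + 2) / (Nat.totient (∏ i, max 1 (d i)) : ℝ)))
    (hTE : ∀ A ∈ AA E y z, ∀ f : ℕ → ℕ,
      (∀ D ∈ SS z (Dm + 1), Nat.Coprime (f D) (Q * (∏ p ∈ A, p) * D)) →
      ∑ D ∈ SS z (Dm + 1), ((3 * K : ℕ) : ℝ) ^ D.primeFactors.card *
        |th x (Q * (∏ p ∈ A, p) * D) (f D) - th x (Q * ∏ p ∈ A, p) (f D) / (Nat.totient D : ℝ)|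
      ≤ c * (xx / ((Q * ∏ p ∈ A, p : ℕ) : ℝ))) (hc : 0 ≤ c) :
    ∑ d ∈ (DS z Dm K : Finset (P → ℕ)).filter (fun d => Cop d),
      (∏ i, (if d i = 0 then 1 else a * 3 ^ (d i).primeFactors.card)) *
      |F d - F (fun i => sg (d i)) *
          ∏ i, (if d i = 0 then 1 else 1 / (d i : ℝ))| ≤
    ((Fintype.card P + 1 : ℕ) : ℝ) ^ K * a ^ K *
        (c * (xx / Q) * Real.exp (((2 * K + 1 : ℕ) : ℝ) * ∑ p ∈ pr y z, 1 / (p : ℝ)))
      + 2 * e0 * X * o * (∑ d ∈ (DS z Dm K : Finset (P → ℕ)), ∏ i, hh (a * o) (d i))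
      + 2 * X * (2 * E / z) * (∑ d ∈ (DS z Dm K : Finset (P → ℕ)), ∏ i, hh a (d i)) := by
  set DC := (DS z Dm K : Finset (P → ℕ)).filter (fun d => Cop d) with hDC
  set S := ∑ d ∈ (DS z Dm K : Finset (P → ℕ)), ∏ i, hh a (d i) with hS
  set S' := ∑ d ∈ (DS z Dm K : Finset (P → ℕ)), ∏ i, hh (a * o) (d i) with hS'
  set σ := ∑ p ∈ pr y z, 1 / (p : ℝ) with hσ
  set PA := AA E y z with hPA
  have hPAs : PA ⊆ (pr y z).powerset := filter_subset _ _
  set W : (P → ℕ) → ℝ := fun d => ∏ i, (if d i = 0 then 1 else a * 3 ^ (d i).primeFactors.card)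
    with hW
  set DD : (P → ℕ) → ℕ := fun d => ∏ i, max 1 (d i) with hDD
  have hσ0 : 0 ≤ σ := Finset.sum_nonneg fun p _ => by positivity
  have hW0 : ∀ d, 0 ≤ W d := fun d => Finset.prod_nonneg fun i _ => by
    split_ifs
    · norm_num
    · positivity
  have hDD1 : ∀ d, 1 ≤ DD d := fun d => Finset.one_le_prod' fun i _ => le_max_left _ _
  have hex : ∀ d : P → ℕ, ∃ f : Finset ℕ → ℕ, d ∈ DC →
      (∀ A ∈ PA, Nat.Coprime (f A) (Q * (∏ p ∈ A, p) * DD d)) ∧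
      |F d - F (fun i => sg (d i)) *
          ∏ i, (if d i = 0 then 1 else 1 / (d i : ℝ))| ≤
        ∑ A ∈ PA, ((2 * K + 1 : ℕ) : ℝ) ^ A.card * TT x (Q * ∏ p ∈ A, p) (DD d) (f A)
        + 2 * e0 * X * o * o ^ nz d * (1 / (DD d : ℝ))
        + 2 * X * (2 * E / z) * (1 / (DD d : ℝ)) := by
    intro d
    by_cases hd : d ∈ DC
    · obtain ⟨hd1, hd2⟩ := mem_filter.1 hd
      obtain ⟨f, hf1, hf2⟩ := hEB d hd1 hd2
      refine ⟨f, fun _ => ⟨hf1, ?_⟩⟩
      obtain ⟨hm1, hm2, hm3⟩ := mem_DS.1 hd1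
      have hcp := (cop_prod hd1 hd2).1
      have hsf := (mem_SS.1 hcp).2.2
      have hDle : DD d ≤ Dm := hm2
      have htot := tot_rough z (DD d) (2 * (E / 16)) hz hz2 hsf (hDm ▸ hDle)
      obtain ⟨ht1, ht2, ht3⟩ := htot
      have hD0 : (0 : ℝ) < DD d := by exact_mod_cast hDD1 d
      have hnz : ((2 * nz d + 1 : ℕ) : ℝ) ≤ ((2 * K + 1 : ℕ) : ℝ) := by
        exact_mod_cast (by omega : 2 * nz d + 1 ≤ 2 * K + 1)
      have hnz0 : (0 : ℝ) ≤ ((2 * nz d + 1 : ℕ) : ℝ) := Nat.cast_nonneg _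
      have hz0 : (0 : ℝ) < z := by
        have : 0 < z := by omega
        exact_mod_cast this
      rw [inv_D]
      have htri : |F d - F (fun i => sg (d i)) * (1 / ((∏ i, max 1 (d i) : ℕ) : ℝ))|
          ≤ |F d - F (fun i => sg (d i)) /
            (Nat.totient (∏ i, max 1 (d i)) : ℝ)| +
            F (fun i => sg (d i)) *
              (1 / (Nat.totient (DD d) : ℝ) - 1 / (DD d : ℝ)) := by
        have e0 : 0 ≤ F (fun i => sg (d i)) *
              (1 / (Nat.totient (DD d) : ℝ) - 1 / (DD d : ℝ)) :=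
          mul_nonneg (hsg _).1 (by linarith)
        calc |F d - F (fun i => sg (d i)) * (1 / ((∏ i, max 1 (d i) : ℕ) : ℝ))|
            = |(F d - F (fun i => sg (d i)) /
            (Nat.totient (∏ i, max 1 (d i)) : ℝ)) + F (fun i => sg (d i)) *
              (1 / (Nat.totient (DD d) : ℝ) - 1 / (DD d : ℝ))| := by
                congr 1
                simp only [hDD]
                ring
          _ ≤ _ := by
                refine (abs_add_le _ _).trans ?_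
                rw [abs_of_nonneg e0]
      refine htri.trans ?_
      have e1 : F (fun i => sg (d i)) *
              (1 / (Nat.totient (DD d) : ℝ) - 1 / (DD d : ℝ)) ≤
          2 * X * (2 * E / z) * (1 / (DD d : ℝ)) := by
        have e2 : ((2 * (E / 16) : ℕ) : ℝ) ≤ E := by
          have : 2 * (E / 16) ≤ E := by omega
          exact_mod_cast this
        calc F (fun i => sg (d i)) *
              (1 / (Nat.totient (DD d) : ℝ) - 1 / (DD d : ℝ))
            ≤ (2 * X) * (2 * ((2 * (E / 16) : ℕ) : ℝ) / z * (1 / (DD d : ℝ))) :=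
              mul_le_mul (hsg _).2 ht1 (by linarith) (by linarith)
          _ ≤ (2 * X) * (2 * E / z * (1 / (DD d : ℝ))) := by gcongr
          _ = _ := by ring
      have e3 : e0 * (X * gg y z (2 * nz d + 2) / (Nat.totient (∏ i, max 1 (d i)) : ℝ)) ≤
          2 * e0 * X * o * o ^ nz d * (1 / (DD d : ℝ)) := by
        have e5 := hgg (nz d) hm3
        have e6 : (0 : ℝ) ≤ 1 / (Nat.totient (DD d) : ℝ) := by positivity
        calc e0 * (X * gg y z (2 * nz d + 2) / (Nat.totient (∏ i, max 1 (d i)) : ℝ))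
            = e0 * X * gg y z (2 * nz d + 2) * (1 / (Nat.totient (DD d) : ℝ)) := by
              simp only [hDD]
              ring
          _ ≤ e0 * X * o ^ (nz d + 1) * (1 / (Nat.totient (DD d) : ℝ)) := by gcongr
          _ ≤ e0 * X * o ^ (nz d + 1) * (2 * (1 / (DD d : ℝ))) := by gcongr
          _ = _ := by ring
      have e6 : ∑ A ∈ PA, ((2 * nz d + 1 : ℕ) : ℝ) ^ A.card *
          |th x (Q * (∏ p ∈ A, p) * ∏ i, max 1 (d i)) (f A)
            - th x (Q * ∏ p ∈ A, p) (f A) / (Nat.totient (∏ i, max 1 (d i)) : ℝ)| ≤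
          ∑ A ∈ PA, ((2 * K + 1 : ℕ) : ℝ) ^ A.card * TT x (Q * ∏ p ∈ A, p) (DD d) (f A) := by
        refine Finset.sum_le_sum fun A _ => ?_
        rw [TT]
        exact mul_le_mul_of_nonneg_right (pow_le_pow_left₀ hnz0 hnz _) (abs_nonneg _)
      linarith
    · exact ⟨fun _ => 1, fun h => absurd h hd⟩
  choose f hf using hex
  have hle : ∑ d ∈ DC, W d *
      |F d - F (fun i => sg (d i)) *
          ∏ i, (if d i = 0 then 1 else 1 / (d i : ℝ))| ≤
      ∑ d ∈ DC, (W d * ∑ A ∈ PA, ((2 * K + 1 : ℕ) : ℝ) ^ A.card * TT x (Q * ∏ p ∈ A, p) (DD d) (f d A)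
        + (2 * e0 * X * o) * ∏ i, hh (a * o) (d i)
        + (2 * X * (2 * E / z)) * ∏ i, hh a (d i)) := by
    refine Finset.sum_le_sum fun d hd => ?_
    refine (mul_le_mul_of_nonneg_left (hf d hd).2 (hW0 d)).trans (le_of_eq ?_)
    rw [hh_om, w_hh]
    simp only [hW, hDD]
    ring
  refine hle.trans ?_
  rw [Finset.sum_add_distrib, Finset.sum_add_distrib, ← Finset.mul_sum, ← Finset.mul_sum]
  have hSle : ∑ d ∈ DC, ∏ i, hh a (d i) ≤ S :=
    Finset.sum_le_sum_of_subset_of_nonneg (filter_subset _ _) fun d _ _ =>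
      Finset.prod_nonneg fun i _ => hh_nonneg (by linarith) _
  have hSle' : ∑ d ∈ DC, ∏ i, hh (a * o) (d i) ≤ S' :=
    Finset.sum_le_sum_of_subset_of_nonneg (filter_subset _ _) fun d _ _ =>
      Finset.prod_nonneg fun i _ => hh_nonneg (mul_nonneg (by linarith) ho) _
  have hpart2 := mul_le_mul_of_nonneg_left hSle (show 0 ≤ 2 * X * (2 * E / z) by positivity)
  have hpart3 := mul_le_mul_of_nonneg_left hSle' (show 0 ≤ 2 * e0 * X * o by positivity)
  have hpart1 : ∑ d ∈ DC, W d * ∑ A ∈ PA, ((2 * K + 1 : ℕ) : ℝ) ^ A.card * TT x (Q * ∏ p ∈ A, p) (DD d) (f d A) ≤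
      ((Fintype.card P + 1 : ℕ) : ℝ) ^ K * a ^ K * (c * (xx / Q) * Real.exp (((2 * K + 1 : ℕ) : ℝ) * σ)) := by
    have e1 : ∑ d ∈ DC, W d * ∑ A ∈ PA, ((2 * K + 1 : ℕ) : ℝ) ^ A.card * TT x (Q * ∏ p ∈ A, p) (DD d) (f d A) =
        ∑ A ∈ PA, ((2 * K + 1 : ℕ) : ℝ) ^ A.card *
          ∑ d ∈ DC, W d * TT x (Q * ∏ p ∈ A, p) (DD d) (f d A) := by
      simp only [Finset.mul_sum]
      rw [Finset.sum_comm]
      refine Finset.sum_congr rfl fun A _ => Finset.sum_congr rfl fun d _ => ?_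
      ring
    rw [e1]
    have e2 : ∀ A ∈ PA, ∑ d ∈ DC, W d * TT x (Q * ∏ p ∈ A, p) (DD d) (f d A) ≤
        ((Fintype.card P + 1 : ℕ) : ℝ) ^ K * a ^ K * (c * (xx / ((Q * ∏ p ∈ A, p : ℕ) : ℝ))) := by
      intro A hA
      obtain ⟨b, hb1, hb2⟩ := worst DC DD (fun d => f d A) (TT x (Q * ∏ p ∈ A, p))
        (fun D u => Nat.Coprime u (Q * (∏ p ∈ A, p) * D)) (fun D => Nat.coprime_one_left _)
        (fun d hd => (hf d hd).1 A hA)
      calc ∑ d ∈ DC, W d * TT x (Q * ∏ p ∈ A, p) (DD d) (f d A)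
          ≤ ∑ d ∈ DC, W d * TT x (Q * ∏ p ∈ A, p) (DD d) (b (DD d)) :=
            Finset.sum_le_sum fun d hd => mul_le_mul_of_nonneg_left (hb2 d hd) (hW0 d)
        _ ≤ ((Fintype.card P + 1 : ℕ) : ℝ) ^ K * a ^ K *
            ∑ D ∈ SS z (Dm + 1), ((3 * K : ℕ) : ℝ) ^ D.primeFactors.card *
              TT x (Q * ∏ p ∈ A, p) D (b D) :=
            group_le z Dm K a ha (fun D => TT x (Q * ∏ p ∈ A, p) D (b D)) (fun D => abs_nonneg _)
        _ ≤ _ := by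
            apply mul_le_mul_of_nonneg_left _ (by positivity)
            exact hTE A hA b fun D _ => hb1 D
    have e3 : ∑ A ∈ PA, ((2 * K + 1 : ℕ) : ℝ) ^ A.card *
          ∑ d ∈ DC, W d * TT x (Q * ∏ p ∈ A, p) (DD d) (f d A) ≤
        ∑ A ∈ PA, (((Fintype.card P + 1 : ℕ) : ℝ) ^ K * a ^ K * (c * (xx / Q))) *
          ∏ p ∈ A, (((2 * K + 1 : ℕ) : ℝ) * (1 / (p : ℝ))) := by
      refine Finset.sum_le_sum fun A hA => ?_
      refine (mul_le_mul_of_nonneg_left (e2 A hA) (by positivity)).trans (le_of_eq ?_)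
      rw [Finset.prod_mul_distrib, Finset.prod_const, Finset.prod_div_distrib,
        Finset.prod_const_one]
      push_cast
      have hQ' : (Q : ℝ) ≠ 0 := by exact_mod_cast hQ.ne'
      have hA0 : (∏ p ∈ A, (p : ℝ)) ≠ 0 := by
        apply Finset.prod_ne_zero_iff.2
        intro p hp
        have := (mem_pr.1 (mem_powerset.1 (hPAs hA) hp)).2.2.pos
        exact_mod_cast this.ne'
      field_simp
    refine e3.trans ?_
    rw [← Finset.mul_sum]
    have e4 : ∑ A ∈ PA, ∏ p ∈ A, (((2 * K + 1 : ℕ) : ℝ) * (1 / (p : ℝ))) ≤ Real.exp (((2 * K + 1 : ℕ) : ℝ) * σ) := by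
      calc ∑ A ∈ PA, ∏ p ∈ A, (((2 * K + 1 : ℕ) : ℝ) * (1 / (p : ℝ)))
          ≤ ∑ A ∈ (pr y z).powerset, ∏ p ∈ A, (((2 * K + 1 : ℕ) : ℝ) * (1 / (p : ℝ))) :=
            Finset.sum_le_sum_of_subset_of_nonneg hPAs fun A _ _ =>
              Finset.prod_nonneg fun p _ => by positivity
        _ ≤ Real.exp (∑ p ∈ pr y z, ((2 * K + 1 : ℕ) : ℝ) * (1 / (p : ℝ))) :=
            sum_pow_le_exp _ _ fun p _ => by positivity
        _ = _ := by rw [← Finset.mul_sum]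
    calc ((Fintype.card P + 1 : ℕ) : ℝ) ^ K * a ^ K * (c * (xx / Q)) *
          ∑ A ∈ PA, ∏ p ∈ A, (((2 * K + 1 : ℕ) : ℝ) * (1 / (p : ℝ)))
        ≤ ((Fintype.card P + 1 : ℕ) : ℝ) ^ K * a ^ K * (c * (xx / Q)) * Real.exp (((2 * K + 1 : ℕ) : ℝ) * σ) :=
          mul_le_mul_of_nonneg_left e4 (by positivity)
      _ = _ := by ring
  linarith

end Pool.Agent.Helper88.TW
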