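import Pool.Agent.Helper76.TW.Goals
import Pool.Agent.Helper69.RR.TR
import Pool.Agent.Helper93.PP.TR
import Pool.Agent.Helper42.PP.TRE

/-! # The second moment of a function given by labels, general condition (packet TR2)

Adapted from `Pool/Agent/Helper96/GM/TR.lean`: the condition `Rg y z` is now a general one. -/

set_option autoImplicit false

open Finset Filter Topology

open scoped Classical ArithmeticFunction.Moebius

namespace Pool.Agent.Helper88.TW

open Pool.Agent.Helper88.PP (pr Rg om Sf SS uu vv ee LA VV QQ NN XX cost nc dd DL kap LL ww StmtTRE)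
open Pool.Agent.Helper88.RR (nz)
open Pool.Agent.Helper76.TW
open Pool.Agent.Helper69.RR (dd_eq prod_dd prod_one ww_one)
open Pool.Agent.Helper93.PP (LL_eq_zero J_eq DL_spec LL_Sf LL_le dd_nonneg
  sum_pi_pi)

lemma vR_eq {R : ℕ → Prop} {r m : ℕ} (hr : r = 0 ∨ Squarefree r) :
    vR R r m = ∑ d ∈ DL r, kap d * icR R d m := by
  rcases eq_or_ne r 0 with h0 | h0
  · subst h0; simp [vR, DL, kap, icR]
  · have hsq := hr.resolve_left h0
    unfold vR DL
    rw [if_neg h0, if_neg h0]
    by_cases hR : R m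
    · rw [if_pos hR]
      unfold uu
      let f : ArithmeticFunction ℝ := ⟨fun d => if d ∣ m then (d : ℝ) else 0, by simp⟩
      have hf1 : ∀ d, f d = if d ∣ m then (d : ℝ) else 0 := fun d => rfl
      have hf : f.IsMultiplicative := by
        constructor
        · rw [hf1]; simp
        · intro a b hab
          rw [hf1, hf1, hf1]
          by_cases ha : a ∣ m
          · by_cases hb : b ∣ m
            · rw [if_pos ha, if_pos hb, if_pos (hab.mul_dvd_of_dvd_of_dvd ha hb)]
              push_cast; ring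
            · rw [if_neg hb, if_neg (fun h => hb ((dvd_mul_left b a).trans h)), mul_zero]
          · rw [if_neg ha, if_neg (fun h => ha ((dvd_mul_right a b).trans h)), zero_mul]
      have h1 := ArithmeticFunction.IsMultiplicative.prodPrimeFactors_one_sub_of_squarefree f hf hsq
      simp only [hf1] at h1
      rw [h1]
      refine Finset.sum_congr rfl fun d hd => ?_
      have hd0 : d ≠ 0 := (Nat.pos_of_mem_divisors hd).ne'
      unfold kap icR
      rw [if_neg hd0, if_neg hd0]
      by_cases hdm : d ∣ m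
      · rw [if_pos hdm, if_pos ⟨hdm, hR⟩, mul_one]
      · rw [if_neg hdm, if_neg (fun h => hdm h.1), mul_zero, mul_zero]
    · rw [if_neg hR]
      symm
      refine Finset.sum_eq_zero fun d hd => ?_
      have hd0 : d ≠ 0 := (Nat.pos_of_mem_divisors hd).ne'
      unfold icR
      rw [if_neg hd0, if_neg (fun h => hR h.2), mul_zero]

lemma icR_mul (R : ℕ → Prop) (d e m : ℕ) : icR R d m * icR R e m = icR R (LL d e) m := by
  unfold icR LL
  by_cases hd : d = 0
  · simp [hd]
  · by_cases he : e = 0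
    · simp [hd, he]
    · simp only [hd, he, if_false, Nat.lcm_ne_zero hd he]
      by_cases h1 : d ∣ m ∧ R m
      · by_cases h2 : e ∣ m ∧ R m
        · have h3 : Nat.lcm d e ∣ m ∧ R m := ⟨Nat.lcm_dvd h1.1 h2.1, h1.2⟩
          simp only [h1, h2, h3, and_self, if_true, mul_one]
        · have h3 : ¬ (Nat.lcm d e ∣ m ∧ R m) :=
            fun h => h2 ⟨(Nat.dvd_lcm_right d e).trans h.1, h.2⟩
          simp only [h2, h3, if_false, mul_zero]
      · have h3 : ¬ (Nat.lcm d e ∣ m ∧ R m) :=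
          fun h => h1 ⟨(Nat.dvd_lcm_left d e).trans h.1, h.2⟩
        simp only [h1, h3, if_false, zero_mul]

theorem tr_aux (h : StmtTRE) : StmtTR2 := by
  intro ι _ _ pt R z X D K N Y o δ C ga T c al BB hz hY ho hδ hC hga hT h1 hD hBB hK hal hal0 hc
    hsum hcount
  have hE := h ι z X K o δ C T al BB hz ho hδ hC hT hBB hK hal hal0 hsum
  have hBB' : ∀ B ∈ BB, B.card ≤ K := hK
  set cnt : (ι → ℕ) → ℝ := fun L =>
    ((N.filter (fun n => ∀ i, L i ≠ 0 → L i ∣ n + pt i ∧ R (n + pt i))).card : ℝ) with hcnt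
  set PL : (ι → ℕ) → Finset (ι → ℕ) := fun r => Fintype.piFinset (fun i => DL (r i)) with hPL
  have hind : ∀ L : ι → ℕ, ∑ n ∈ N, ∏ i, icR R (L i) (n + pt i) = cnt L := by
    intro L
    rw [hcnt]
    simp only [Finset.card_filter, Nat.cast_sum]
    refine Finset.sum_congr rfl fun n _ => ?_
    by_cases hn : ∀ i, L i ≠ 0 → L i ∣ n + pt i ∧ R (n + pt i)
    · rw [if_pos hn]
      push_cast
      refine Finset.prod_eq_one fun i _ => ?_
      unfold icR
      by_cases hi : L i = 0
      · rw [if_pos hi]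
      · rw [if_neg hi, if_pos (hn i hi)]
    · rw [if_neg hn]
      push Not at hn
      obtain ⟨i, hi, hi'⟩ := hn
      push_cast
      refine Finset.prod_eq_zero (Finset.mem_univ i) ?_
      unfold icR
      rw [if_neg hi, if_neg (fun hh => hi' hh.1 hh.2)]
  have hsqf : ∀ r ∈ T, ∀ i, r i = 0 ∨ Squarefree (r i) := by
    intro r hr i
    rcases hT r hr i with h' | h'
    · exact Or.inl h'
    · exact Or.inr (Finset.mem_filter.1 h').2.1
  have hexp : ∀ r ∈ T, ∀ n, ∏ i, vR R (r i) (n + pt i) =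
      ∑ d ∈ PL r, ∏ i, (kap (d i) * icR R (d i) (n + pt i)) := by
    intro r hr n
    rw [hPL]
    simp only
    rw [← Finset.prod_univ_sum (fun i => DL (r i)) (fun i a => kap a * icR R a (n + pt i))]
    exact Finset.prod_congr rfl fun i _ => vR_eq (hsqf r hr i)
  have hsq : ∑ n ∈ N, (∑ r ∈ T, c r * ∏ i, vR R (r i) (n + pt i)) ^ 2 =
      ∑ r ∈ T, ∑ s ∈ T, c r * c s * ∑ d ∈ PL r, ∑ e ∈ PL s,
        (∏ i, (kap (d i) * kap (e i))) * cnt (fun i => LL (d i) (e i)) := by
    have e1 : ∀ n ∈ N, (∑ r ∈ T, c r * ∏ i, vR R (r i) (n + pt i)) ^ 2 =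
        ∑ r ∈ T, ∑ s ∈ T, c r * c s * ∑ d ∈ PL r, ∑ e ∈ PL s,
          (∏ i, (kap (d i) * kap (e i))) * ∏ i, icR R (LL (d i) (e i)) (n + pt i) := by
      intro n _
      rw [sq, Finset.sum_mul_sum]
      refine Finset.sum_congr rfl fun r hr => Finset.sum_congr rfl fun s hs => ?_
      rw [hexp r hr n, hexp s hs n]
      rw [show ∀ a b u v : ℝ, a * u * (b * v) = a * b * (u * v) from fun a b u v => by ring,
        Finset.sum_mul_sum]
      congr 1
      refine Finset.sum_congr rfl fun d _ => Finset.sum_congr rfl fun e _ => ?_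
      rw [← Finset.prod_mul_distrib, ← Finset.prod_mul_distrib]
      refine Finset.prod_congr rfl fun i _ => ?_
      rw [← icR_mul]
      ring
    rw [Finset.sum_congr rfl e1, Finset.sum_comm]
    refine Finset.sum_congr rfl fun r _ => ?_
    rw [Finset.sum_comm]
    refine Finset.sum_congr rfl fun s _ => ?_
    rw [← Finset.mul_sum, Finset.sum_comm]
    congr 1
    refine Finset.sum_congr rfl fun d _ => ?_
    rw [Finset.sum_comm]
    refine Finset.sum_congr rfl fun e _ => ?_
    rw [← Finset.mul_sum, hind]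
  have hnz : ∀ r ∈ T, ∀ s ∈ T, ∀ d ∈ PL r, ∀ e ∈ PL s,
      (univ.filter (fun i => LL (d i) (e i) ≠ 0)) = (univ.filter (fun i => r i ≠ 0 ∨ s i ≠ 0)) := by
    intro r hr s hs d hd e he
    refine Finset.filter_congr fun i _ => ?_
    have b1 := (DL_spec (hT r hr i) ((Fintype.mem_piFinset.1 hd) i)).1
    have b2 := (DL_spec (hT s hs i) ((Fintype.mem_piFinset.1 he) i)).1
    rw [Ne, LL_eq_zero, b1, b2, not_and_or]
  have hmain : Y * ∑ r ∈ T, c r ^ 2 * (ga (univ.filter (fun i => r i ≠ 0)) * ∏ i, ww 1 (r i)) =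
      ∑ r ∈ T, ∑ s ∈ T, c r * c s * ∑ d ∈ PL r, ∑ e ∈ PL s,
        (∏ i, (kap (d i) * kap (e i))) *
          (Y * (ga (univ.filter (fun i => LL (d i) (e i) ≠ 0)) * ∏ i, dd 1 (LL (d i) (e i)))) := by
    have e1 : ∀ r ∈ T, ∀ s ∈ T, ∑ d ∈ PL r, ∑ e ∈ PL s,
        (∏ i, (kap (d i) * kap (e i))) *
          (Y * (ga (univ.filter (fun i => LL (d i) (e i) ≠ 0)) * ∏ i, dd 1 (LL (d i) (e i)))) =
        Y * (ga (univ.filter (fun i => r i ≠ 0 ∨ s i ≠ 0)) *
          if r = s then ∏ i, ww 1 (r i) else 0) := by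
      intro r hr s hs
      have e2 : ∑ d ∈ PL r, ∑ e ∈ PL s,
          (∏ i, (kap (d i) * kap (e i))) *
            (Y * (ga (univ.filter (fun i => LL (d i) (e i) ≠ 0)) * ∏ i, dd 1 (LL (d i) (e i)))) =
          Y * (ga (univ.filter (fun i => r i ≠ 0 ∨ s i ≠ 0)) *
            ∑ d ∈ PL r, ∑ e ∈ PL s, ∏ i, (kap (d i) * kap (e i) * dd 1 (LL (d i) (e i)))) := by
        rw [Finset.mul_sum, Finset.mul_sum]
        refine Finset.sum_congr rfl fun d hd => ?_
        rw [Finset.mul_sum, Finset.mul_sum]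
        refine Finset.sum_congr rfl fun e he => ?_
        rw [hnz r hr s hs d hd e he, Finset.prod_mul_distrib (f := fun i => kap (d i) * kap (e i))]
        ring
      rw [e2, hPL]
      simp only
      rw [sum_pi_pi (fun i => DL (r i)) (fun i => DL (s i))
        (fun _ a b => kap a * kap b * dd 1 (LL a b))]
      congr 2
      have e3 : ∀ i, ∑ a ∈ DL (r i), ∑ b ∈ DL (s i), kap a * kap b * dd 1 (LL a b) =
          if r i = s i then ww 1 (r i) else 0 := by
        intro i
        refine J_eq 1 (hsqf r hr i) (hsqf s hs i) ?_ ?_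
        · rintro ⟨h2, h3⟩
          exact h1 r hr s hs i h2 h3
        · rintro ⟨h2, h3⟩
          exact h1 s hs r hr i h3 h2
      rw [Finset.prod_congr rfl fun i _ => e3 i]
      by_cases hrs : r = s
      · subst hrs
        simp
      · rw [if_neg hrs]
        obtain ⟨i, hi⟩ := Function.ne_iff.1 hrs
        exact Finset.prod_eq_zero (Finset.mem_univ i) (if_neg hi)
    rw [Finset.mul_sum]
    refine Finset.sum_congr rfl fun r hr => ?_
    rw [Finset.sum_eq_single r]
    · rw [e1 r hr r hr, if_pos rfl]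
      have e4 : (univ.filter (fun i => r i ≠ 0 ∨ r i ≠ 0)) = univ.filter (fun i => r i ≠ 0) := by
        refine Finset.filter_congr fun i _ => ?_
        rw [or_self]
      rw [e4]
      ring
    · intro s hs hsr
      rw [e1 r hr s hs, if_neg hsr.symm, mul_zero, mul_zero, mul_zero]
    · intro hr'
      exact absurd hr hr'
  -- the error for one term
  have herr : ∀ r ∈ T, ∀ s ∈ T, ∀ d ∈ PL r, ∀ e ∈ PL s,
      |cnt (fun i => LL (d i) (e i)) -
          Y * (ga (univ.filter (fun i => LL (d i) (e i) ≠ 0)) * ∏ i, dd 1 (LL (d i) (e i)))| ≤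
        (δ + nc (fun i => LL (d i) (e i))) * (Y * ∏ i, dd o (LL (d i) (e i))) := by
    intro r hr s hs d hd e he
    have hd' : ∀ i, d i ∈ DL (r i) := fun i => (Fintype.mem_piFinset.1 hd) i
    have he' : ∀ i, e i ∈ DL (s i) := fun i => (Fintype.mem_piFinset.1 he) i
    have k1 : ∀ i, LL (d i) (e i) = 0 ∨ Sf z (LL (d i) (e i)) := fun i =>
      LL_Sf (DL_spec (hT r hr i) (hd' i)).2.1 (DL_spec (hT s hs i) (he' i)).2.1
    have k2 : ∏ i, max 1 (LL (d i) (e i)) ≤ D := by
      have a1 : ∏ i, max 1 (LL (d i) (e i)) ≤ (∏ i, max 1 (r i)) * ∏ i, max 1 (s i) := by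
        rw [← Finset.prod_mul_distrib]
        refine Finset.prod_le_prod' fun i _ => ?_
        refine (LL_le _ _).trans (Nat.mul_le_mul ?_ ?_)
        · exact max_le_max le_rfl (DL_spec (hT r hr i) (hd' i)).2.2
        · exact max_le_max le_rfl (DL_spec (hT s hs i) (he' i)).2.2
      have a2 := hD r hr
      have a3 := hD s hs
      rcases le_total (∏ i, max 1 (r i)) (∏ i, max 1 (s i)) with h4 | h4
      · refine a1.trans ((Nat.mul_le_mul h4 le_rfl).trans ?_)
        rw [← sq]; exact a3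
      · refine a1.trans ((Nat.mul_le_mul le_rfl h4).trans ?_)
        rw [← sq]; exact a2
    have k3 : (univ.filter (fun i => LL (d i) (e i) ≠ 0)) ∈ BB := by
      have a1 : (univ.filter (fun i => LL (d i) (e i) ≠ 0)) =
          (univ.filter (fun i => r i ≠ 0 ∨ s i ≠ 0)) := by
        refine Finset.filter_congr fun i _ => ?_
        have b1 := (DL_spec (hT r hr i) (hd' i)).1
        have b2 := (DL_spec (hT s hs i) (he' i)).1
        rw [Ne, LL_eq_zero, b1, b2, not_and_or]
      rw [a1]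
      exact hBB r hr s hs
    obtain ⟨k4, k5⟩ := hcount (fun i => LL (d i) (e i)) k1 k2 k3
    have hdn : 0 ≤ Y * ∏ i, dd o (LL (d i) (e i)) :=
      mul_nonneg hY (Finset.prod_nonneg fun i _ => dd_nonneg ho _)
    by_cases hco : ∀ i j, i ≠ j → LL (d i) (e i) ≠ 0 → LL (d j) (e j) ≠ 0 →
        Nat.Coprime (LL (d i) (e i)) (LL (d j) (e j))
    · have a1 : nc (fun i => LL (d i) (e i)) = 0 := if_pos hco
      rw [a1, add_zero]
      exact k4 hco
    · have a1 : nc (fun i => LL (d i) (e i)) = 1 := if_neg hco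
      have a2 : cnt (fun i => LL (d i) (e i)) = 0 := by
        rw [hcnt]
        simp only
        rw [k5 hco, Nat.cast_zero]
      obtain ⟨g1, g2⟩ := hga _ k3
      have p1 : 0 ≤ ∏ i, dd 1 (LL (d i) (e i)) :=
        Finset.prod_nonneg fun i _ => dd_nonneg zero_le_one _
      have a3 : 0 ≤ Y * (ga (univ.filter (fun i => LL (d i) (e i) ≠ 0)) * ∏ i, dd 1 (LL (d i) (e i))) :=
        mul_nonneg hY (mul_nonneg g1 p1)
      have a4 : Y * (ga (univ.filter (fun i => LL (d i) (e i) ≠ 0)) * ∏ i, dd 1 (LL (d i) (e i))) ≤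
          Y * ∏ i, dd o (LL (d i) (e i)) := by
        rw [prod_dd o]
        exact mul_le_mul_of_nonneg_left (mul_le_mul_of_nonneg_right g2 p1) hY
      rw [a1, a2, zero_sub, abs_neg, abs_of_nonneg a3]
      have a5 : 0 ≤ δ * (Y * ∏ i, dd o (LL (d i) (e i))) := mul_nonneg hδ hdn
      linarith
  have hgoal : ∑ r ∈ T, c r ^ 2 *
        (ga (univ.filter (fun i => r i ≠ 0)) * ∏ i, (if r i = 0 then 1 else (Nat.totient (r i) : ℝ))) =
      ∑ r ∈ T, c r ^ 2 * (ga (univ.filter (fun i => r i ≠ 0)) * ∏ i, ww 1 (r i)) := by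
    refine Finset.sum_congr rfl fun r _ => ?_
    rw [Finset.prod_congr rfl fun i _ => (ww_one (r i)).symm]
  rw [hgoal, hsq, hmain, ← Finset.sum_sub_distrib]
  have hfin : ∀ r ∈ T, ∀ s ∈ T,
      |c r * c s * ∑ d ∈ PL r, ∑ e ∈ PL s,
        (∏ i, (kap (d i) * kap (e i))) * cnt (fun i => LL (d i) (e i)) -
       c r * c s * ∑ d ∈ PL r, ∑ e ∈ PL s,
        (∏ i, (kap (d i) * kap (e i))) *
          (Y * (ga (univ.filter (fun i => LL (d i) (e i) ≠ 0)) * ∏ i, dd 1 (LL (d i) (e i))))| ≤
      Y * ((∏ i, (al i (r i) * al i (s i))) * ∑ d ∈ PL r, ∑ e ∈ PL s,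
        (∏ i, (|kap (d i)| * |kap (e i)| * dd o (LL (d i) (e i)))) *
          (δ + nc (fun i => LL (d i) (e i)))) := by
    intro r hr s hs
    rw [← mul_sub, ← Finset.sum_sub_distrib, abs_mul]
    have a1 : |c r * c s| ≤ ∏ i, (al i (r i) * al i (s i)) := by
      rw [abs_mul, Finset.prod_mul_distrib]
      exact mul_le_mul (hc r hr) (hc s hs) (abs_nonneg _)
        (Finset.prod_nonneg fun i _ => hal i _)
    have a2 : |∑ d ∈ PL r, (∑ e ∈ PL s,
        (∏ i, (kap (d i) * kap (e i))) * cnt (fun i => LL (d i) (e i)) -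
          ∑ e ∈ PL s, (∏ i, (kap (d i) * kap (e i))) *
            (Y * (ga (univ.filter (fun i => LL (d i) (e i) ≠ 0)) * ∏ i, dd 1 (LL (d i) (e i)))))| ≤
        Y * ∑ d ∈ PL r, ∑ e ∈ PL s,
        (∏ i, (|kap (d i)| * |kap (e i)| * dd o (LL (d i) (e i)))) *
          (δ + nc (fun i => LL (d i) (e i))) := by
      refine (Finset.abs_sum_le_sum_abs _ _).trans ?_
      rw [Finset.mul_sum]
      refine Finset.sum_le_sum fun d hd => ?_
      rw [← Finset.sum_sub_distrib]
      refine (Finset.abs_sum_le_sum_abs _ _).trans ?_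
      rw [Finset.mul_sum]
      refine Finset.sum_le_sum fun e he => ?_
      rw [← mul_sub, abs_mul, Finset.abs_prod]
      refine (mul_le_mul_of_nonneg_left (herr r hr s hs d hd e he)
        (Finset.prod_nonneg fun i _ => abs_nonneg _)).trans (le_of_eq ?_)
      have b1 : ∏ i, |kap (d i) * kap (e i)| = ∏ i, (|kap (d i)| * |kap (e i)|) :=
        Finset.prod_congr rfl fun i _ => abs_mul _ _
      rw [b1, Finset.prod_mul_distrib (f := fun i => |kap (d i)| * |kap (e i)|)]
      ring
    calc _ ≤ (∏ i, (al i (r i) * al i (s i))) * (Y * ∑ d ∈ PL r, ∑ e ∈ PL s,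
        (∏ i, (|kap (d i)| * |kap (e i)| * dd o (LL (d i) (e i)))) *
          (δ + nc (fun i => LL (d i) (e i)))) :=
          mul_le_mul a1 a2 (abs_nonneg _)
            (Finset.prod_nonneg fun i _ => mul_nonneg (hal i _) (hal i _))
      _ = _ := by ring
  refine (Finset.abs_sum_le_sum_abs _ _).trans ?_
  calc _ ≤ ∑ r ∈ T, ∑ s ∈ T, Y * ((∏ i, (al i (r i) * al i (s i))) * ∑ d ∈ PL r, ∑ e ∈ PL s,
        (∏ i, (|kap (d i)| * |kap (e i)| * dd o (LL (d i) (e i)))) *
          (δ + nc (fun i => LL (d i) (e i)))) := by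
        refine Finset.sum_le_sum fun r hr => ?_
        rw [← Finset.sum_sub_distrib]
        exact (Finset.abs_sum_le_sum_abs _ _).trans
          (Finset.sum_le_sum fun s hs => hfin r hr s hs)
    _ = Y * ∑ r ∈ T, ∑ s ∈ T, (∏ i, (al i (r i) * al i (s i))) * ∑ d ∈ PL r, ∑ e ∈ PL s,
        (∏ i, (|kap (d i)| * |kap (e i)| * dd o (LL (d i) (e i)))) *
          (δ + nc (fun i => LL (d i) (e i))) := by
        rw [Finset.mul_sum]
        refine Finset.sum_congr rfl fun r _ => ?_
        rw [Finset.mul_sum]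
    _ ≤ _ := by
        rw [mul_assoc]
        exact mul_le_mul_of_nonneg_left hE hY

theorem tr : StmtTR2 := tr_aux Pool.Agent.Helper42.PP.tre

end Pool.Agent.Helper88.TW
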